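import Pool.Agent.helper25.PV.AG23

set_option autoImplicit false
set_option linter.unusedSectionVars false
set_option linter.unusedVariables false

/-!
# Project PV: the complements of the lines of the affine plane of order three form a Hilbert basis
-/

namespace Pool.Agent.helper25.PV

open Set Pool.Agent.helper9.HB49

/-- the four directions -/
def ldir : Fin 4 → (Fin 2 → ZMod 3) → ZMod 3 :=
  ![fun v => v 0, fun v => v 1, fun v => v 0 + v 1, fun v => v 0 - v 1]

theorem ldir_of' : ∀ p q : Fin 2 → ZMod 3, p ≠ q → ∃ s : Fin 4 × ZMod 3,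
    ∀ y, (y ≠ p ∧ y ≠ q ∧ y ≠ - p - q) ↔ ldir s.1 y ≠ s.2 := by decide +kernel

theorem ldir_of (p q : Fin 2 → ZMod 3) (h : p ≠ q) : ∃ (c : Fin 4) (t : ZMod 3), ∀ y,
    (y ≠ p ∧ y ≠ q ∧ y ≠ - p - q) ↔ ldir c y ≠ t := by
  obtain ⟨s, hs⟩ := ldir_of' p q h
  exact ⟨s.1, s.2, hs⟩

theorem ldir_to : ∀ (c : Fin 4) (t : ZMod 3), ∃ p q : Fin 2 → ZMod 3, p ≠ q ∧ ∀ y,
    (y ≠ p ∧ y ≠ q ∧ y ≠ - p - q) ↔ ldir c y ≠ t := by decide +kernel

theorem sum3 (g : ZMod 3 → ℚ) : ∑ t, g t = g 0 + g 1 + g 2 := Fin.sum_univ_three g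

theorem forall3 {P : ZMod 3 → Prop} (h0 : P 0) (h1 : P 1) (h2 : P 2) : ∀ t, P t := by
  intro t
  fin_cases t
  · exact h0
  · exact h1
  · exact h2

theorem ag_unique (h : Fin 4 → ZMod 3 → ℚ)
    (H : ∀ y : Fin 2 → ZMod 3, ∑ c, ∑ t, (if ldir c y = t then 0 else h c t) = 0) :
    (∀ c t, h c t = h c 0) ∧ ∑ c, h c 0 = 0 := by
  have H00 := H ![0, 0]
  have H01 := H ![0, 1]
  have H02 := H ![0, 2]
  have H10 := H ![1, 0]
  have H11 := H ![1, 1]
  have H12 := H ![1, 2]
  have H20 := H ![2, 0]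
  have H21 := H ![2, 1]
  have H22 := H ![2, 2]
  rw [Fin.sum_univ_four, sum3, sum3, sum3, sum3] at H00 H01 H02 H10 H11 H12 H20 H21 H22
  simp (decide := true) only [↓reduceIte] at H00 H01 H02 H10 H11 H12 H20 H21 H22
  have a1 : h 0 1 = h 0 0 := by linarith
  have a2 : h 0 2 = h 0 0 := by linarith
  have b1 : h 1 1 = h 1 0 := by linarith
  have b2 : h 1 2 = h 1 0 := by linarith
  have c1 : h 2 1 = h 2 0 := by linarith
  have c2 : h 2 2 = h 2 0 := by linarith
  have d1 : h 3 1 = h 3 0 := by linarith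
  have d2 : h 3 2 = h 3 0 := by linarith
  refine ⟨?_, ?_⟩
  · intro c
    fin_cases c
    · exact forall3 rfl a1 a2
    · exact forall3 rfl b1 b2
    · exact forall3 rfl c1 c2
    · exact forall3 rfl d1 d2
  · rw [Fin.sum_univ_four]
    linarith

variable {α : Type*}

theorem AG23.hilbert {M : Matroid α} (hM : AG23 M) : CircuitsHilbert M := by
  classical
  obtain ⟨f, hf, hC⟩ := hM
  -- the circuits by directions
  have hC' : ∀ C, M.IsCircuit C ↔ ∃ c t, C = {x ∈ M.E | ldir c (f x) ≠ t} := by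
    intro C
    rw [hC]
    constructor
    · rintro ⟨p, q, hpq, rfl⟩
      obtain ⟨c, t, h⟩ := ldir_of p q hpq
      exact ⟨c, t, by ext x; simp only [mem_sep_iff, h]⟩
    · rintro ⟨c, t, rfl⟩
      obtain ⟨p, q, hpq, h⟩ := ldir_to c t
      exact ⟨p, q, hpq, by ext x; simp only [mem_sep_iff, h]⟩
  set K : Fin 4 → ZMod 3 → Set α := fun c t => {x ∈ M.E | ldir c (f x) ≠ t} with hK
  have hKc : ∀ c t, M.IsCircuit (K c t) := fun c t => (hC' _).2 ⟨c, t, rfl⟩
  rw [hilbert_iff]
  intro p hp hc
  have hlat : ∀ z ∈ Lat M, ∃ n : Fin 4 → ZMod 3 → ℤ, ∀ x ∈ M.E,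
      z x = ∑ c, ∑ t, if ldir c (f x) = t then 0 else n c t := by
    intro z hz
    induction hz using AddSubgroup.closure_induction with
    | mem v hv =>
      obtain ⟨C, h, rfl⟩ := hv
      obtain ⟨c, t, rfl⟩ := (hC' C).1 h
      refine ⟨fun c' t' => if c' = c ∧ t' = t then 1 else 0, fun x hx => ?_⟩
      rw [Finset.sum_eq_single c, Finset.sum_eq_single t]
      · rw [chi_apply]
        simp [hx]
      · intro t' _ ht'
        simp [ht']
      · simp
      · intro c' _ hc'
        simp [hc']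
      · simp
    | zero => exact ⟨fun _ _ => 0, fun x _ => by simp⟩
    | add v w _ _ h1 h2 =>
      obtain ⟨n1, h1⟩ := h1
      obtain ⟨n2, h2⟩ := h2
      refine ⟨fun c t => n1 c t + n2 c t, fun x hx => ?_⟩
      rw [Pi.add_apply, h1 x hx, h2 x hx, ← Finset.sum_add_distrib]
      refine Finset.sum_congr rfl fun c _ => ?_
      rw [← Finset.sum_add_distrib]
      refine Finset.sum_congr rfl fun t _ => ?_
      split_ifs <;> simp
    | neg v _ h1 =>
      obtain ⟨n1, h1⟩ := h1
      refine ⟨fun c t => - n1 c t, fun x hx => ?_⟩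
      rw [Pi.neg_apply, h1 x hx, ← Finset.sum_neg_distrib]
      refine Finset.sum_congr rfl fun c _ => ?_
      rw [← Finset.sum_neg_distrib]
      refine Finset.sum_congr rfl fun t _ => ?_
      split_ifs <;> simp
  have hcone : ∀ v ∈ Cone M, ∃ μ : Fin 4 → ZMod 3 → ℚ, (∀ c t, 0 ≤ μ c t) ∧ ∀ x ∈ M.E,
      v x = ∑ c, ∑ t, if ldir c (f x) = t then 0 else μ c t := by
    intro v hv
    induction hv using Submodule.span_induction with
    | mem v hv =>
      obtain ⟨C, h, rfl⟩ := hv
      obtain ⟨c, t, rfl⟩ := (hC' C).1 h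
      refine ⟨fun c' t' => if c' = c ∧ t' = t then 1 else 0, fun c' t' => by
        dsimp only; split_ifs <;> norm_num, fun x hx => ?_⟩
      rw [Finset.sum_eq_single c, Finset.sum_eq_single t]
      · rw [chi_apply]
        simp [hx]
      · intro t' _ ht'
        simp [ht']
      · simp
      · intro c' _ hc'
        simp [hc']
      · simp
    | zero => exact ⟨fun _ _ => 0, fun _ _ => le_rfl, fun x _ => by simp⟩
    | add v w _ _ h1 h2 =>
      obtain ⟨n1, k1, h1⟩ := h1
      obtain ⟨n2, k2, h2⟩ := h2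
      refine ⟨fun c t => n1 c t + n2 c t, fun c t => add_nonneg (k1 c t) (k2 c t),
        fun x hx => ?_⟩
      rw [Pi.add_apply, h1 x hx, h2 x hx, ← Finset.sum_add_distrib]
      refine Finset.sum_congr rfl fun c _ => ?_
      rw [← Finset.sum_add_distrib]
      refine Finset.sum_congr rfl fun t _ => ?_
      split_ifs <;> simp
    | smul q v _ h1 =>
      obtain ⟨n1, k1, h1⟩ := h1
      refine ⟨fun c t => q * n1 c t, fun c t => mul_nonneg q.2 (k1 c t), fun x hx => ?_⟩
      rw [Pi.smul_apply, NNRat.smul_def, h1 x hx, Finset.mul_sum]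
      refine Finset.sum_congr rfl fun c _ => ?_
      rw [Finset.mul_sum]
      refine Finset.sum_congr rfl fun t _ => ?_
      split_ifs <;> simp
  obtain ⟨n, hn⟩ := hlat p hp
  obtain ⟨μ, hμ0, hμ⟩ := hcone _ hc
  obtain ⟨u1, u2⟩ := ag_unique (fun c t => (n c t : ℚ) - μ c t) (by
    intro y
    obtain ⟨x, hx, rfl⟩ := hf.2.2 (mem_univ y)
    have h1 := hn x hx
    have h2 := hμ x hx
    have h3 : ((p x : ℤ) : ℚ) = ∑ c, ∑ t, if ldir c (f x) = t then (0 : ℚ) else (n c t : ℚ) := by
      rw [h1]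
      push_cast
      rfl
    have h4 : ∑ c, ∑ t, (if ldir c (f x) = t then (0 : ℚ) else (n c t : ℚ) - μ c t) =
        (∑ c, ∑ t, if ldir c (f x) = t then (0 : ℚ) else (n c t : ℚ)) -
        ∑ c, ∑ t, if ldir c (f x) = t then (0 : ℚ) else μ c t := by
      rw [← Finset.sum_sub_distrib]
      refine Finset.sum_congr rfl fun c _ => ?_
      rw [← Finset.sum_sub_distrib]
      refine Finset.sum_congr rfl fun t _ => ?_
      split_ifs <;> simp
    rw [h4, ← h3, h2, sub_self])
  -- the minima
  have hmin : ∀ c, ∃ t, ∀ t', n c t ≤ n c t' := by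
    intro c
    obtain ⟨t, -, ht⟩ := (Finset.univ : Finset (ZMod 3)).exists_min_image (fun t => n c t)
      Finset.univ_nonempty
    exact ⟨t, fun t' => ht t' (Finset.mem_univ _)⟩
  choose tm htm using hmin
  set k : ℤ := ∑ c, n c (tm c) with hk
  have hk0 : 0 ≤ k := by
    have h1 : (0 : ℚ) ≤ ∑ c, (n c (tm c) : ℚ) := by
      have h2 : ∀ c ∈ (Finset.univ : Finset (Fin 4)), ((n c 0 : ℚ) - μ c 0) ≤ n c (tm c) := by
        intro c _
        have h3 := u1 c (tm c)
        have h4 := hμ0 c (tm c)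
        linarith
      have h3 := Finset.sum_le_sum h2
      rw [u2] at h3
      exact h3
    rw [hk]
    exact_mod_cast h1
  have hpe : p = ∑ c, ∑ t, (n c t - n c (tm c) + if c = 0 then k else 0).toNat •
      chi ℤ (K c t) := by
    funext x
    rw [Finset.sum_apply]
    have h0 : ∀ c t, (((n c t - n c (tm c) + if c = 0 then k else 0).toNat : ℕ) : ℤ) =
        n c t - n c (tm c) + if c = 0 then k else 0 := by
      intro c t
      apply Int.toNat_of_nonneg
      have := htm c t
      split_ifs <;> omega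
    by_cases hx : x ∈ M.E
    · have h1 : ∀ c ∈ (Finset.univ : Finset (Fin 4)),
          (∑ t, (n c t - n c (tm c) + if c = 0 then k else 0).toNat • chi ℤ (K c t)) x =
          (∑ t, if ldir c (f x) = t then 0 else n c t) - 2 * n c (tm c) +
            2 * if c = 0 then k else 0 := by
        intro c _
        rw [Finset.sum_apply]
        have h2 : ∀ t ∈ (Finset.univ : Finset (ZMod 3)),
            ((n c t - n c (tm c) + if c = 0 then k else 0).toNat • chi ℤ (K c t)) x =
            (if ldir c (f x) = t then 0 else n c t) +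
            ((- n c (tm c) + if c = 0 then k else 0) -
              if ldir c (f x) = t then (- n c (tm c) + if c = 0 then k else 0) else 0) := by
          intro t _
          rw [Pi.smul_apply, nsmul_eq_mul, h0, chi_apply]
          by_cases h3 : ldir c (f x) = t
          · simp [hK, h3]
          · simp [hK, hx, h3]
            ring
        rw [Finset.sum_congr rfl h2, Finset.sum_add_distrib, Finset.sum_sub_distrib,
          Finset.sum_ite_eq, if_pos (Finset.mem_univ _), Finset.sum_const, Finset.card_univ,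
          ZMod.card]
        ring
      rw [Finset.sum_congr rfl h1, Finset.sum_add_distrib, Finset.sum_sub_distrib, ← hn x hx,
        ← Finset.mul_sum, ← Finset.mul_sum, Finset.sum_ite_eq', if_pos (Finset.mem_univ _), ← hk]
      ring
    · rw [lat_support hp hx]
      symm
      refine Finset.sum_eq_zero fun c _ => ?_
      rw [Finset.sum_apply]
      refine Finset.sum_eq_zero fun t _ => ?_
      rw [Pi.smul_apply, chi_apply_notMem (fun h => hx h.1), smul_zero]
  rw [hpe]
  exact sum_mem fun c _ => sum_mem fun t _ => AddSubmonoid.nsmul_mem _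
    (chi_mem_intCone (hKc c t)) _

end Pool.Agent.helper25.PV
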