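import Pool.Agent.helper25.PV.Pav

set_option autoImplicit false
set_option linter.unusedSectionVars false
set_option linter.unusedVariables false

/-!
# Project PV: matroids of corank at most two
-/

namespace Pool.Agent.helper25.PV

open Finset Pool.Agent.helper9.HB49

variable {α : Type*} [DecidableEq α] {M : Matroid α} [M.Finite]

/-- the union of two circuits has nullity at least two -/
theorem union_two {C D : Finset α} (hC : M.IsCircuit (C : Set α)) (hD : M.IsCircuit (D : Set α))
    (hne : C ≠ D) : rk M ((C ∪ D : Finset α) : Set α) + 2 ≤ (C ∪ D).card := by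
  have h1 := circuit_rk hC
  have h2 := circuit_rk hD
  rw [Set.ncard_coe_finset] at h1 h2
  have h3 : M.Indep ((C ∩ D : Finset α) : Set α) := by
    apply hC.ssubset_indep
    rw [Finset.coe_ssubset]
    refine ⟨inter_subset_left, fun h4 => hne ?_⟩
    have h5 : C ⊆ D := h4.trans inter_subset_right
    have h6 := hC.eq_of_subset_isCircuit hD (Finset.coe_subset.2 h5)
    exact Finset.coe_injective h6
  rw [indep_iff_rk (Finset.finite_toSet _), Set.ncard_coe_finset] at h3
  have h4 := rk_submod (M := M) (C : Set α) (D : Set α) ((C ∩ D : Finset α) : Set α)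
    ((C ∪ D : Finset α) : Set α) (by rw [Finset.coe_inter]) (by rw [Finset.coe_union])
  have h5 := card_union_add_card_inter C D
  omega

/-- a circuit not contained in a set adds one to the nullity -/
theorem union_add {U D : Finset α} (hD : M.IsCircuit (D : Set α)) (hne : ¬ D ⊆ U) {k : ℕ}
    (hU : rk M (U : Set α) + k ≤ U.card) :
    rk M ((U ∪ D : Finset α) : Set α) + (k + 1) ≤ (U ∪ D).card := by
  have h2 := circuit_rk hD
  rw [Set.ncard_coe_finset] at h2
  have h3 : M.Indep ((U ∩ D : Finset α) : Set α) := by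
    apply hD.ssubset_indep
    rw [Finset.coe_ssubset]
    exact ⟨inter_subset_right, fun h4 => hne (h4.trans inter_subset_left)⟩
  rw [indep_iff_rk (Finset.finite_toSet _), Set.ncard_coe_finset] at h3
  have h4 := rk_submod (M := M) (U : Set α) (D : Set α) ((U ∩ D : Finset α) : Set α)
    ((U ∪ D : Finset α) : Set α) (by rw [Finset.coe_inter]) (by rw [Finset.coe_union])
  have h5 := card_union_add_card_inter U D
  omega

theorem nullity_mono {U F : Finset α} (hUF : U ⊆ F) {k : ℕ}
    (hU : rk M (U : Set α) + k ≤ U.card) : rk M (F : Set α) + k ≤ F.card := by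
  have h4 := rk_submod (M := M) (U : Set α) ((F \ U : Finset α) : Set α) ∅
    (F : Set α) (Set.empty_subset _) (by
      rw [← Finset.coe_union, union_sdiff_of_subset hUF])
  have h5 := rk_le_ncard (M := M) (X := ((F \ U : Finset α) : Set α)) (Finset.finite_toSet _)
  rw [Set.ncard_coe_finset, card_sdiff_of_subset hUF] at h5
  have h6 := card_le_card hUF
  omega

/-- the circuits of a matroid of corank at most two form a Hilbert basis -/
theorem corank_two (hE : M.E.ncard ≤ rk M M.E + 2) : CircuitsHilbert M := by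
  classical
  set F := M.ground_finite.toFinset with hF
  have hFE : (F : Set α) = M.E := by rw [hF]; simp
  have hFc : F.card = M.E.ncard := (Set.ncard_eq_toFinset_card _ _).symm
  set 𝒞 : Finset (Finset α) := F.powerset.filter fun C => M.IsCircuit (C : Set α) with h𝒞
  have hmem : ∀ C : Finset α, C ∈ 𝒞 ↔ M.IsCircuit (C : Set α) := by
    intro C
    rw [h𝒞, mem_filter, mem_powerset]
    refine ⟨fun h => h.2, fun h => ⟨?_, h⟩⟩
    rw [← Finset.coe_subset, hFE]
    exact h.subset_ground
  -- the union of two circuits contains all circuits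
  have hall : ∀ C ∈ 𝒞, ∀ D ∈ 𝒞, C ≠ D → ∀ K ∈ 𝒞, K ⊆ C ∪ D := by
    intro C hC D hD hne K hK
    by_contra hcon
    have h1 := union_two ((hmem C).1 hC) ((hmem D).1 hD) hne
    have h2 := union_add ((hmem K).1 hK) hcon h1
    have h3 : (C ∪ D) ∪ K ⊆ F := by
      rw [h𝒞] at hC hD hK
      exact union_subset (union_subset (mem_powerset.1 (mem_filter.1 hC).1)
        (mem_powerset.1 (mem_filter.1 hD).1)) (mem_powerset.1 (mem_filter.1 hK).1)
    have h4 := nullity_mono h3 h2
    rw [hFE] at h4
    omega
  -- linear independence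
  have hind : ∀ h : Finset α → ℚ, (∀ x, ∑ C ∈ 𝒞, h C * chi ℚ (C : Set α) x = 0) →
      ∀ C ∈ 𝒞, h C = 0 := by
    intro h hs
    by_cases hone : ∃ C ∈ 𝒞, ∃ D ∈ 𝒞, C ≠ D
    · obtain ⟨C0, hC0, D0, hD0, hne0⟩ := hone
      set H := ∑ C ∈ 𝒞, h C with hH
      have key : ∀ C ∈ 𝒞, h C = H := by
        intro C hC
        obtain ⟨D, hD, hne⟩ : ∃ D ∈ 𝒞, D ≠ C := by
          by_cases h1 : C0 = C
          · exact ⟨D0, hD0, fun h2 => hne0 (h1.trans h2.symm)⟩
          · exact ⟨C0, hC0, h1⟩
        obtain ⟨x, hxD, hxC⟩ : ∃ x ∈ D, x ∉ C := by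
          by_contra h1
          push Not at h1
          have h2 := ((hmem D).1 hD).eq_of_subset_isCircuit ((hmem C).1 hC)
            (Finset.coe_subset.2 h1)
          exact hne (Finset.coe_injective h2)
        have h1 := hs x
        have h2 : ∀ K ∈ 𝒞, h K * chi ℚ (K : Set α) x = h K - if K = C then h K else 0 := by
          intro K hK
          by_cases hKC : K = C
          · rw [if_pos hKC, hKC, chi_apply_notMem (by simpa using hxC)]
            ring
          · rw [if_neg hKC, chi_apply_mem]
            · ring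
            · have h3 := hall K hK C hC hKC D hD hxD
              rw [mem_union] at h3
              exact mem_coe.2 (h3.resolve_right hxC)
        rw [sum_congr rfl h2, sum_sub_distrib, sum_ite_eq', if_pos hC] at h1
        linarith
      have h1 : H = 𝒞.card * H := by
        rw [← nsmul_eq_mul, ← sum_const]
        exact sum_congr rfl key
      have h2 : 1 < 𝒞.card := one_lt_card.2 ⟨C0, hC0, D0, hD0, hne0⟩
      have h3 : (1 : ℚ) < 𝒞.card := by exact_mod_cast h2
      have h4 : H = 0 := by
        have h5 : ((𝒞.card : ℚ) - 1) * H = 0 := by linarith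
        rcases mul_eq_zero.1 h5 with h6 | h6
        · linarith
        · exact h6
      intro C hC
      rw [key C hC, h4]
    · push Not at hone
      intro C hC
      have h1 : 𝒞 = {C} := by
        ext D
        rw [mem_singleton]
        exact ⟨fun hD => hone D hD C hC, fun hD => hD ▸ hC⟩
      obtain ⟨x, hx⟩ := ((hmem C).1 hC).nonempty
      have h2 := hs x
      rw [h1, sum_singleton, chi_apply_mem hx, mul_one] at h2
      exact h2
  rw [hilbert_iff]
  intro p hp hc
  have hcirc : ∀ C, M.IsCircuit C → ∃ D ∈ 𝒞, C = (D : Set α) := by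
    intro C hC
    refine ⟨(M.ground_finite.subset hC.subset_ground).toFinset, ?_, by simp⟩
    rw [hmem]
    simpa using hC
  have hlat : ∀ z ∈ Lat M, ∃ n : Finset α → ℤ, ∀ x, z x = ∑ C ∈ 𝒞, n C * chi ℤ (C : Set α) x := by
    intro z hz
    induction hz using AddSubgroup.closure_induction with
    | mem v hv =>
      obtain ⟨C, h, rfl⟩ := hv
      obtain ⟨D, hD, rfl⟩ := hcirc C h
      refine ⟨fun C => if C = D then 1 else 0, fun x => ?_⟩
      rw [sum_eq_single D]
      · simp
      · intro K _ hK
        simp [hK]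
      · exact fun h1 => absurd hD h1
    | zero => exact ⟨fun _ => 0, fun x => by simp⟩
    | add v w _ _ h1 h2 =>
      obtain ⟨n1, h1⟩ := h1
      obtain ⟨n2, h2⟩ := h2
      refine ⟨fun C => n1 C + n2 C, fun x => ?_⟩
      rw [Pi.add_apply, h1 x, h2 x, ← sum_add_distrib]
      exact sum_congr rfl fun C _ => by ring
    | neg v _ h1 =>
      obtain ⟨n1, h1⟩ := h1
      refine ⟨fun C => - n1 C, fun x => ?_⟩
      rw [Pi.neg_apply, h1 x, ← sum_neg_distrib]
      exact sum_congr rfl fun C _ => by ring
  have hcone : ∀ v ∈ Cone M, ∃ μ : Finset α → ℚ, (∀ C, 0 ≤ μ C) ∧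
      ∀ x, v x = ∑ C ∈ 𝒞, μ C * chi ℚ (C : Set α) x := by
    intro v hv
    induction hv using Submodule.span_induction with
    | mem v hv =>
      obtain ⟨C, h, rfl⟩ := hv
      obtain ⟨D, hD, rfl⟩ := hcirc C h
      refine ⟨fun C => if C = D then 1 else 0, fun C => by dsimp only; split_ifs <;> norm_num,
        fun x => ?_⟩
      rw [sum_eq_single D]
      · simp
      · intro K _ hK
        simp [hK]
      · exact fun h1 => absurd hD h1
    | zero => exact ⟨fun _ => 0, fun _ => le_rfl, fun x => by simp⟩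
    | add v w _ _ h1 h2 =>
      obtain ⟨n1, k1, h1⟩ := h1
      obtain ⟨n2, k2, h2⟩ := h2
      refine ⟨fun C => n1 C + n2 C, fun C => add_nonneg (k1 C) (k2 C), fun x => ?_⟩
      rw [Pi.add_apply, h1 x, h2 x, ← sum_add_distrib]
      exact sum_congr rfl fun C _ => by ring
    | smul q v _ h1 =>
      obtain ⟨n1, k1, h1⟩ := h1
      refine ⟨fun C => q * n1 C, fun C => mul_nonneg q.2 (k1 C), fun x => ?_⟩
      rw [Pi.smul_apply, NNRat.smul_def, h1 x, mul_sum]
      exact sum_congr rfl fun C _ => by ring
  obtain ⟨n, hn⟩ := hlat p hp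
  obtain ⟨μ, hμ0, hμ⟩ := hcone _ hc
  have h0 := hind (fun C => (n C : ℚ) - μ C) (by
    intro x
    have h1 := hμ x
    have h2 : ((p x : ℤ) : ℚ) = ∑ C ∈ 𝒞, (n C : ℚ) * chi ℚ (C : Set α) x := by
      rw [hn x]
      push_cast
      exact sum_congr rfl fun C _ => by rw [cast_chi]
    simp only [sub_mul, sum_sub_distrib]
    rw [← h2, h1, sub_self])
  have hpe : p = ∑ C ∈ 𝒞, (n C).toNat • chi ℤ (C : Set α) := by
    funext x
    rw [hn x, Finset.sum_apply]
    refine sum_congr rfl fun C hC => ?_
    rw [Pi.smul_apply, nsmul_eq_mul, Int.toNat_of_nonneg]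
    have h1 := h0 C hC
    have h2 := hμ0 C
    have h3 : (0 : ℚ) ≤ n C := by linarith
    exact_mod_cast h3
  rw [hpe]
  exact sum_mem fun C hC => AddSubmonoid.nsmul_mem _ (chi_mem_intCone ((hmem C).1 hC)) _

end Pool.Agent.helper25.PV
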