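import Pool.Agent.helper25.PV.Suf
import Pool.Agent.helper25.PV.Cor2
import Pool.Agent.helper25.PV.AGsuf

set_option autoImplicit false
set_option linter.unusedSectionVars false
set_option linter.unusedVariables false

/-!
# Project PV: paving matroids of rank at least five whose circuits form a Hilbert basis
-/

namespace Pool.Agent.helper25.PV

open Finset Pool.Agent.helper9.HB49

variable {α : Type*} {M : Matroid α} [M.Finite] {r : ℕ}

theorem Pv.gd_rank [DecidableEq α] (h : Pv M r) (hH : CircuitsHilbert M) (h5 : 5 ≤ r)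
    {X : Finset α} (hX : Gd M r X) : r = 6 ∨ r = 12 := by
  obtain ⟨S, hS, hinj, h3⟩ := h.gd_ls hH h5 hX
  have hc : Fintype.card X = r + 3 := by rw [Fintype.card_coe, hX.2.1]
  rcases hS.hp.dich (by omega) hinj h3 with h1 | ⟨u, h1, h2⟩
  · have := hS.hp.ag (by omega) hinj h3 h1
    omega
  · have := hS.hp.pg (by omega) hinj h3 h1 h2
    omega

theorem Pv.main (h : Pv M r) (h5 : 5 ≤ r)
    (hex : ¬ (r = 12 ∧ (M.E.ncard = 15 ∨ M.E.ncard = 16))) :
    CircuitsHilbert M ↔ M.E.ncard ≤ r + 2 ∨ TU M r ∨ TC M r ∨ TS M r ∨ AG23 M := by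
  classical
  have hrk : rk M M.E = r := by
    have h8 : (rk M M.E : ℕ∞) = r := by rw [cast_rk, M.eRk_ground, h.rank]
    exact_mod_cast h8
  constructor
  · intro hH
    by_cases hE : M.E.ncard ≤ r + 2
    · exact Or.inl hE
    right
    by_cases hG : ∃ X, Gd M r X
    · obtain ⟨X, hX⟩ := hG
      rcases h.gd_rank hH h5 hX with rfl | rfl
      · right; right; right
        by_cases h9 : M.E.ncard = 9
        · exact h.ag23 hH h9 hX
        · exact (h.kill6 hH (by omega) hX).elim
      · exfalso
        apply hex
        refine ⟨rfl, ?_⟩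
        by_contra h1
        exact h.kill12 hH (by omega) hX
    · push Not at hG
      rcases h.classify (by omega) hG (by omega) with h1 | h1 | h1
      · exact Or.inl h1
      · exact Or.inr (Or.inl h1)
      · exact Or.inr (Or.inr (Or.inl h1))
  · rintro (h1 | h1 | h1 | h1 | h1)
    · exact corank_two (by rw [hrk]; exact h1)
    · exact h1.hilbert
    · exact h1.hilbert (by omega)
    · exact h1.hilbert (by omega)
    · exact h1.hilbert

end Pool.Agent.helper25.PV
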