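import Pool.Agent.helper25.PV.Coord

set_option autoImplicit false
set_option linter.unusedSectionVars false
set_option linter.unusedVariables false

/-!
# Project PV: affine spaces over the field with three elements
-/

namespace Pool.Agent.helper25.PV

open Finset

/-- the sixteen points -/
def vecA : Fin 16 → Fin 3 → ZMod 3 :=
  ![![0,0,0], ![0,1,0], ![0,1,1], ![0,2,0], ![0,2,1], ![1,0,0], ![1,0,1], ![1,0,2], ![1,1,0],
    ![1,1,2], ![1,2,0], ![1,2,2], ![2,0,1], ![2,0,2], ![2,1,2], ![2,2,2]]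

/-- the weights -/
def dA : Fin 16 → ℕ := ![1, 1, 1, 1, 1, 2, 1, 1, 1, 1, 1, 1, 1, 2, 1, 1]

/-- the nineteen lines -/
def linA : Fin 19 → Finset (Fin 16) :=
  ![{0,1,3}, {0,6,13}, {0,7,12}, {1,6,15}, {1,11,12}, {2,5,15}, {2,8,14}, {2,10,13}, {3,6,14},
    {3,9,12}, {4,5,14}, {4,8,13}, {4,10,15}, {5,6,7}, {5,8,10}, {6,8,11}, {6,9,10}, {7,9,11},
    {13,14,15}]

/-- the twelve lines of the half sum -/
def cA : Fin 19 → ℕ := ![1, 1, 0, 0, 1, 1, 0, 1, 0, 1, 1, 1, 0, 1, 1, 0, 0, 1, 1]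

theorem vecA_inj : Function.Injective vecA := by decide +kernel

theorem linA_inj : Function.Injective linA := by decide +kernel

theorem linA_line : ∀ j, ∃ x y z, x ≠ y ∧ linA j = {x, y, z} ∧ vecA z = - vecA x - vecA y := by
  decide +kernel

theorem linA_pair : ∀ i i', i ≠ i' →
    (∃ j, i ∈ linA j ∧ i' ∈ linA j) ∨ ∀ i'', vecA i'' ≠ - vecA i - vecA i' := by
  decide +kernel

theorem linA_two : ∀ i, ∑ j, (if i ∈ linA j then cA j else 0) = 2 * dA i := by decide +kernel

theorem cA_sum : ∑ j, cA j = 2 * 6 := by decide +kernel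

theorem dA_sum : ∑ i, dA i = 18 := by decide +kernel

theorem vecA_sum : ∑ i, dA i • vecA i = 0 := by decide +kernel

theorem linA_no (x : Fin 19 → ℕ) (h : ∀ i, ∑ j, (if i ∈ linA j then x j else 0) = dA i) :
    False := by
  have h0 := h 0
  have h1 := h 1
  have h2 := h 2
  have h3 := h 3
  have h4 := h 4
  have h5 := h 5
  have h6 := h 6
  have h7 := h 7
  have h8 := h 8
  have h9 := h 9
  have h10 := h 10
  have h11 := h 11
  have h12 := h 12
  have h13 := h 13
  have h14 := h 14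
  have h15 := h 15
  clear h
  simp [Fin.sum_univ_succ, linA, dA] at h0 h1 h2 h3 h4 h5 h6 h7 h8 h9 h10 h11 h12 h13 h14 h15
  omega

end Pool.Agent.helper25.PV
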