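import Pool.Agent.helper25.PV.Kill12

set_option autoImplicit false
set_option linter.unusedSectionVars false
set_option linter.unusedVariables false

/-!
# Project PV: the affine plane over the field with three elements
-/

namespace Pool.Agent.helper25.PV

open Finset Pool.Agent.helper9.HB49

/-- the circuits of `M` are the complements of the lines of the affine plane over the field with
three elements -/
def AG23 {α : Type*} (M : Matroid α) : Prop :=
  ∃ f : α → (Fin 2 → ZMod 3), Set.BijOn f M.E Set.univ ∧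
    ∀ C, M.IsCircuit C ↔ ∃ p q, p ≠ q ∧ C = {x ∈ M.E | f x ≠ p ∧ f x ≠ q ∧ f x ≠ - p - q}

/-- affine coordinates -/
theorem HP.coord {V : Type*} [Fintype V] [DecidableEq V] {S : LS V} {A : Type*} [AddCommGroup A]
    {e : V → A} (h : HP S e) (hn : Fintype.card V = 9) (hinj : Function.Injective e)
    (h3 : ∀ x y, x ≠ y → (S.ln x y).card = 3) (ht : ∀ x, e x + e x + e x = ∑ y, e y) :
    ∃ pt : (Fin 2 → ZMod 3) → V, Function.Bijective pt ∧
      ∀ p q, p ≠ q → S.th (pt p) (pt q) = pt (- p - q) := by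
  set τ : A := ∑ y, e y with hτ
  have hth : ∀ x y, x ≠ y → e (S.th x y) = τ - e x - e y := fun x y hxy =>
    h.third_eq hxy (h3 x y hxy)
  obtain ⟨o⟩ : Nonempty V := by
    apply Fintype.card_pos_iff.1
    omega
  have hth' : ∀ x y, ∃ w, e w = τ - e x - e y := by
    intro x y
    by_cases hxy : x = y
    · refine ⟨x, ?_⟩
      rw [← hxy, ← ht x]; abel
    · exact ⟨_, hth x y hxy⟩
  let K : AddSubgroup A :=
    { carrier := {a | ∃ x, e x - e o = a}
      add_mem' := by
        rintro a b ⟨x, rfl⟩ ⟨y, rfl⟩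
        obtain ⟨w, hw⟩ := hth' x y
        obtain ⟨v, hv⟩ := hth' o w
        refine ⟨v, ?_⟩
        rw [hv, hw]; abel
      zero_mem' := ⟨o, sub_self _⟩
      neg_mem' := by
        rintro a ⟨x, rfl⟩
        obtain ⟨w, hw⟩ := hth' x o
        refine ⟨w, ?_⟩
        rw [hw, ← ht o]; abel }
  have hKmem : ∀ a, a ∈ K ↔ ∃ x, e x - e o = a := fun a => Iff.rfl
  let f : V → K := fun x => ⟨e x - e o, ⟨x, rfl⟩⟩
  have hf : Function.Bijective f := by
    constructor
    · intro x y hxy
      exact hinj (sub_left_injective (congrArg Subtype.val hxy))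
    · rintro ⟨a, ⟨x, rfl⟩⟩
      exact ⟨x, rfl⟩
  have hKfin : Finite K := Finite.of_surjective f hf.2
  have hKc : Nat.card K = Fintype.card V := by
    rw [← Nat.card_congr (Equiv.ofBijective f hf), Nat.card_eq_fintype_card]
  have hK3 : ∀ a ∈ K, 3 • a = 0 := by
    rintro a ⟨x, rfl⟩
    have h1 : 3 • (e x - e o) = (e x + e x + e x) - (e o + e o + e o) := by abel
    rw [h1, ht, ht, sub_self]
  have : Fact (Nat.Prime 3) := ⟨Nat.prime_three⟩
  rcases exists_coord (p := 3) K hK3 hKc 2 with ⟨d, hd, hN⟩ | ⟨φ, hφ, hφK⟩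
  · interval_cases d <;> omega
  · have hex : ∀ i, ∃ x, e x - e o = φ i := fun i => (hKmem _).1 (hφK i)
    choose pt hpt using hex
    have hpt' : ∀ i, e (pt i) = e o + φ i := by
      intro i
      rw [← hpt]; abel
    have hptinj : Function.Injective pt := by
      intro i j hij
      apply hφ
      rw [← hpt, ← hpt, hij]
    refine ⟨pt, (Fintype.bijective_iff_injective_and_card pt).2 ⟨hptinj, ?_⟩, ?_⟩
    · rw [hn]
      simp
    · intro i j hij
      apply hinj
      rw [hth _ _ (fun h1 => hij (hptinj h1)), hpt', hpt', hpt', map_sub, map_neg, ← ht o]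
      abel

variable {α : Type*} [DecidableEq α] {M : Matroid α} [M.Finite] {r : ℕ}

theorem Pv.ag23 (h : Pv M 6) (hH : CircuitsHilbert M) (hE : M.E.ncard = 9) {X : Finset α}
    (hX : Gd M 6 X) : AG23 M := by
  classical
  have hXE : (X : Set α) = M.E := by
    apply Set.eq_of_subset_of_ncard_le hX.1 _ M.ground_finite
    rw [Set.ncard_coe_finset, hX.2.1, hE]
  obtain ⟨S, hS, hinj, h3⟩ := h.gd_ls hH (by norm_num) hX
  have hc : Fintype.card X = 9 := by rw [Fintype.card_coe, hX.2.1]
  have hdich : ∀ x, eS S x + eS S x + eS S x = ∑ y, eS S y := by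
    rcases hS.hp.dich (by omega) hinj h3 with h1 | ⟨u, h1, h2⟩
    · exact h1
    · have := hS.hp.pg (by omega) hinj h3 h1 h2
      omega
  obtain ⟨pt, hbij, hth⟩ := hS.hp.coord hc hinj h3 hdich
  -- the lines
  have hline : ∀ p q, p ≠ q → ({pt p, pt q, pt (- p - q)} : Finset X) ∈ S.lines := by
    intro p q hpq
    have h1 : pt p ≠ pt q := fun h2 => hpq (hbij.1 h2)
    rw [← hth p q hpq, ← LS.ln_eq_th h1 (h3 _ _ h1)]
    exact LS.ln_mem h1
  have hline' : ∀ L ∈ S.lines, ∃ p q, p ≠ q ∧ L = {pt p, pt q, pt (- p - q)} := by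
    intro L hL
    obtain ⟨a, b, hab, rfl⟩ := LS.mem_lines.1 hL
    obtain ⟨p, rfl⟩ := hbij.2 a
    obtain ⟨q, rfl⟩ := hbij.2 b
    have hpq : p ≠ q := fun h2 => hab (by rw [h2])
    exact ⟨p, q, hpq, by rw [LS.ln_eq_th hab (h3 _ _ hab), hth p q hpq]⟩
  have hL3 : ∀ L ∈ S.lines, L.card = 3 := by
    intro L hL
    obtain ⟨a, b, hab, rfl⟩ := LS.mem_lines.1 hL
    exact h3 a b hab
  -- the coordinates
  choose inv hinv using hbij.2
  set f : α → (Fin 2 → ZMod 3) := fun x => if hx : x ∈ X then inv ⟨x, hx⟩ else 0 with hf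
  have hfx : ∀ x (hx : x ∈ X), pt (f x) = ⟨x, hx⟩ := by
    intro x hx
    rw [hf]
    dsimp only
    rw [dif_pos hx, hinv]
  have hfpt : ∀ p, f (pt p) = p := by
    intro p
    apply hbij.1
    rw [hfx _ (pt p).2]
  have hset : ∀ p q, {x ∈ M.E | f x ≠ p ∧ f x ≠ q ∧ f x ≠ - p - q} =
      ((X \ ({pt p, pt q, pt (- p - q)} : Finset X).image Subtype.val : Finset α) : Set α) := by
    intro p q
    ext x
    rw [mem_coe, mem_sdiff]
    constructor
    · rintro ⟨h1, h2, h4, h5⟩
      have hx : x ∈ X := by rw [← mem_coe, hXE]; exact h1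
      refine ⟨hx, ?_⟩
      rw [mem_image_val hx, mem_insert, mem_insert, mem_singleton, ← hfx x hx]
      rintro (h6 | h6 | h6)
      · exact h2 (hbij.1 h6)
      · exact h4 (hbij.1 h6)
      · exact h5 (hbij.1 h6)
    · rintro ⟨hx, h1⟩
      rw [mem_image_val hx, mem_insert, mem_insert, mem_singleton, ← hfx x hx] at h1
      refine ⟨by rw [← hXE]; exact hx, fun h2 => h1 ?_, fun h2 => h1 ?_, fun h2 => h1 ?_⟩
      · left; rw [h2]
      · right; left; rw [h2]
      · right; right; rw [h2]
  refine ⟨f, ⟨fun _ _ => Set.mem_univ _, ?_, ?_⟩, fun C => ?_⟩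
  · intro x hx y hy hxy
    rw [← hXE, mem_coe] at hx hy
    have h1 := hfx x hx
    rw [hxy, hfx y hy] at h1
    exact (congrArg Subtype.val h1).symm
  · intro p _
    exact ⟨pt p, by rw [← hXE]; exact (pt p).2, hfpt p⟩
  · constructor
    · intro hC
      obtain ⟨D, rfl⟩ : ∃ D : Finset α, C = D :=
        ⟨(M.ground_finite.subset hC.subset_ground).toFinset, by simp⟩
      have hDX : D ⊆ X := by
        rw [← Finset.coe_subset, hXE]
        exact hC.subset_ground
      rw [h.circuit_iff (by norm_num)] at hC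
      rcases hC.2 with ⟨h4, h5⟩ | ⟨h4, h5⟩
      · set L : Finset X := univ.filter fun v : X => (v : α) ∉ D with hL
        have h1 : D = X \ L.image Subtype.val := by
          ext x
          rw [mem_sdiff]
          constructor
          · intro hx
            refine ⟨hDX hx, ?_⟩
            rw [mem_image_val (hDX hx), hL, mem_filter]
            exact fun h2 => h2.2 hx
          · rintro ⟨hx, h2⟩
            rw [mem_image_val hx, hL, mem_filter] at h2
            by_contra h4
            exact h2 ⟨mem_univ _, h4⟩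
        have h2 := sdiff_val_card L
        rw [← h1, hX.2.1] at h2
        have hLl := (hS.tri L (by omega)).1 (by rw [← h1]; exact h5)
        obtain ⟨p, q, hpq, hLe⟩ := hline' L hLl
        refine ⟨p, q, hpq, ?_⟩
        rw [hset, ← hLe, ← h1]
      · exfalso
        have h1 : (X \ D).card = 2 := by
          rw [card_sdiff_of_subset hDX, hX.2.1, h4]
        obtain ⟨u, v, huv, huvD⟩ := card_eq_two.1 h1
        have mu : u ∈ X \ D := by rw [huvD]; simp
        have mv : v ∈ X \ D := by rw [huvD]; simp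
        obtain ⟨w, hw, hwu, hwv, hsm⟩ := h.gd_third hH (by norm_num) hX (mem_sdiff.1 mu).1
          (mem_sdiff.1 mv).1 huv
        have hwD : w ∈ D := by
          by_contra h6
          have h7 : w ∈ X \ D := mem_sdiff.2 ⟨hw, h6⟩
          rw [huvD, mem_insert, mem_singleton] at h7
          exact h7.elim hwu hwv
        apply h5 w hwD
        refine sm_mono ?_ hsm
        intro x hx
        rw [mem_erase] at hx
        rw [mem_sdiff, mem_insert, mem_insert, mem_singleton]
        refine ⟨hDX hx.2, ?_⟩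
        rintro (h6 | h6 | h6)
        · exact (mem_sdiff.1 mu).2 (h6 ▸ hx.2)
        · exact (mem_sdiff.1 mv).2 (h6 ▸ hx.2)
        · exact hx.1 h6
    · rintro ⟨p, q, hpq, rfl⟩
      rw [hset, h.circuit_iff (by norm_num)]
      have hl := hline p q hpq
      refine ⟨(Finset.coe_subset.2 sdiff_subset).trans hX.1, Or.inl ⟨?_, ?_⟩⟩
      · have := sdiff_val_card ({pt p, pt q, pt (- p - q)} : Finset X)
        rw [hL3 _ hl, hX.2.1] at this
        omega
      · exact (hS.tri _ (hL3 _ hl)).2 hl

end Pool.Agent.helper25.PV
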