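import Pool.Agent.helper25.PV.Good

set_option autoImplicit false
set_option linter.unusedSectionVars false
set_option linter.unusedVariables false

/-!
# Project PV: a set of `r + 3` elements with a hyperplane of `r + 1` elements
-/

namespace Pool.Agent.helper25.PV

open Finset Pool.Agent.helper9.HB49

variable {α : Type*} [DecidableEq α] {M : Matroid α} [M.Finite] {r : ℕ}

theorem sdiff_val_card' {W X : Finset α} (hWX : W ⊆ X) (L : Finset W) :
    (X \ L.image Subtype.val).card + L.card = X.card := by
  have h1 : L.image Subtype.val ⊆ X := (image_val_subset L).trans hWX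
  rw [card_sdiff_of_subset h1, image_val_card]
  have := card_le_card h1
  rw [image_val_card] at this
  omega

theorem Pv.bad (h : Pv M r) (hH : CircuitsHilbert M) (hr0 : 0 < r) {X : Finset α}
    (hX : (X : Set α) ⊆ M.E) (hc : X.card = r + 3) {u v0 : α} (hu : u ∈ X) (hv : v0 ∈ X)
    (huv : u ≠ v0) (hY : sm M r (X \ {u, v0})) (k1 : ¬ sm M r (X.erase v0))
    (k2 : ¬ sm M r (X.erase u)) :
    ∃ S : LS (X.erase v0 : Finset α), HP S (eS S) ∧
      (∀ w, w ≠ ⟨u, mem_erase.2 ⟨huv, hu⟩⟩ → (S.ln ⟨u, mem_erase.2 ⟨huv, hu⟩⟩ w).card = 2) ∧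
      ∀ t : Finset (X.erase v0 : Finset α), t.card = 3 → ⟨u, mem_erase.2 ⟨huv, hu⟩⟩ ∉ t →
        sm M r (X \ t.image Subtype.val) → t ∈ S.lines := by
  classical
  set W : Finset α := X.erase v0 with hW
  have hWX : W ⊆ X := erase_subset _ _
  set o : W := ⟨u, mem_erase.2 ⟨huv, hu⟩⟩ with ho
  have hYE : ((X \ {u, v0} : Finset α) : Set α) ⊆ M.E :=
    (Finset.coe_subset.2 sdiff_subset).trans hX
  have hcY : (X \ {u, v0}).card = r + 1 := by
    rw [card_sdiff_of_subset, card_pair huv]
    · omega
    · intro z hz
      simp only [mem_insert, mem_singleton] at hz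
      rcases hz with rfl | rfl
      · exact hu
      · exact hv
  -- a small set meeting `Y` in `r - 1` elements and containing `u` or `v0`
  have key : ∀ D : Finset α, sm M r D → r ≤ ((X \ {u, v0}) ∩ D).card + 1 → u ∉ D ∧ v0 ∉ D := by
    intro D hD hcard
    have h1 := h.sm_union hYE hY hD hcard
    constructor
    · intro h2
      apply k1
      refine sm_mono ?_ h1
      intro z hz
      rw [hW, mem_erase] at hz
      rw [mem_union, mem_sdiff, mem_insert, mem_singleton]
      by_cases h3 : z = u
      · right; rw [h3]; exact h2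
      · left; exact ⟨hz.2, fun h4 => h4.elim h3 hz.1⟩
    · intro h2
      apply k2
      refine sm_mono ?_ h1
      intro z hz
      rw [mem_erase] at hz
      rw [mem_union, mem_sdiff, mem_insert, mem_singleton]
      by_cases h3 : z = v0
      · right; rw [h3]; exact h2
      · left; exact ⟨hz.2, fun h4 => h4.elim hz.1 h3⟩
  -- two points other than `o`
  have hfour : ∀ x y : W, x ≠ y → x ≠ o → y ≠ o →
      (X \ {u, v0} : Finset α).card ≤ ((X \ {u, v0}) ∩ (X \ ({x, y} : Finset W).image
        Subtype.val)).card + 2 := by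
    intro x y hxy hx hy
    have h1 : (X \ {u, v0}) ∩ (X \ ({x, y} : Finset W).image Subtype.val) =
        (X \ {u, v0}) \ ({x, y} : Finset W).image Subtype.val := by
      ext z
      simp only [mem_inter, mem_sdiff]
      tauto
    rw [h1]
    have h2 := le_card_sdiff (({x, y} : Finset W).image Subtype.val) (X \ {u, v0})
    have h3 : (({x, y} : Finset W).image Subtype.val).card = 2 := by
      rw [image_val_card, card_pair hxy]
    omega
  set T : Finset W → Prop := fun t => t.card = 3 ∧ o ∉ t ∧ sm M r (X \ t.image Subtype.val)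
    with hT
  have h3 : ∀ t, T t → t.card = 3 := fun t ht => ht.1
  have hu' : ∀ t t', T t → T t' → ∀ x y, x ≠ y → x ∈ t → y ∈ t → x ∈ t' → y ∈ t' → t = t' := by
    intro t t' ht ht' x y hxy h1 h2 h4 h5
    by_contra hne
    obtain ⟨h6, h7⟩ := two_common ht.1 ht'.1 hxy h1 h2 h4 h5 hne
    have h8 : sm M r ((X \ t.image Subtype.val) ∪ (X \ t'.image Subtype.val)) := by
      apply h.sm_union _ ht.2.2 ht'.2.2
      · have h9 : (X \ t.image Subtype.val) ∩ (X \ t'.image Subtype.val) =
            X \ (t ∪ t').image Subtype.val := by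
          rw [image_union, ← sdiff_union_distrib]
        rw [h9]
        have := sdiff_val_card' hWX (t ∪ t')
        omega
      · exact (Finset.coe_subset.2 sdiff_subset).trans hX
    have h9 : X \ ({x, y} : Finset W).image Subtype.val ⊆
        (X \ t.image Subtype.val) ∪ (X \ t'.image Subtype.val) := by
      intro z hz
      rw [mem_sdiff] at hz
      rw [mem_union, mem_sdiff, mem_sdiff]
      by_contra h9
      apply hz.2
      rw [← h6]
      have h10 : z ∈ t.image Subtype.val ∧ z ∈ t'.image Subtype.val := by
        have := hz.1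
        clear * - h9 this
        tauto
      obtain ⟨w, hw, rfl⟩ := mem_image.1 h10.1
      rw [mem_image_val w.2] at h10
      exact mem_image_of_mem _ (mem_inter.2 ⟨hw, (mem_image_val w.2).1 h10.2⟩)
    have hxo : x ≠ o := fun h10 => ht.2.1 (h10 ▸ h1)
    have hyo : y ≠ o := fun h10 => ht.2.1 (h10 ▸ h2)
    have h10 := key _ (sm_mono h9 h8) (by have := hfour x y hxy hxo hyo; omega)
    apply h10.1
    rw [mem_sdiff]
    refine ⟨hu, ?_⟩
    rw [mem_image]
    rintro ⟨w, hw, hwu⟩
    have h11 : w = o := Subtype.ext hwu
    rw [h11, mem_insert, mem_singleton] at hw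
    rcases hw with hw | hw
    · exact hxo hw.symm
    · exact hyo hw.symm
  set π : α → W := fun x => if hx : x ∈ W then ⟨x, hx⟩ else o with hπ
  have hπx : ∀ x (hx : x ∈ W), π x = ⟨x, hx⟩ := fun x hx => dif_pos hx
  have hπv : π v0 = o := dif_neg (by rw [hW]; exact notMem_erase _ _)
  have hXW : ∀ x ∈ X, x ≠ v0 → x ∈ W := fun x hx hne => mem_erase.2 ⟨hne, hx⟩
  have hfil1 : ∀ L : Finset W, o ∉ L → (X.filter fun x => π x ∉ L) = X \ L.image Subtype.val := by
    intro L hL
    ext x
    rw [mem_filter, mem_sdiff]
    apply and_congr_right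
    intro hx
    by_cases hxv : x = v0
    · rw [hxv, hπv]
      refine ⟨fun _ h1 => ?_, fun _ => hL⟩
      obtain ⟨w, -, hw⟩ := mem_image.1 h1
      have := w.2
      rw [hw] at this
      exact notMem_erase _ _ this
    · rw [mem_image_val (hXW x hx hxv), ← hπx x (hXW x hx hxv)]
  have hfil2 : ∀ L : Finset W, o ∈ L →
      (X.filter fun x => π x ∉ L) = (X \ L.image Subtype.val).erase v0 := by
    intro L hL
    ext x
    rw [mem_filter, mem_erase, mem_sdiff]
    by_cases hxv : x = v0
    · rw [hxv, hπv]
      simp [hL]
    · constructor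
      · rintro ⟨hx, h1⟩
        rw [mem_image_val (hXW x hx hxv), ← hπx x (hXW x hx hxv)]
        exact ⟨hxv, hx, h1⟩
      · rintro ⟨-, hx, h1⟩
        rw [mem_image_val (hXW x hx hxv), ← hπx x (hXW x hx hxv)] at h1
        exact ⟨hx, h1⟩
  have hoT : ∀ w, ¬ ∃ t, T t ∧ o ∈ t ∧ w ∈ t := by
    rintro w ⟨t, ht, h1, -⟩
    exact ht.2.1 h1
  refine ⟨ofT T h3 hu', ?_, ?_, fun t ht1 ht2 ht3 => ofT_mem ⟨ht1, ht2, ht3⟩⟩
  swap
  · intro w hw
    rw [ofT_ln_of_not (hoT w), card_pair hw.symm]
  apply bridge hH (ofT T h3 hu') X π
  · intro v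
    exact ⟨v, hWX v.2, hπx v v.2⟩
  · intro L hL
    rcases ofT_lines hL with h2 | ⟨x, y, hxy, rfl, h2⟩
    · rw [hfil1 L h2.2.1, h.circuit_iff hr0]
      refine ⟨(Finset.coe_subset.2 sdiff_subset).trans hX, Or.inl ⟨?_, h2.2.2⟩⟩
      have := sdiff_val_card' hWX L
      have := h2.1
      omega
    · have hcL := sdiff_val_card' hWX ({x, y} : Finset W)
      rw [card_pair hxy] at hcL
      by_cases hoL : o ∈ ({x, y} : Finset W)
      · rw [hfil2 _ hoL, h.circuit_iff hr0]
        have hvm : v0 ∈ X \ ({x, y} : Finset W).image Subtype.val := by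
          rw [mem_sdiff]
          refine ⟨hv, fun h1 => ?_⟩
          obtain ⟨w, -, hw⟩ := mem_image.1 h1
          have := w.2
          rw [hw] at this
          exact notMem_erase _ _ this
        refine ⟨(Finset.coe_subset.2 ((erase_subset _ _).trans sdiff_subset)).trans hX,
          Or.inl ⟨?_, ?_⟩⟩
        · rw [card_erase_of_mem hvm]
          omega
        · refine sm_mono ?_ hY
          intro z hz
          rw [mem_erase, mem_sdiff] at hz
          rw [mem_sdiff, mem_insert, mem_singleton]
          refine ⟨hz.2.1, ?_⟩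
          rintro (h1 | h1)
          · apply hz.2.2
            rw [h1]
            exact mem_image.2 ⟨o, hoL, rfl⟩
          · exact hz.1 h1
      · rw [hfil1 _ hoL, h.circuit_iff hr0]
        refine ⟨(Finset.coe_subset.2 sdiff_subset).trans hX, Or.inr ⟨by omega, ?_⟩⟩
        intro z hz hsm
        have hxo : x ≠ o := fun h10 => hoL (by simp [h10])
        have hyo : y ≠ o := fun h10 => hoL (by simp [h10])
        have hf := hfour x y hxy hxo hyo
        have huX : u ∈ X \ ({x, y} : Finset W).image Subtype.val := by
          rw [mem_sdiff]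
          refine ⟨hu, fun h1 => hoL ?_⟩
          obtain ⟨w, hw1, hw⟩ := mem_image.1 h1
          have h11 : w = o := Subtype.ext hw
          rw [← h11]
          exact hw1
        have hvX : v0 ∈ X \ ({x, y} : Finset W).image Subtype.val := by
          rw [mem_sdiff]
          refine ⟨hv, fun h1 => ?_⟩
          obtain ⟨w, -, hw⟩ := mem_image.1 h1
          have := w.2
          rw [hw] at this
          exact notMem_erase _ _ this
        have hint : ∀ a, a = u ∨ a = v0 →
            (X \ {u, v0}) ∩ ((X \ ({x, y} : Finset W).image Subtype.val).erase a) =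
            (X \ {u, v0}) ∩ (X \ ({x, y} : Finset W).image Subtype.val) := by
          intro a ha
          ext w
          simp only [mem_inter, mem_erase, mem_sdiff, mem_insert, mem_singleton]
          constructor
          · rintro ⟨h1, h4, h5⟩
            exact ⟨h1, h5⟩
          · rintro ⟨h1, h5⟩
            refine ⟨h1, ?_, h5⟩
            rintro rfl
            exact h1.2 ha
        by_cases hzv : z = v0
        · have h10 := key _ hsm (by rw [hint z (Or.inr hzv)]; omega)
          exact h10.1 (mem_erase.2 ⟨fun h11 => huv (h11.trans hzv), huX⟩)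
        by_cases hzu : z = u
        · have h10 := key _ hsm (by rw [hint z (Or.inl hzu)]; omega)
          exact h10.2 (mem_erase.2 ⟨fun h11 => huv (hzu.symm.trans h11.symm), hvX⟩)
        have hz' := mem_sdiff.1 hz
        have hzW : z ∈ W := hXW z hz'.1 hzv
        rw [mem_image_val hzW] at hz'
        apply h2
        refine ⟨insert ⟨z, hzW⟩ {x, y}, ⟨?_, ?_, ?_⟩, by simp, by simp⟩
        · rw [card_insert_of_notMem hz'.2, card_pair hxy]
        · rw [mem_insert, not_or]
          exact ⟨fun h11 => hzu (congrArg Subtype.val h11).symm, hoL⟩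
        · rw [image_insert, sdiff_insert]
          exact hsm
  · intro D hD hDc
    rw [h.circuit_iff hr0] at hDc
    set L : Finset W := univ.filter fun v : W => (v : α) ∉ D with hL
    have hLm : ∀ x (hx : x ∈ W), x ∈ L.image Subtype.val ↔ x ∉ D := by
      intro x hx
      rw [mem_image_val hx, hL, mem_filter]
      exact ⟨fun h1 => h1.2, fun h1 => ⟨mem_univ _, h1⟩⟩
    have hvL : v0 ∉ L.image Subtype.val := by
      intro h1
      obtain ⟨w, -, hw⟩ := mem_image.1 h1
      have := w.2
      rw [hw] at this
      exact notMem_erase _ _ this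
    have hoL : o ∈ L ↔ u ∉ D := by
      rw [hL, mem_filter]
      exact ⟨fun h1 => h1.2, fun h1 => ⟨mem_univ _, h1⟩⟩
    have hcL := sdiff_val_card' hWX L
    -- both `u` and `v0` or none of them
    have huvD : (u ∈ D ∧ v0 ∈ D) ∨ (u ∉ D ∧ v0 ∉ D) := by
      by_contra hcon
      have hone : ∀ a b, a ∈ D → b ∉ D → ({u, v0} : Finset α) = {a, b} → False := by
        intro a b ha hb hab
        have hsub : D.erase a ⊆ X \ {u, v0} := by
          intro z hz
          rw [mem_erase] at hz
          rw [mem_sdiff, hab, mem_insert, mem_singleton]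
          refine ⟨hD hz.2, ?_⟩
          rintro (h1 | h1)
          · exact hz.1 h1
          · exact hb (h1 ▸ hz.2)
        rcases hDc.2 with ⟨h4, h5⟩ | ⟨h4, h5⟩
        · have h6 : D.erase a ⊆ (X \ {u, v0}) ∩ D := subset_inter hsub (erase_subset _ _)
          have h7 := card_le_card h6
          rw [card_erase_of_mem ha] at h7
          have h8 := key D h5 (by omega)
          have h9 : a ∈ ({u, v0} : Finset α) := by rw [hab]; simp
          simp only [mem_insert, mem_singleton] at h9
          rcases h9 with h9 | h9
          · exact h8.1 (h9 ▸ ha)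
          · exact h8.2 (h9 ▸ ha)
        · exact h5 a ha (sm_mono hsub hY)
      by_cases h1 : u ∈ D
      · by_cases h2 : v0 ∈ D
        · exact hcon (Or.inl ⟨h1, h2⟩)
        · exact hone u v0 h1 h2 rfl
      · by_cases h2 : v0 ∈ D
        · exact hone v0 u h2 h1 (pair_comm _ _)
        · exact hcon (Or.inr ⟨h1, h2⟩)
    rcases huvD with ⟨huD, hvD⟩ | ⟨huD, hvD⟩
    · have h1 : D = X \ L.image Subtype.val := by
        ext x
        rw [mem_sdiff]
        by_cases hxv : x = v0
        · rw [hxv]
          exact ⟨fun _ => ⟨hv, hvL⟩, fun _ => hvD⟩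
        · constructor
          · intro hx
            refine ⟨hD hx, ?_⟩
            rw [hLm x (hXW x (hD hx) hxv), not_not]
            exact hx
          · rintro ⟨hx, h2⟩
            rwa [hLm x (hXW x hx hxv), not_not] at h2
      have hoL' : o ∉ L := fun h2 => (hoL.1 h2) huD
      refine ⟨L, ?_, by rw [hfil1 L hoL']; exact h1⟩
      rw [← h1] at hcL
      rcases hDc.2 with ⟨h4, h5⟩ | ⟨h4, h5⟩
      · exact ofT_mem ⟨by omega, hoL', by rw [← h1]; exact h5⟩
      · obtain ⟨x, y, hxy, hLe⟩ := card_eq_two.1 (by omega : L.card = 2)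
        rw [hLe]
        apply ofT_pair hxy
        rintro ⟨t, ht, hx, hy⟩
        obtain ⟨z, hz, hzxy⟩ : ∃ z ∈ t, z ∉ ({x, y} : Finset W) := by
          by_contra h6
          push Not at h6
          have h7 := card_le_card (show t ⊆ {x, y} from h6)
          rw [ht.1, card_pair hxy] at h7
          omega
        have hzD : (z : α) ∈ D := by
          by_contra h6
          apply hzxy
          rw [← hLe, hL, mem_filter]
          exact ⟨mem_univ _, h6⟩
        apply h5 z hzD
        have h6 : t = insert z {x, y} := by
          symm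
          apply eq_of_subset_of_card_le
          · intro w hw
            simp only [mem_insert, mem_singleton] at hw
            rcases hw with rfl | rfl | rfl
            · exact hz
            · exact hx
            · exact hy
          · rw [ht.1, card_insert_of_notMem hzxy, card_pair hxy]
        have h7 := ht.2.2
        rw [h6, image_insert, sdiff_insert, ← hLe, ← h1] at h7
        exact h7
    · have hoL' : o ∈ L := hoL.2 huD
      have h1 : D = (X \ L.image Subtype.val).erase v0 := by
        ext x
        rw [mem_erase, mem_sdiff]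
        constructor
        · intro hx
          have hxv : x ≠ v0 := fun h1 => hvD (h1 ▸ hx)
          refine ⟨hxv, hD hx, ?_⟩
          rw [hLm x (hXW x (hD hx) hxv), not_not]
          exact hx
        · rintro ⟨hxv, hx, h2⟩
          rwa [hLm x (hXW x hx hxv), not_not] at h2
      have hDY : D ⊆ X \ {u, v0} := by
        intro z hz
        rw [mem_sdiff, mem_insert, mem_singleton]
        refine ⟨hD hz, ?_⟩
        rintro (h2 | h2)
        · exact huD (h2 ▸ hz)
        · exact hvD (h2 ▸ hz)
      refine ⟨L, ?_, by rw [hfil2 L hoL']; exact h1⟩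
      have h4 : v0 ∈ X \ L.image Subtype.val := mem_sdiff.2 ⟨hv, hvL⟩
      have h5 := card_erase_of_mem h4
      rw [← h1] at h5
      rcases hDc.2 with ⟨h6, h7⟩ | ⟨h6, h7⟩
      · obtain ⟨y, hy, hyo⟩ : ∃ y ∈ L, y ≠ o := by
          apply exists_mem_ne
          omega
        have hLe : L = {o, y} := by
          symm
          apply eq_of_subset_of_card_le
          · intro w hw
            simp only [mem_insert, mem_singleton] at hw
            rcases hw with rfl | rfl
            · exact hoL'
            · exact hy
          · rw [card_pair hyo.symm]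
            omega
        rw [hLe]
        exact ofT_pair hyo.symm (hoT y)
      · exfalso
        obtain ⟨z, hz⟩ : D.Nonempty := card_pos.1 (by omega)
        exact h7 z hz (sm_mono ((erase_subset _ _).trans hDY) hY)

end Pool.Agent.helper25.PV
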