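import Pool.Agent.helper25.PV.Core
import Pool.Agent.helper9.HB49.Suff

set_option autoImplicit false
set_option linter.unusedSectionVars false
set_option linter.unusedVariables false

/-!
# Project PV: linear spaces from triples, and the bridge to matroids
-/

namespace Pool.Agent.helper25.PV

open Finset Pool.Agent.helper9.HB49

section triples

variable {V : Type*} [Fintype V] [DecidableEq V]

open Classical in
/-- the linear space whose lines are the sets of `T` (of three points) and the pairs in no set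
of `T` -/
noncomputable def ofT (T : Finset V → Prop) (h3 : ∀ t, T t → t.card = 3)
    (hu : ∀ t t', T t → T t' → ∀ x y, x ≠ y → x ∈ t → y ∈ t → x ∈ t' → y ∈ t' → t = t') :
    LS V where
  ln x y := if h : ∃ t, T t ∧ x ∈ t ∧ y ∈ t then h.choose else {x, y}
  left := by
    intro x y _
    split_ifs with h
    · exact h.choose_spec.2.1
    · simp
  right := by
    intro x y _
    split_ifs with h
    · exact h.choose_spec.2.2
    · simp
  uniq := by
    intro x y u v hxy huv hu' hv'
    by_cases h : ∃ t, T t ∧ x ∈ t ∧ y ∈ t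
    · rw [dif_pos h] at hu' hv' ⊢
      have h1 : ∃ t, T t ∧ u ∈ t ∧ v ∈ t := ⟨h.choose, h.choose_spec.1, hu', hv'⟩
      rw [dif_pos h1]
      exact hu _ _ h1.choose_spec.1 h.choose_spec.1 u v huv h1.choose_spec.2.1
        h1.choose_spec.2.2 hu' hv'
    · rw [dif_neg h] at hu' hv' ⊢
      have h2 : ({u, v} : Finset V) = {x, y} := by
        apply eq_of_subset_of_card_le
        · intro z hz
          simp only [mem_insert, mem_singleton] at hz
          rcases hz with rfl | rfl
          · exact hu'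
          · exact hv'
        · rw [card_pair hxy, card_pair huv]
      have h1 : ¬ ∃ t, T t ∧ u ∈ t ∧ v ∈ t := by
        rintro ⟨t, h3, h4, h5⟩
        apply h
        have h6 : ({x, y} : Finset V) ⊆ t := by
          rw [← h2]
          intro z hz
          simp only [mem_insert, mem_singleton] at hz
          rcases hz with rfl | rfl
          · exact h4
          · exact h5
        exact ⟨t, h3, h6 (by simp), h6 (by simp)⟩
      rw [dif_neg h1, h2]
  card_le := by
    intro x y _
    split_ifs with h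
    · exact (h3 _ h.choose_spec.1).le
    · exact card_le_two.trans (by norm_num)

variable {T : Finset V → Prop} {h3 : ∀ t, T t → t.card = 3}
    {hu : ∀ t t', T t → T t' → ∀ x y, x ≠ y → x ∈ t → y ∈ t → x ∈ t' → y ∈ t' → t = t'}

theorem ofT_ln_of {t : Finset V} (ht : T t) {x y : V} (hxy : x ≠ y) (hx : x ∈ t) (hy : y ∈ t) :
    (ofT T h3 hu).ln x y = t := by
  have h : ∃ t, T t ∧ x ∈ t ∧ y ∈ t := ⟨t, ht, hx, hy⟩
  simp only [ofT]
  rw [dif_pos h]
  exact hu _ _ h.choose_spec.1 ht x y hxy h.choose_spec.2.1 h.choose_spec.2.2 hx hy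

theorem ofT_ln_of_not {x y : V} (h : ¬ ∃ t, T t ∧ x ∈ t ∧ y ∈ t) :
    (ofT T h3 hu).ln x y = {x, y} := by
  simp only [ofT]
  rw [dif_neg h]

theorem ofT_mem {t : Finset V} (ht : T t) : t ∈ (ofT T h3 hu).lines := by
  obtain ⟨x, hx, y, hy, hxy⟩ := one_lt_card.1 (by rw [h3 t ht]; norm_num : 1 < t.card)
  exact LS.mem_lines.2 ⟨x, y, hxy, ofT_ln_of ht hxy hx hy⟩

theorem ofT_lines {L : Finset V} (hL : L ∈ (ofT T h3 hu).lines) :
    T L ∨ ∃ x y, x ≠ y ∧ L = {x, y} ∧ ¬ ∃ t, T t ∧ x ∈ t ∧ y ∈ t := by
  obtain ⟨x, y, hxy, rfl⟩ := LS.mem_lines.1 hL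
  by_cases h : ∃ t, T t ∧ x ∈ t ∧ y ∈ t
  · left
    obtain ⟨t, h4, h5, h6⟩ := h
    rw [ofT_ln_of h4 hxy h5 h6]
    exact h4
  · right
    exact ⟨x, y, hxy, ofT_ln_of_not h, h⟩

theorem ofT_pair {x y : V} (hxy : x ≠ y) (h : ¬ ∃ t, T t ∧ x ∈ t ∧ y ∈ t) :
    {x, y} ∈ (ofT T h3 hu).lines :=
  LS.mem_lines.2 ⟨x, y, hxy, ofT_ln_of_not h⟩

end triples

section bridge

variable {V : Type*} [Fintype V] [DecidableEq V]

/-- the lattice of the complements of lines -/
def Lam (S : LS V) : AddSubgroup (V → ℤ) :=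
  AddSubgroup.closure {g | ∃ L ∈ S.lines, g = fun y => if y ∈ L then 0 else 1}

/-- the quotient by the lattice of the complements of lines -/
def AS (S : LS V) : Type _ := (V → ℤ) ⧸ Lam S

instance (S : LS V) : AddCommGroup (AS S) := inferInstanceAs (AddCommGroup ((V → ℤ) ⧸ Lam S))

/-- the quotient map -/
def mkS (S : LS V) : (V → ℤ) →+ AS S := QuotientAddGroup.mk' (Lam S)

theorem mkS_eq_zero {S : LS V} {g : V → ℤ} : mkS S g = 0 ↔ g ∈ Lam S :=
  QuotientAddGroup.eq_zero_iff g

/-- the classes of the points -/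
def eS (S : LS V) (v : V) : AS S := mkS S (Pi.single v 1)

theorem eS_sum (S : LS V) (g : V → ℤ) : ∑ y, g y • eS S y = mkS S g := by
  nth_rewrite 2 [← Finset.univ_sum_single g]
  rw [map_sum]
  refine sum_congr rfl fun y _ => ?_
  rw [eS, ← map_zsmul]
  congr 1
  funext z
  simp only [Pi.smul_apply, Pi.single_apply, smul_eq_mul]
  split_ifs <;> simp

variable {α : Type*} [DecidableEq α] {M : Matroid α}

/-- the vector on the ground set -/
def lift (X : Finset α) (π : α → V) (g : V → ℤ) : α → ℤ := fun x => if x ∈ X then g (π x) else 0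

theorem lift_line (X : Finset α) (π : α → V) (L : Finset V) :
    lift X π (fun y => if y ∈ L then 0 else 1) =
      chi ℤ ((X.filter fun x => π x ∉ L : Finset α) : Set α) := by
  classical
  funext x
  rw [chi_apply, lift]
  by_cases h3 : x ∈ X
  · by_cases h4 : π x ∈ L <;> simp [h3, h4]
  · simp [h3]

/-- relations of the linear space are relations of the matroid -/
theorem bridge_lat (S : LS V) (X : Finset α) (π : α → V)
    (h1 : ∀ L ∈ S.lines, M.IsCircuit ((X.filter fun x => π x ∉ L : Finset α) : Set α))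
    {g : V → ℤ} (hg : ∑ y, g y • eS S y = 0) : lift X π g ∈ Lat M := by
  have hgΛ : g ∈ Lam S := by
    rwa [eS_sum, mkS_eq_zero] at hg
  clear hg
  rw [Lam] at hgΛ
  induction hgΛ using AddSubgroup.closure_induction with
  | mem v hv =>
    obtain ⟨L, hL, rfl⟩ := hv
    rw [lift_line]
    exact chi_mem_lat (h1 L hL)
  | zero =>
    have : lift X π (0 : V → ℤ) = 0 := by
      funext x; simp [lift]
    rw [this]
    exact zero_mem _
  | add v w _ _ h3 h4 =>
    have : lift X π (v + w) = lift X π v + lift X π w := by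
      funext x
      simp only [lift, Pi.add_apply]
      split_ifs <;> simp
    rw [this]
    exact add_mem h3 h4
  | neg v _ h3 =>
    have : lift X π (-v) = - lift X π v := by
      funext x
      simp only [lift, Pi.neg_apply]
      split_ifs <;> simp
    rw [this]
    exact neg_mem h3

/-- vectors of the cone in the lattice of the matroid decompose -/
theorem bridge_dec (hH : CircuitsHilbert M) (S : LS V)
    (X : Finset α) (π : α → V) (hsurj : ∀ v, ∃ x ∈ X, π x = v)
    (h1 : ∀ L ∈ S.lines, M.IsCircuit ((X.filter fun x => π x ∉ L : Finset α) : Set α))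
    (h2 : ∀ D : Finset α, D ⊆ X → M.IsCircuit (D : Set α) →
      ∃ L ∈ S.lines, D = X.filter fun x => π x ∉ L) {g : V → ℤ} (hlat : lift X π g ∈ Lat M)
    (hcone : S.ConeP g) : ∃ lam, S.Dec g lam := by
  have hco : (fun x => ((lift X π g x : ℤ) : ℚ)) ∈ Cone M := by
    obtain ⟨μ, hμ0, hμ⟩ := hcone
    have h3 : (fun x => ((lift X π g x : ℤ) : ℚ)) = ∑ L ∈ S.lines,
        (μ L).toNNRat • chi ℚ ((X.filter fun x => π x ∉ L : Finset α) : Set α) := by
      funext x
      rw [Finset.sum_apply]
      have h4 : ∀ L ∈ S.lines, ((μ L).toNNRat •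
          chi ℚ ((X.filter fun x => π x ∉ L : Finset α) : Set α)) x =
          if x ∈ X then (if π x ∈ L then 0 else μ L) else 0 := by
        intro L hL
        rw [Pi.smul_apply, NNRat.smul_def, Rat.coe_toNNRat _ (hμ0 L), ← cast_chi, ← lift_line,
          lift]
        split_ifs <;> simp
      rw [sum_congr rfl h4]
      by_cases h5 : x ∈ X
      · simp only [lift, if_pos h5]
        exact hμ (π x)
      · simp [lift, if_neg h5]
    rw [h3]
    exact sum_mem fun L hL => Submodule.smul_mem _ _ (chi_mem_cone (h1 L hL))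
  have hint := (hilbert_iff.1 hH) _ hlat hco
  -- decomposition
  have hind : ∀ q ∈ IntCone M, (∀ x, 0 ≤ q x) ∧ ((∀ x ∉ X, q x = 0) →
      ∃ lam : Finset V → ℕ, ∀ x ∈ X, q x = ∑ L ∈ S.lines, if π x ∈ L then 0 else (lam L : ℤ)) := by
    classical
    intro q hq
    induction hq using AddSubmonoid.closure_induction with
    | mem v hv =>
      obtain ⟨C, hC, rfl⟩ := hv
      refine ⟨fun x => ?_, fun h0 => ?_⟩
      · rw [chi_apply]; split_ifs <;> simp
      · have hCX : C ⊆ X := by
          intro x hx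
          by_contra h3
          have := h0 x h3
          rw [chi_apply_mem hx] at this
          exact one_ne_zero this
        obtain ⟨D, rfl⟩ : ∃ D : Finset α, C = D :=
          ⟨(X.finite_toSet.subset hCX).toFinset, by simp⟩
        obtain ⟨L, hL, hD⟩ := h2 D (Finset.coe_subset.1 hCX) hC
        refine ⟨fun L' => if L' = L then 1 else 0, fun x hx => ?_⟩
        rw [hD, ← lift_line, lift, if_pos hx, sum_eq_single L]
        · simp
        · intro L' _ hne
          simp [hne]
        · exact fun h3 => absurd hL h3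
    | zero => exact ⟨fun x => le_rfl, fun _ => ⟨fun _ => 0, fun x _ => by simp⟩⟩
    | add p q _ _ h3 h4 =>
      obtain ⟨h3, h5⟩ := h3
      obtain ⟨h4, h6⟩ := h4
      refine ⟨fun x => add_nonneg (h3 x) (h4 x), fun h0 => ?_⟩
      obtain ⟨l1, hl1⟩ := h5 fun x hx => by
        have a0 := h0 x hx
        have a1 := h3 x
        have a2 := h4 x
        simp only [Pi.add_apply] at a0
        omega
      obtain ⟨l2, hl2⟩ := h6 fun x hx => by
        have a0 := h0 x hx
        have a1 := h3 x
        have a2 := h4 x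
        simp only [Pi.add_apply] at a0
        omega
      refine ⟨fun L => l1 L + l2 L, fun x hx => ?_⟩
      rw [Pi.add_apply, hl1 x hx, hl2 x hx, ← sum_add_distrib]
      refine sum_congr rfl fun L _ => ?_
      split_ifs <;> simp
  obtain ⟨lam, hlam⟩ := (hind _ hint).2 fun x hx => by simp [lift, hx]
  refine ⟨lam, fun y => ?_⟩
  obtain ⟨x, hx, rfl⟩ := hsurj y
  have h3 := hlam x hx
  rw [lift, if_pos hx] at h3
  rw [h3, LS.thr, sum_filter, ← sum_add_distrib]
  refine sum_congr rfl fun L _ => ?_
  split_ifs <;> simp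

theorem bridge (hH : CircuitsHilbert M) (S : LS V)
    (X : Finset α) (π : α → V) (hsurj : ∀ v, ∃ x ∈ X, π x = v)
    (h1 : ∀ L ∈ S.lines, M.IsCircuit ((X.filter fun x => π x ∉ L : Finset α) : Set α))
    (h2 : ∀ D : Finset α, D ⊆ X → M.IsCircuit (D : Set α) →
      ∃ L ∈ S.lines, D = X.filter fun x => π x ∉ L) : HP S (eS S) := by
  constructor
  · intro L hL
    have h3 : ∑ y ∈ L, eS S y = ∑ y, (if y ∈ L then (1 : ℤ) else 0) • eS S y := by
      have h4 : ∀ y ∈ (univ : Finset V), (if y ∈ L then (1 : ℤ) else 0) • eS S y =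
          if y ∈ L then eS S y else 0 := by
        intro y _
        split_ifs <;> simp
      rw [sum_congr rfl h4, sum_ite_mem, univ_inter]
    have h5 : ∑ y, eS S y = ∑ y, (1 : ℤ) • eS S y := by simp
    rw [h3, h5, eS_sum, eS_sum]
    symm
    rw [← sub_eq_zero, ← map_sub, mkS_eq_zero]
    apply AddSubgroup.subset_closure
    refine ⟨L, hL, ?_⟩
    funext y
    simp only [Pi.sub_apply]
    split_ifs <;> simp
  · intro g hg hcone
    exact bridge_dec hH S X π hsurj h1 h2 (bridge_lat S X π h1 hg) hcone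

/-- a decomposition gives a relation -/
theorem HP.dec_sum {A : Type*} [AddCommGroup A] {S : LS V} {e : V → A} (h : HP S e)
    {g : V → ℤ} {lam : Finset V → ℕ} (hd : S.Dec g lam) : ∑ y, g y • e y = 0 := by
  have h1 : ∀ y ∈ (univ : Finset V), g y • e y =
      ∑ L ∈ S.lines, ((lam L : ℤ) • e y - if y ∈ L then (lam L : ℤ) • e y else 0) := by
    intro y _
    have h2 := hd y
    rw [sum_sub_distrib, ← sum_smul, ← h2, add_smul, LS.thr, ← sum_filter, sum_smul]
    abel
  rw [sum_congr rfl h1, sum_comm]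
  refine sum_eq_zero fun L hL => ?_
  rw [sum_sub_distrib, sum_ite_mem, univ_inter, ← smul_sum, ← smul_sum, h.rel L hL, sub_self]

end bridge

end Pool.Agent.helper25.PV
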