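import Pool.Agent.helper25.PV.No3

set_option autoImplicit false
set_option linter.unusedSectionVars false
set_option linter.unusedVariables false

/-!
# Project PV: the classification
-/

namespace Pool.Agent.helper25.PV

open Finset Pool.Agent.helper9.HB49

variable {α : Type*} [DecidableEq α] {M : Matroid α} [M.Finite] {r : ℕ}

/-- the circuits are the sets of `r + 1` elements -/
def TU (M : Matroid α) (r : ℕ) : Prop := ∀ C, M.IsCircuit C ↔ C ⊆ M.E ∧ C.ncard = r + 1

/-- the circuits are the sets of `r` elements avoiding `e` -/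
def TC (M : Matroid α) (r : ℕ) : Prop :=
  ∃ e ∈ M.E, ∀ C, M.IsCircuit C ↔ C ⊆ M.E \ {e} ∧ C.ncard = r

/-- the circuits are the sets of `r` elements avoiding `y` and `z`, and the sets of `r + 1`
elements containing `y` and `z` -/
def TS (M : Matroid α) (r : ℕ) : Prop :=
  ∃ y ∈ M.E, ∃ z ∈ M.E, y ≠ z ∧ ∀ C, M.IsCircuit C ↔
    (C ⊆ M.E \ {y, z} ∧ C.ncard = r) ∨ (C ⊆ M.E ∧ y ∈ C ∧ z ∈ C ∧ C.ncard = r + 1)

/-- the elements of the flat spanned by `C` -/
noncomputable def hyp (M : Matroid α) [M.Finite] (r : ℕ) (C : Finset α) : Finset α := by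
  classical
  exact M.ground_finite.toFinset.filter fun x => sm M r (insert x C)

theorem mem_hyp {C : Finset α} {x : α} : x ∈ hyp M r C ↔ x ∈ M.E ∧ sm M r (insert x C) := by
  classical
  simp [hyp]

theorem Pv.hyp_sm (h : Pv M r) {C : Finset α} (hC : (C : Set α) ⊆ M.E) (hCc : r ≤ C.card + 1)
    (hCs : sm M r C) : sm M r (C ∪ hyp M r C) := by
  classical
  have h1 : ∀ G ⊆ hyp M r C, sm M r (C ∪ G) := by
    intro G
    induction G using Finset.induction_on with
    | empty => intro _; rwa [union_empty]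
    | insert x G hx ih =>
      intro hG
      have h2 := ih ((subset_insert x G).trans hG)
      have h3 := (mem_hyp.1 (hG (mem_insert_self x G))).2
      have h4 := h.sm_union (Y := C ∪ G) (Y' := insert x C) (by
          intro z hz
          rw [mem_coe, mem_union] at hz
          rcases hz with hz | hz
          · exact hC hz
          · exact (mem_hyp.1 (hG (mem_insert_of_mem hz))).1) h2 h3 (by
          have : C ⊆ (C ∪ G) ∩ insert x C := subset_inter subset_union_left (subset_insert _ _)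
          have := card_le_card this
          omega)
      refine sm_mono ?_ h4
      intro z hz
      simp only [mem_union, mem_insert] at hz ⊢
      tauto
  exact h1 _ (Finset.Subset.refl _)

/-- a set spanned by an `r`-circuit contains all `r`-circuits -/
theorem Pv.all_in (h : Pv M r) (hno : ∀ X, ¬ Gd M r X) (hE : r + 3 ≤ M.E.ncard) {C : Finset α} (hC : (C : Set α) ⊆ M.E) (hCc : C.card = r)
    (hCs : sm M r C) :
    (M.ground_finite.toFinset \ hyp M r C).card ≤ 2 ∧ C ⊆ hyp M r C ∧ sm M r (hyp M r C) ∧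
    ∀ D : Finset α, (D : Set α) ⊆ M.E → D.card = r → sm M r D → D ⊆ hyp M r C := by
  classical
  set F := M.ground_finite.toFinset with hF
  have hFm : ∀ x, x ∈ F ↔ x ∈ M.E := fun x => by rw [hF]; simp
  have hFc : F.card = M.E.ncard := (Set.ncard_eq_toFinset_card _ _).symm
  have two : ∀ C : Finset α, (C : Set α) ⊆ M.E → C.card = r → sm M r C →
      (F \ hyp M r C).card ≤ 2 := by
    intro C hC hCc hCs
    by_contra hcon
    obtain ⟨a, b, c, ha, hb, hc, hab, hac, hbc⟩ := two_lt_card_iff.1 (by omega :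
      2 < (F \ hyp M r C).card)
    rw [mem_sdiff, mem_hyp, hFm] at ha hb hc
    have hoff : ∀ z, z ∈ M.E ∧ ¬ (z ∈ M.E ∧ sm M r (insert z C)) → z ∉ C := by
      intro z hz hzC
      apply hz.2
      rw [insert_eq_self.2 hzC]
      exact ⟨hz.1, hCs⟩
    have hdis : Disjoint C {a, b, c} := by
      rw [disjoint_right]
      intro z hz
      simp only [mem_insert, mem_singleton] at hz
      rcases hz with rfl | rfl | rfl
      · exact hoff _ ha
      · exact hoff _ hb
      · exact hoff _ hc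
    apply hno (C ∪ {a, b, c})
    refine ⟨?_, ?_, C, subset_union_left, hCc, hCs, ?_⟩
    · intro z hz
      rw [mem_coe, mem_union, mem_insert, mem_insert, mem_singleton] at hz
      rcases hz with hz | rfl | rfl | rfl
      · exact hC hz
      · exact ha.1
      · exact hb.1
      · exact hc.1
    · rw [card_union_of_disjoint hdis, hCc, card_insert_of_notMem (by simp [hab, hac]),
        card_pair hbc]
    · intro z hz hzC hsz
      rw [mem_union, mem_insert, mem_insert, mem_singleton] at hz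
      rcases hz with hz | rfl | rfl | rfl
      · exact hzC hz
      · exact ha.2 ⟨ha.1, hsz⟩
      · exact hb.2 ⟨hb.1, hsz⟩
      · exact hc.2 ⟨hc.1, hsz⟩
  have sub : ∀ C : Finset α, (C : Set α) ⊆ M.E → sm M r C → C ⊆ hyp M r C := by
    intro C hC hCs x hx
    rw [mem_hyp]
    exact ⟨hC hx, by rw [insert_eq_self.2 hx]; exact hCs⟩
  have hs : sm M r (hyp M r C) := sm_mono subset_union_right (h.hyp_sm hC (by omega) hCs)
  refine ⟨two C hC hCc hCs, sub C hC hCs, hs, ?_⟩
  intro D hD hDc hDs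
  have h1 := two C hC hCc hCs
  have h2 := two D hD hDc hDs
  have hs' : sm M r (hyp M r D) := sm_mono subset_union_right (h.hyp_sm hD (by omega) hDs)
  have h3 : F \ (hyp M r C ∩ hyp M r D) ⊆ (F \ hyp M r C) ∪ (F \ hyp M r D) := by
    intro z hz
    simp only [mem_sdiff, mem_inter, mem_union] at hz ⊢
    tauto
  have h4 := card_le_card h3
  have h7 := card_union_le (F \ hyp M r C) (F \ hyp M r D)
  have h8 := le_card_sdiff (hyp M r C ∩ hyp M r D) F
  have hE' : ((hyp M r C : Finset α) : Set α) ⊆ M.E := by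
    intro z hz
    exact (mem_hyp.1 (mem_coe.1 hz)).1
  have h9 := h.sm_union hE' hs hs' (by omega)
  intro z hz
  rw [mem_hyp]
  refine ⟨hD hz, sm_mono ?_ h9⟩
  intro w hw
  rw [mem_insert] at hw
  rw [mem_union]
  rcases hw with rfl | hw
  · exact Or.inr (sub D hD hDs hz)
  · exact Or.inl (sub C hC hCs hw)

/-- the classification, necessity -/
theorem Pv.classify (h : Pv M r) (hr0 : 0 < r) (hnoG : ∀ X, ¬ Gd M r X)
    (hE : r + 3 ≤ M.E.ncard) : TU M r ∨ TC M r ∨ TS M r := by
  classical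
  set F := M.ground_finite.toFinset with hF
  have hFm : ∀ x, x ∈ F ↔ x ∈ M.E := fun x => by rw [hF]; simp
  have hFc : F.card = M.E.ncard := (Set.ncard_eq_toFinset_card _ _).symm
  have hfin : ∀ C : Set α, C ⊆ M.E → ∃ D : Finset α, C = D := fun C hC =>
    ⟨(M.ground_finite.subset hC).toFinset, by simp⟩
  by_cases hno : ∃ C : Finset α, (C : Set α) ⊆ M.E ∧ C.card = r ∧ sm M r C
  swap
  · left
    push Not at hno
    intro C
    constructor
    · intro hC
      obtain ⟨D, rfl⟩ := hfin C hC.subset_ground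
      rw [h.circuit_iff (by omega)] at hC
      rw [Set.ncard_coe_finset]
      refine ⟨hC.1, ?_⟩
      rcases hC.2 with h1 | h1
      · exact absurd h1.2 (hno D hC.1 h1.1)
      · exact h1.1
    · rintro ⟨hCE, hCn⟩
      obtain ⟨D, rfl⟩ := hfin C hCE
      rw [Set.ncard_coe_finset] at hCn
      rw [h.circuit_iff (by omega)]
      refine ⟨hCE, Or.inr ⟨hCn, fun x hx => hno _ ?_ ?_⟩⟩
      · exact (Finset.coe_subset.2 (erase_subset _ _)).trans hCE
      · rw [card_erase_of_mem hx]; omega
  obtain ⟨C, hC, hCc, hCs⟩ := hno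
  obtain ⟨k1, k2, k3, k4⟩ := h.all_in hnoG hE hC hCc hCs
  rw [← hF] at k1
  set H := hyp M r C with hHdef
  have hHF : H ⊆ F := fun z hz => (hFm z).2 (mem_hyp.1 hz).1
  -- circuits
  have circ : ∀ D : Finset α, M.IsCircuit (D : Set α) ↔ (D : Set α) ⊆ M.E ∧
      ((D.card = r ∧ D ⊆ H) ∨ (D.card = r + 1 ∧ ∀ x ∈ D, ¬ D.erase x ⊆ H)) := by
    intro D
    rw [h.circuit_iff (by omega)]
    constructor
    · rintro ⟨hDE, ⟨h1, h2⟩ | ⟨h1, h2⟩⟩
      · exact ⟨hDE, Or.inl ⟨h1, k4 D hDE h1 h2⟩⟩
      · exact ⟨hDE, Or.inr ⟨h1, fun x hx h3 => h2 x hx (sm_mono h3 k3)⟩⟩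
    · rintro ⟨hDE, ⟨h1, h2⟩ | ⟨h1, h2⟩⟩
      · exact ⟨hDE, Or.inl ⟨h1, sm_mono h2 k3⟩⟩
      · refine ⟨hDE, Or.inr ⟨h1, fun x hx h3 => h2 x hx (k4 _ ?_ ?_ h3)⟩⟩
        · exact (Finset.coe_subset.2 (erase_subset _ _)).trans hDE
        · rw [card_erase_of_mem hx]; omega
  have hpos : 1 ≤ (F \ H).card := by
    by_contra h1
    have h2 : F \ H = ∅ := card_eq_zero.1 (by omega)
    have h3 : F ⊆ H := sdiff_eq_empty_iff_subset.1 h2
    have h4 := sm_mono h3 k3
    unfold sm at h4
    have h7 : (F : Set α) = M.E := by rw [hF]; simp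
    rw [h7] at h4
    have h8 : (rk M M.E : ℕ∞) = r := by rw [cast_rk, M.eRk_ground, h.rank]
    have h9 : rk M M.E = r := by exact_mod_cast h8
    omega
  have hcases : (F \ H).card = 1 ∨ (F \ H).card = 2 := by omega
  right
  rcases hcases with hc | hc
  · left
    obtain ⟨e, he⟩ := card_eq_one.1 hc
    have heF : e ∈ F \ H := by rw [he]; simp
    rw [mem_sdiff] at heF
    have hHe : ∀ x, x ∈ H ↔ x ∈ M.E ∧ x ≠ e := by
      intro x
      constructor
      · intro hx
        exact ⟨(hFm x).1 (hHF hx), fun h1 => heF.2 (h1 ▸ hx)⟩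
      · rintro ⟨hx, hxe⟩
        by_contra h1
        have h2 : x ∈ F \ H := mem_sdiff.2 ⟨(hFm x).2 hx, h1⟩
        rw [he, mem_singleton] at h2
        exact hxe h2
    refine ⟨e, (hFm e).1 heF.1, fun C' => ?_⟩
    constructor
    · intro hC'
      obtain ⟨D, rfl⟩ := hfin C' hC'.subset_ground
      rw [circ] at hC'
      rw [Set.ncard_coe_finset]
      rcases hC'.2 with ⟨h1, h2⟩ | ⟨h1, h2⟩
      · refine ⟨fun x hx => ?_, h1⟩
        have := (hHe x).1 (h2 hx)
        exact ⟨this.1, this.2⟩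
      · exfalso
        by_cases heD : e ∈ D
        · apply h2 e heD
          intro x hx
          rw [mem_erase] at hx
          exact (hHe x).2 ⟨hC'.1 hx.2, hx.1⟩
        · obtain ⟨x, hx⟩ : D.Nonempty := card_pos.1 (by omega)
          apply h2 x hx
          intro z hz
          rw [mem_erase] at hz
          exact (hHe z).2 ⟨hC'.1 hz.2, fun h3 => heD (h3 ▸ hz.2)⟩
    · rintro ⟨h1, h2⟩
      obtain ⟨D, rfl⟩ := hfin C' (h1.trans Set.sdiff_subset)
      rw [Set.ncard_coe_finset] at h2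
      rw [circ]
      refine ⟨h1.trans Set.sdiff_subset, Or.inl ⟨h2, fun x hx => ?_⟩⟩
      exact (hHe x).2 ⟨(h1 hx).1, (h1 hx).2⟩
  · right
    obtain ⟨y, z, hyz, he⟩ := card_eq_two.1 hc
    have hyF : y ∈ F \ H := by rw [he]; simp
    have hzF : z ∈ F \ H := by rw [he]; simp
    rw [mem_sdiff] at hyF hzF
    have hHe : ∀ x, x ∈ H ↔ x ∈ M.E ∧ x ≠ y ∧ x ≠ z := by
      intro x
      constructor
      · intro hx
        exact ⟨(hFm x).1 (hHF hx), fun h1 => hyF.2 (h1 ▸ hx), fun h1 => hzF.2 (h1 ▸ hx)⟩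
      · rintro ⟨hx, hxe⟩
        by_contra h1
        have h2 : x ∈ F \ H := mem_sdiff.2 ⟨(hFm x).2 hx, h1⟩
        rw [he, mem_insert, mem_singleton] at h2
        rcases h2 with h2 | h2
        · exact hxe.1 h2
        · exact hxe.2 h2
    refine ⟨y, (hFm y).1 hyF.1, z, (hFm z).1 hzF.1, hyz, fun C' => ?_⟩
    constructor
    · intro hC'
      obtain ⟨D, rfl⟩ := hfin C' hC'.subset_ground
      rw [circ] at hC'
      rw [Set.ncard_coe_finset]
      rcases hC'.2 with ⟨h1, h2⟩ | ⟨h1, h2⟩
      · left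
        refine ⟨fun x hx => ?_, h1⟩
        have := (hHe x).1 (h2 hx)
        exact ⟨this.1, by simp [this.2]⟩
      · right
        refine ⟨hC'.1, ?_, ?_, h1⟩
        · by_contra hyD
          by_cases hzD : z ∈ D
          · apply h2 z hzD
            intro x hx
            rw [mem_erase] at hx
            exact (hHe x).2 ⟨hC'.1 hx.2, fun h3 => hyD (h3 ▸ hx.2), hx.1⟩
          · obtain ⟨x, hx⟩ : D.Nonempty := card_pos.1 (by omega)
            apply h2 x hx
            intro w hw
            rw [mem_erase] at hw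
            exact (hHe w).2 ⟨hC'.1 hw.2, fun h3 => hyD (h3 ▸ hw.2), fun h3 => hzD (h3 ▸ hw.2)⟩
        · by_contra hzD
          by_cases hyD : y ∈ D
          · apply h2 y hyD
            intro x hx
            rw [mem_erase] at hx
            exact (hHe x).2 ⟨hC'.1 hx.2, hx.1, fun h3 => hzD (h3 ▸ hx.2)⟩
          · obtain ⟨x, hx⟩ : D.Nonempty := card_pos.1 (by omega)
            apply h2 x hx
            intro w hw
            rw [mem_erase] at hw
            exact (hHe w).2 ⟨hC'.1 hw.2, fun h3 => hyD (h3 ▸ hw.2), fun h3 => hzD (h3 ▸ hw.2)⟩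
    · rintro (⟨h1, h2⟩ | ⟨h1, h2, h3, h4⟩)
      · obtain ⟨D, rfl⟩ := hfin C' (h1.trans Set.sdiff_subset)
        rw [Set.ncard_coe_finset] at h2
        rw [circ]
        refine ⟨h1.trans Set.sdiff_subset, Or.inl ⟨h2, fun x hx => ?_⟩⟩
        have h3 := (h1 hx).2
        rw [Set.mem_insert_iff, Set.mem_singleton_iff, not_or] at h3
        exact (hHe x).2 ⟨(h1 hx).1, h3⟩
      · obtain ⟨D, rfl⟩ := hfin C' h1
        rw [Set.ncard_coe_finset] at h4
        rw [mem_coe] at h2 h3
        rw [circ]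
        refine ⟨h1, Or.inr ⟨h4, fun x hx hcon => ?_⟩⟩
        by_cases hxy : x = y
        · have := hcon (mem_erase.2 ⟨fun h5 => hyz (hxy.symm.trans h5.symm), h3⟩)
          exact hzF.2 this
        · have := hcon (mem_erase.2 ⟨Ne.symm hxy, h2⟩)
          exact hyF.2 this

end Pool.Agent.helper25.PV
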