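import Pool.Agent.helper25.PV.Free

set_option autoImplicit false
set_option linter.unusedSectionVars false
set_option linter.unusedVariables false

/-!
# Project PV: classes of points with the same image; no class of size two without a zero point
-/

namespace Pool.Agent.helper25.PV

open Finset

variable {V : Type*} [Fintype V] [DecidableEq V] {S : LS V}
variable {A : Type*} [AddCommGroup A] {e : V → A}

theorem HP.pair_eq (h : HP S e) {x y : V} (hxy : x ≠ y) (hc : (S.ln x y).card = 2) :
    e x + e y = ∑ y, e y := by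
  have h1 := h.rel _ (LS.ln_mem (S := S) hxy)
  rwa [LS.ln_eq_pair hxy hc, sum_pair hxy] at h1

theorem HP.third_sum (h : HP S e) {x y : V} (hxy : x ≠ y) (hc : (S.ln x y).card = 3) :
    e x + e y + e (S.th x y) = ∑ y, e y := by
  have h1 := h.rel _ (LS.ln_mem (S := S) hxy)
  have hs := LS.th_spec hxy hc
  rw [hs.2.2, sum_insert (by simp [hxy, hs.1.symm]), sum_pair hs.2.1.symm] at h1
  rw [← h1, add_assoc]

theorem HP.third_eq (h : HP S e) {x y : V} (hxy : x ≠ y) (hc : (S.ln x y).card = 3) :
    e (S.th x y) = (∑ y, e y) - e x - e y := by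
  rw [← h.third_sum hxy hc]; abel

theorem HP.card3 (h : HP S e) {x y : V} (hxy : x ≠ y) (hne : e x + e y ≠ ∑ y, e y) :
    (S.ln x y).card = 3 := by
  rcases LS.card_cases (S := S) hxy with h1 | h1
  · exact absurd (h.pair_eq hxy h1) hne
  · exact h1

theorem HP.order_ge (h : HP S e) (hn : 8 ≤ Fintype.card V) (x : V) :
    3 ≤ addOrderOf ((∑ y, e y) - e x) := by
  have := h.two_order (by omega) x
  omega

theorem HP.e_ne_tau (h : HP S e) (hn : 8 ≤ Fintype.card V) (x : V) : e x ≠ ∑ y, e y := by
  intro h1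
  have h2 := h.order_ge hn x
  rw [h1, sub_self, addOrderOf_zero] at h2
  omega

theorem HP.two_f_ne (h : HP S e) (hn : 8 ≤ Fintype.card V) (x : V) :
    ((∑ y, e y) - e x) + ((∑ y, e y) - e x) ≠ 0 := by
  intro h1
  have h2 := h.order_ge hn x
  rw [← two_nsmul] at h1
  have h3 := addOrderOf_le_of_nsmul_eq_zero (by norm_num) h1
  omega

theorem LS.parity (x : V) : (Fintype.card V + (S.O x).card) % 2 = 1 := by
  have := LS.count (S := S) x
  omega

theorem even_of_invol (s : Finset V) (g : V → V) (h1 : ∀ v ∈ s, g v ∈ s) (h2 : ∀ v ∈ s, g v ≠ v)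
    (h3 : ∀ v ∈ s, g (g v) = v) : Even s.card := by
  have h4 : ∑ v ∈ s, (1 : ZMod 2) = 0 := by
    refine sum_involution (fun v _ => g v) ?_ ?_ ?_ ?_
    · intro v _; decide
    · intro v hv _; exact h2 v hv
    · intro v hv; exact h1 v hv
    · intro v hv; exact h3 v hv
  rw [sum_const, nsmul_eq_mul, mul_one] at h4
  exact (ZMod.natCast_eq_zero_iff_even).1 h4

open Classical in
/-- the points with image `b` -/
noncomputable def Cl (e : V → A) (b : A) : Finset V := univ.filter fun x => e x = b

theorem mem_Cl {b : A} {x : V} : x ∈ Cl e b ↔ e x = b := by simp [Cl]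

theorem Cl_disj {b c : A} (h : b ≠ c) : Disjoint (Cl e b) (Cl e c) := by
  rw [disjoint_left]
  intro x h1 h2
  exact h ((mem_Cl.1 h1).symm.trans (mem_Cl.1 h2))

/-- a point whose lines match the class `b` -/
theorem HP.match (h : HP S e) {w : V} {b : A} (h1 : e w ≠ b) (h2 : e w + b ≠ ∑ y, e y)
    (h3 : e w + b + b = ∑ y, e y) : Even (Cl e b).card := by
  have key : ∀ v ∈ Cl e b, w ≠ v ∧ (S.ln w v).card = 3 := by
    intro v hv
    have hv' := mem_Cl.1 hv
    have h4 : w ≠ v := fun h5 => h1 (by rw [h5]; exact hv')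
    exact ⟨h4, h.card3 h4 (by rw [hv']; exact h2)⟩
  refine even_of_invol _ (fun v => S.th w v) ?_ ?_ ?_
  · intro v hv
    obtain ⟨h4, h5⟩ := key v hv
    rw [mem_Cl, h.third_eq h4 h5, mem_Cl.1 hv, ← h3]
    abel
  · intro v hv
    obtain ⟨h4, h5⟩ := key v hv
    exact LS.th_ne_right h4 h5
  · intro v hv
    obtain ⟨h4, h5⟩ := key v hv
    exact LS.th_th h4 h5

/-- the matching inside a closed class -/
theorem HP.match_in (h : HP S e) {x : V} {b : A} (hx : e x = b) (h2 : b + b ≠ ∑ y, e y)
    (h3 : b + b + b = ∑ y, e y) : ¬ Even (Cl e b).card := by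
  have h0 : Even ((Cl e b).erase x).card := by
    have key : ∀ v ∈ (Cl e b).erase x, x ≠ v ∧ (S.ln x v).card = 3 := by
      intro v hv
      have hv' := mem_erase.1 hv
      have hv2 := mem_Cl.1 hv'.2
      exact ⟨hv'.1.symm, h.card3 hv'.1.symm (by rw [hx, hv2]; exact h2)⟩
    refine even_of_invol _ (fun v => S.th x v) ?_ ?_ ?_
    · intro v hv
      obtain ⟨h4, h5⟩ := key v hv
      refine mem_erase.2 ⟨LS.th_ne_left h4 h5, ?_⟩
      rw [mem_Cl, h.third_eq h4 h5, mem_Cl.1 (mem_erase.1 hv).2, hx, ← h3]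
      abel
    · intro v hv
      obtain ⟨h4, h5⟩ := key v hv
      exact LS.th_ne_right h4 h5
    · intro v hv
      obtain ⟨h4, h5⟩ := key v hv
      exact LS.th_th h4 h5
  have hm : x ∈ Cl e b := mem_Cl.2 hx
  rw [card_erase_of_mem hm] at h0
  have : 1 ≤ (Cl e b).card := card_pos.2 ⟨x, hm⟩
  intro h4
  rw [Nat.even_iff] at h0 h4
  omega

/-- order of `b + b` -/
theorem order_double {b : A} (hb : 0 < addOrderOf b) :
    addOrderOf (b + b) = addOrderOf b ∨ 2 * addOrderOf (b + b) = addOrderOf b := by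
  rw [← two_nsmul, addOrderOf_nsmul' b two_ne_zero]
  have h1 : (addOrderOf b).gcd 2 ∣ 2 := Nat.gcd_dvd_right _ _
  have h2 : (addOrderOf b).gcd 2 ∣ addOrderOf b := Nat.gcd_dvd_left _ _
  rcases (Nat.dvd_prime Nat.prime_two).1 h1 with h3 | h3
  · left; rw [h3, Nat.div_one]
  · right; rw [h3] at h2 ⊢; omega

/-! ### no point of class zero -/

/-- without zero points the ordinary neighbours are given by the classes -/
theorem HP.mem_O_iff (h : HP S e) (h0 : ∀ x, e x ≠ 0) {x y : V} :
    y ∈ S.O x ↔ y ≠ x ∧ e x + e y = ∑ y, e y := by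
  rw [LS.mem_O]
  constructor
  · rintro ⟨h1, h2⟩
    exact ⟨h1, h.pair_eq h1.symm h2⟩
  · rintro ⟨h1, h2⟩
    refine ⟨h1, ?_⟩
    rcases LS.card_cases (S := S) h1.symm with h3 | h3
    · exact h3
    · exfalso
      apply h0 (S.th x y)
      rw [h.third_eq h1.symm h3, ← h2]
      abel

theorem HP.O_eq (h : HP S e) (h0 : ∀ x, e x ≠ 0) {x : V} (h1 : e x + e x ≠ ∑ y, e y) :
    S.O x = Cl e ((∑ y, e y) - e x) := by
  ext y
  rw [h.mem_O_iff h0, mem_Cl]
  constructor
  · rintro ⟨-, h2⟩
    rw [← h2]; abel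
  · intro h2
    refine ⟨?_, by rw [h2]; abel⟩
    rintro rfl
    apply h1
    nth_rewrite 2 [h2]
    abel

theorem HP.O_eq' (h : HP S e) (h0 : ∀ x, e x ≠ 0) {x : V} (h1 : e x + e x = ∑ y, e y) :
    (S.O x).card + 1 = (Cl e (e x)).card := by
  have h2 : S.O x = (Cl e (e x)).erase x := by
    ext y
    rw [h.mem_O_iff h0, mem_erase, mem_Cl, ← h1]
    constructor
    · rintro ⟨h2, h3⟩
      exact ⟨h2, add_left_cancel h3⟩
    · rintro ⟨h2, h3⟩
      exact ⟨h2, by rw [h3]⟩
  have hm : x ∈ Cl e (e x) := mem_Cl.2 rfl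
  rw [h2, card_erase_of_mem hm]
  have : 1 ≤ (Cl e (e x)).card := card_pos.2 ⟨x, hm⟩
  omega

theorem three_card_le {b c d : A} (hbc : b ≠ c) (hbd : b ≠ d) (hcd : c ≠ d) :
    (Cl e b).card + (Cl e c).card + (Cl e d).card ≤ Fintype.card V := by
  rw [← card_union_of_disjoint (Cl_disj hbc), ← card_union_of_disjoint]
  · exact card_le_univ _
  · rw [disjoint_union_left]
    exact ⟨Cl_disj hbd, Cl_disj hcd⟩

theorem two_card_le {b c : A} (hbc : b ≠ c) :
    (Cl e b).card + (Cl e c).card ≤ Fintype.card V := by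
  rw [← card_union_of_disjoint (Cl_disj hbc)]
  exact card_le_univ _

/-- case (a): two points in a class `b` with `2 b ≠ τ`, `3 b ≠ τ` -/
theorem HP.nz_a (h : HP S e) (hn : 8 ≤ Fintype.card V) (h0 : ∀ x, e x ≠ 0) {x x' : V}
    (hne : x ≠ x') (he : e x' = e x) (h2 : e x + e x ≠ ∑ y, e y)
    (h3 : e x + e x + e x ≠ ∑ y, e y) : False := by
  set τ : A := ∑ y, e y with hτ
  set b : A := e x with hb
  have hc : (S.ln x x').card = 3 := h.card3 hne (by rw [he]; exact h2)
  obtain ⟨y, hy, -⟩ := h.common hn hne hc he.symm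
  have hy1 := (h.mem_O_iff h0).1 hy
  have hey : e y = τ - b := by rw [hτ, ← hy1.2, ← hb]; abel
  have hyy : e y + e y ≠ τ := by
    intro h4
    apply h2
    rw [hey] at h4
    have h5 : b + b = (τ + τ) - ((τ - b) + (τ - b)) := by abel
    rw [h5, h4]; abel
  have hOy := h.O_eq h0 (x := y) hyy
  rw [← hτ, hey, sub_sub_cancel] at hOy
  -- the class of the third point
  set w := S.th x x' with hw
  have hew : e w = τ - b - b := by rw [hw, h.third_eq hne hc, he]
  have hcb : τ - b - b ≠ b := by
    intro h4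
    apply h3
    have h5 : b + b + b = (b + b) + (τ - b - b) := by rw [h4]
    rw [h5]; abel
  have hcard : (Cl e (τ - b - b)).card + 1 = (Cl e b).card := by
    have hm : x ∈ Cl e b := mem_Cl.2 rfl
    have h4 : ((Cl e b).erase x).card = (Cl e (τ - b - b)).card := by
      refine card_nbij' (fun v => S.th x v) (fun v => S.th x v) ?_ ?_ ?_ ?_
      · intro v hv
        have hv' := mem_erase.1 (mem_coe.1 hv)
        have hv2 := mem_Cl.1 hv'.2
        have hc3 := h.card3 hv'.1.symm (by rw [hv2]; exact h2)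
        rw [mem_coe, mem_Cl, h.third_eq hv'.1.symm hc3, hv2]
      · intro v hv
        have hv2 := mem_Cl.1 (mem_coe.1 hv)
        have hvx : v ≠ x := by
          intro h5
          rw [h5, ← hb] at hv2
          exact hcb hv2.symm
        have hc3 := h.card3 hvx.symm (by
          rw [hv2, ← hb]
          intro h5
          apply h0 x
          rw [← hb]
          have h6 : b = τ - (b + (τ - b - b)) := by abel
          rw [h6, h5, sub_self])
        rw [mem_coe, mem_erase, mem_Cl, h.third_eq hvx.symm hc3, hv2]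
        refine ⟨LS.th_ne_left hvx.symm hc3, ?_⟩
        abel
      · intro v hv
        have hv' := mem_erase.1 (mem_coe.1 hv)
        have hv2 := mem_Cl.1 hv'.2
        have hc3 := h.card3 hv'.1.symm (by rw [hv2]; exact h2)
        exact LS.th_th hv'.1.symm hc3
      · intro v hv
        have hv2 := mem_Cl.1 (mem_coe.1 hv)
        have hvx : v ≠ x := by
          intro h5
          rw [h5, ← hb] at hv2
          exact hcb hv2.symm
        have hc3 := h.card3 hvx.symm (by
          rw [hv2, ← hb]
          intro h5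
          apply h0 x
          rw [← hb]
          have h6 : b = τ - (b + (τ - b - b)) := by abel
          rw [h6, h5, sub_self])
        exact LS.th_th hvx.symm hc3
    rw [← h4, card_erase_of_mem hm]
    have : 1 ≤ (Cl e b).card := card_pos.2 ⟨x, hm⟩
    omega
  have heven : Even (Cl e b).card := h.match (w := w) (by rw [hew]; exact hcb)
    (by
      rw [hew]
      intro h4
      apply h0 x
      rw [← hb]
      have h5 : b = τ - (τ - b - b + b) := by abel
      rw [h5, h4, sub_self]) (by rw [hew]; abel)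
  have o1 := h.two_order (by omega) y
  rw [← hτ, hey, sub_sub_cancel, hOy] at o1
  have o2 := h.two_order (by omega) w
  have hfw : τ - e w = b + b := by rw [hew]; abel
  rw [← hτ, hfw] at o2
  have hpos : 0 < addOrderOf b := by omega
  have hcy := three_card_le (e := e) (b := b) (c := τ - b - b) (d := τ - b) hcb.symm
    (fun h4 => h2 (by nth_rewrite 1 [h4]; abel))
    (fun h4 => h0 x (by
      rw [← hb]
      have h5 : b = (τ - b) - (τ - b - b) := by abel
      rw [h5, h4, sub_self]))
  have hypos : 1 ≤ (Cl e (τ - b)).card := card_pos.2 ⟨y, mem_Cl.2 hey⟩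
  have hpar := LS.parity (S := S) y
  rw [hOy] at hpar
  rw [Nat.even_iff] at heven
  rcases order_double hpos with h4 | h4
  · have h5 : (S.O w).card = (Cl e b).card := by omega
    by_cases h6 : e w + e w = τ
    · have h7 := h.O_eq' h0 h6
      rw [hew] at h7
      omega
    · have h7 := h.O_eq h0 h6
      obtain ⟨v, hv⟩ : (S.O w).Nonempty := by
        rw [← card_pos, h5]
        exact card_pos.2 ⟨x, mem_Cl.2 rfl⟩
      rw [h7, mem_Cl, ← hτ, hfw] at hv
      have h8 : e v + e v ≠ τ := by
        intro h8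
        apply h6
        rw [hv] at h8
        rw [hew]
        have h9 : τ - b - b + (τ - b - b) = (τ + τ) - (b + b + (b + b)) := by abel
        rw [h9, h8]; abel
      have h9 := h.O_eq h0 h8
      have h10 := LS.parity (S := S) v
      have h11 : τ - e v = τ - b - b := by rw [hv]; abel
      rw [h9, ← hτ, h11] at h10
      omega
  · omega

/-- case (b): two points in a class `b` with `2 b ≠ τ`, `3 b = τ`: a free point -/
theorem HP.nz_b (h : HP S e) (hn : 8 ≤ Fintype.card V) (h0 : ∀ x, e x ≠ 0) {x x' : V}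
    (hne : x ≠ x') (he : e x' = e x) (h2 : e x + e x ≠ ∑ y, e y)
    (h3 : e x + e x + e x = ∑ y, e y) : False := by
  set τ : A := ∑ y, e y with hτ
  set b : A := e x with hb
  have hc : (S.ln x x').card = 3 := h.card3 hne (by rw [he]; exact h2)
  obtain ⟨y, hy, -⟩ := h.common hn hne hc he.symm
  have hy1 := (h.mem_O_iff h0).1 hy
  have hey : e y = τ - b := by rw [hτ, ← hy1.2, ← hb]; abel
  have hτb : τ - b = b + b := by rw [← h3]; abel
  have hyy : e y + e y ≠ τ := by
    intro h4
    apply h2
    rw [hey] at h4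
    have h5 : b + b = (τ + τ) - ((τ - b) + (τ - b)) := by abel
    rw [h5, h4]; abel
  have hOy := h.O_eq h0 (x := y) hyy
  rw [← hτ, hey, sub_sub_cancel] at hOy
  have hOx := h.O_eq h0 (x := x) h2
  rw [← hτ, ← hb] at hOx
  have hodd := h.match_in (x := x) (b := b) rfl h2 h3
  have o1 := h.two_order (by omega) y
  rw [← hτ, hey, sub_sub_cancel, hOy] at o1
  have o2 := h.two_order (by omega) x
  rw [← hτ, ← hb, hOx, hτb] at o2
  have hpos : 0 < addOrderOf b := by omega
  have hypos : 1 ≤ (Cl e (b + b)).card := card_pos.2 ⟨y, mem_Cl.2 (by rw [hey, hτb])⟩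
  have hb0 : b ≠ 0 := h0 x
  have hcy := two_card_le (e := e) (b := b) (c := b + b) (fun h4 => hb0 (by
    have h5 : b = (b + b) - b := by abel
    rw [h5, ← h4, sub_self]))
  have hxx : 2 ≤ (Cl e b).card := by
    rw [← card_pair hne]
    apply card_le_card
    intro v hv
    simp only [mem_insert, mem_singleton] at hv
    rcases hv with rfl | rfl
    · exact mem_Cl.2 rfl
    · exact mem_Cl.2 he
  rcases order_double hpos with h4 | h4
  · have h5 : (Cl e (b + b)).card = (Cl e b).card := by omega
    obtain ⟨y', hy', hyy'⟩ : ∃ y' ∈ Cl e (b + b), y' ≠ y := by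
      apply exists_mem_ne
      omega
    have hey' := mem_Cl.1 hy'
    apply h.nz_a hn h0 (x := y) (x' := y') hyy'.symm (by rw [hey', hey, hτb]) hyy
    rw [hey, hτb]
    intro h6
    rw [← hτ, ← h3] at h6
    have h7 : b + b + b = 0 := by
      have h8 : b + b + b = (b + b + (b + b) + (b + b)) - (b + b + b) := by abel
      rw [h8, h6, sub_self]
    exact h.tau_ne (by omega) (by rw [← hτ, ← h3, h7])
  · -- `y` is a free point
    have h5 : (Cl e (b + b)).card = 1 ∧ (Cl e b).card + 1 = Fintype.card V := by omega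
    refine h.free (by omega) (o := y) ?_ hne hc
    intro v hv
    have h6 : v ∈ Cl e b := by
      by_contra h7
      have h8 : (insert v (insert y (Cl e b))).card ≤ Fintype.card V := card_le_univ _
      have hyn : y ∉ Cl e b := by
        rw [mem_Cl, hey, hτb]
        intro h9
        apply hb0
        have h10 : b = (b + b) - b := by abel
        rw [h10, h9, sub_self]
      rw [card_insert_of_notMem (by simp [hv, h7]), card_insert_of_notMem hyn] at h8
      omega
    rw [← hOy] at h6
    exact (LS.mem_O.1 h6).2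

/-- two points of the same class `b` force `2 b = τ` -/
theorem HP.nz_two (h : HP S e) (hn : 8 ≤ Fintype.card V) (h0 : ∀ x, e x ≠ 0) {x x' : V}
    (hne : x ≠ x') (he : e x' = e x) : e x + e x = ∑ y, e y := by
  by_contra h2
  by_cases h3 : e x + e x + e x = ∑ y, e y
  · exact h.nz_b hn h0 hne he h2 h3
  · exact h.nz_a hn h0 hne he h2 h3

end Pool.Agent.helper25.PV
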