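import Pool.Agent.helper25.PV.Gam

set_option autoImplicit false
set_option linter.unusedSectionVars false
set_option linter.unusedVariables false

/-!
# Project PV: configurations in a Steiner triple system
-/

namespace Pool.Agent.helper25.PV

open Finset

variable {V : Type*} [Fintype V] [DecidableEq V] {S : LS V}
variable {A : Type*} [AddCommGroup A] {e : V → A}

theorem HP.config (h : HP S e) (hn : 8 ≤ Fintype.card V)
    (h3 : ∀ x y, x ≠ y → (S.ln x y).card = 3) {ι κ : Type*} [Fintype ι] [DecidableEq ι] [Fintype κ]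
    (pt : ι → V) (hpt : Function.Injective pt) (D : ι → ℕ) (l : κ → Finset ι)
    (hl : Function.Injective l) (hline : ∀ j, (l j).image pt ∈ S.lines)
    (hpair : ∀ i i', i ≠ i' → (∃ j, i ∈ l j ∧ i' ∈ l j) ∨ ∀ i'', S.th (pt i) (pt i') ≠ pt i'')
    (c : κ → ℕ) (m : ℕ) (hc : ∀ i, ∑ j, (if i ∈ l j then c j else 0) = 2 * D i)
    (hm : ∑ j, c j = 2 * m) (hcls : ∑ i, D i • e (pt i) = m • ∑ y, e y) :
    ∃ x : κ → ℕ, ∀ i, ∑ j, (if i ∈ l j then x j else 0) = D i := by
  have hline3 : ∀ L ∈ S.lines, L.card = 3 := by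
    intro L hL
    obtain ⟨a, b, hab, rfl⟩ := LS.mem_lines.1 hL
    exact h3 a b hab
  have hl3 : ∀ j, (l j).card = 3 := by
    intro j
    rw [← hline3 _ (hline j), card_image_of_injective _ hpt]
  set g : V → ℤ := fun w => (m : ℤ) - ∑ i, if pt i = w then (D i : ℤ) else 0 with hg
  have hpti : ∀ i, (∑ i', if pt i' = pt i then (D i' : ℤ) else 0) = D i := by
    intro i
    rw [sum_eq_single i]
    · rw [if_pos rfl]
    · intro i' _ hne
      rw [if_neg (fun h1 => hne (hpt h1))]
    · exact fun h1 => absurd (mem_univ i) h1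
  have hoff : ∀ w, (∀ i, pt i ≠ w) → (∑ i', if pt i' = w then (D i' : ℤ) else 0) = 0 := by
    intro w hw
    exact sum_eq_zero fun i _ => if_neg (hw i)
  -- the class
  have hcl : ∑ w, g w • e w = 0 := by
    have h1 : ∀ w ∈ (univ : Finset V), g w • e w =
        (m : ℤ) • e w - ∑ i, if pt i = w then D i • e (pt i) else 0 := by
      intro w _
      rw [hg]
      dsimp only
      rw [sub_smul, sum_smul]
      congr 1
      refine sum_congr rfl fun i _ => ?_
      by_cases h2 : pt i = w
      · rw [if_pos h2, if_pos h2, h2, natCast_zsmul]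
      · rw [if_neg h2, if_neg h2, zero_smul]
    rw [sum_congr rfl h1, sum_sub_distrib, ← smul_sum, sum_comm]
    have h2 : ∀ i ∈ (univ : Finset ι), ∑ w, (if pt i = w then D i • e (pt i) else 0) =
        D i • e (pt i) := by
      intro i _
      rw [sum_ite_eq, if_pos (mem_univ _)]
    rw [sum_congr rfl h2, hcls, natCast_zsmul, sub_self]
  have hcone : S.ConeP g := by
    refine LS.ConeP.div (N := 2) (by norm_num) ?_
    have h1 := LS.ConeP.sum (S := S) (univ : Finset κ)
      (g := fun j y => ((c j : ℕ) : ℤ) * if y ∈ (l j).image pt then 0 else 1)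
      fun j _ => (LS.ConeP.line (hline j)).smul (c j)
    have h2 : (fun y => ∑ j, ((c j : ℕ) : ℤ) * if y ∈ (l j).image pt then 0 else 1) =
        fun y => ((2 : ℕ) : ℤ) * g y := by
      funext y
      have h4 : ∀ j ∈ (univ : Finset κ), (((c j : ℕ) : ℤ) * if y ∈ (l j).image pt then 0 else 1) =
          (c j : ℤ) - if y ∈ (l j).image pt then (c j : ℤ) else 0 := by
        intro j _
        split_ifs <;> simp
      rw [sum_congr rfl h4, sum_sub_distrib]
      have h5 : ∑ j, (c j : ℤ) = 2 * m := by exact_mod_cast hm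
      rw [h5, hg]
      dsimp only
      by_cases h6 : ∃ i, pt i = y
      · obtain ⟨i, rfl⟩ := h6
        rw [hpti i]
        have h7 : ∀ j ∈ (univ : Finset κ), (if pt i ∈ (l j).image pt then (c j : ℤ) else 0) =
            ((if i ∈ l j then c j else 0 : ℕ) : ℤ) := by
          intro j _
          by_cases h8 : i ∈ l j
          · rw [if_pos h8, if_pos (mem_image_of_mem pt h8)]
          · rw [if_neg h8, if_neg, Nat.cast_zero]
            rw [mem_image]
            rintro ⟨i', h9, h10⟩
            exact h8 (hpt h10 ▸ h9)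
        rw [sum_congr rfl h7, ← Nat.cast_sum, hc i]
        push_cast
        ring
      · push Not at h6
        rw [hoff y h6]
        have h7 : ∀ j ∈ (univ : Finset κ), (if y ∈ (l j).image pt then (c j : ℤ) else 0) = 0 := by
          intro j _
          rw [if_neg]
          rw [mem_image]
          rintro ⟨i', h9, h10⟩
          exact h6 i' h10
        rw [sum_congr rfl h7, sum_const_zero]
        push_cast
        ring
    rwa [h2] at h1
  obtain ⟨lam, hd⟩ := h.dec g hcl hcone
  have ht := hd.total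
  -- the total
  have hD3 : ∑ i, (D i : ℤ) = 3 * m := by
    have h1 : ∑ i, ∑ j, (if i ∈ l j then c j else 0) = ∑ j, c j * 3 := by
      rw [sum_comm]
      refine sum_congr rfl fun j _ => ?_
      rw [← sum_filter, filter_mem_eq_inter, univ_inter, sum_const, hl3, smul_eq_mul, mul_comm]
    rw [sum_congr rfl fun i _ => hc i, ← mul_sum, ← sum_mul, hm] at h1
    have h2 : ∑ i, D i = 3 * m := by omega
    exact_mod_cast h2
  have hgs : ∑ w, g w = Fintype.card V * m - 3 * m := by
    rw [hg]
    rw [sum_sub_distrib, sum_const, card_univ, nsmul_eq_mul, sum_comm]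
    congr 1
    rw [← hD3]
    refine sum_congr rfl fun i _ => ?_
    rw [sum_ite_eq, if_pos (mem_univ _)]
  have hL3 : ∑ L ∈ S.lines, (lam L : ℤ) * L.card = 3 * ∑ L ∈ S.lines, (lam L : ℤ) := by
    rw [mul_sum]
    refine sum_congr rfl fun L hL => ?_
    rw [hline3 L hL]
    push_cast
    ring
  rw [hgs, hL3] at ht
  have h5 : (8 : ℤ) ≤ Fintype.card V := by exact_mod_cast hn
  have hs : ∑ L ∈ S.lines, (lam L : ℤ) = m := by
    have h1 : ((Fintype.card V : ℤ) - 3) * (∑ L ∈ S.lines, (lam L : ℤ) - m) = 0 := by linarith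
    rcases mul_eq_zero.1 h1 with h6 | h6
    · linarith
    · linarith
  have hdeg : ∀ i, ∑ L ∈ S.thr (pt i), (lam L : ℤ) = D i := by
    intro i
    have h1 := hd (pt i)
    rw [hs, hg] at h1
    dsimp only at h1
    rw [hpti i] at h1
    linarith
  have hdeg0 : ∀ w, (∀ i, pt i ≠ w) → ∑ L ∈ S.thr w, (lam L : ℤ) = 0 := by
    intro w hw
    have h1 := hd w
    rw [hs, hg] at h1
    dsimp only at h1
    rw [hoff w hw] at h1
    linarith
  have hsub : ∀ L ∈ S.lines, lam L ≠ 0 → ∀ w ∈ L, ∃ i, pt i = w := by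
    intro L hL h1 w hw
    by_contra h2
    push Not at h2
    exact h1 (LS.lam_zero (hdeg0 w h2) hL hw)
  refine ⟨fun j => lam ((l j).image pt), fun i => ?_⟩
  have key : ∑ L ∈ S.thr (pt i), lam L = ∑ j ∈ univ.filter (fun j => i ∈ l j),
      lam ((l j).image pt) := by
    symm
    rw [← sum_image (f := fun L => lam L) (g := fun j => (l j).image pt)
      (s := univ.filter fun j => i ∈ l j)]
    · apply sum_subset
      · intro L hL
        obtain ⟨j, hj, rfl⟩ := mem_image.1 hL
        exact LS.mem_thr.2 ⟨hline j, mem_image_of_mem pt (mem_filter.1 hj).2⟩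
      · intro L hL hL'
        by_contra h1
        have hL1 := LS.mem_thr.1 hL
        obtain ⟨w, hw, hwi⟩ : ∃ w ∈ L, w ≠ pt i := by
          apply exists_mem_ne
          have := LS.two_le hL1.1
          omega
        obtain ⟨i', rfl⟩ := hsub L hL1.1 h1 w hw
        have hii' : i ≠ i' := fun h2 => hwi (by rw [h2])
        have hLe := LS.eq_ln hL1.1 hwi.symm hL1.2 hw
        rcases hpair i i' hii' with ⟨j, h4, h5⟩ | h4
        · apply hL'
          refine mem_image.2 ⟨j, mem_filter.2 ⟨mem_univ _, h4⟩, ?_⟩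
          exact LS.line_unique (hline j) hL1.1 hwi (mem_image_of_mem pt h5) (mem_image_of_mem pt h4)
            hw hL1.2
        · obtain ⟨i'', h5⟩ := hsub L hL1.1 h1 (S.th (pt i) (pt i')) (by
            rw [← hLe]; exact LS.th_mem hwi.symm (h3 _ _ hwi.symm))
          exact h4 i'' h5.symm
    · intro j _ j' _ h1
      exact hl (image_injective hpt h1)
  have h1 := hdeg i
  rw [nat_sum_thr] at h1
  have h2 : ∑ L ∈ S.thr (pt i), lam L = D i := by exact_mod_cast h1
  rw [← h2, key, sum_filter]

end Pool.Agent.helper25.PV
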