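import Pool.Agent.helper25.PV.Conf

set_option autoImplicit false
set_option linter.unusedSectionVars false
set_option linter.unusedVariables false

/-!
# Project PV: coordinates in an elementary abelian group
-/

namespace Pool.Agent.helper25.PV

open Finset

theorem coord_aux {p : ℕ} [Fact p.Prime] {K : Type*} [AddCommGroup K] [Finite K]
    [Module (ZMod p) K] (m : ℕ) : (∃ d < m, Nat.card K = p ^ d) ∨
      ∃ φ : (Fin m → ZMod p) →+ K, Function.Injective φ := by
  have : Module.Finite (ZMod p) K := Module.Finite.of_finite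
  have h1 : Nat.card K = p ^ Module.finrank (ZMod p) K := by
    rw [Module.natCard_eq_pow_finrank (K := ZMod p) (V := K), Nat.card_zmod]
  rcases Nat.lt_or_ge (Module.finrank (ZMod p) K) m with h2 | h2
  · exact Or.inl ⟨_, h2, h1⟩
  · right
    let b := Module.finBasis (ZMod p) K
    have hb : LinearIndependent (ZMod p) (fun i : Fin m => b (Fin.castLE h2 i)) :=
      b.linearIndependent.comp _ (Fin.castLE_injective h2)
    rw [linearIndependent_iff_injective_fintypeLinearCombination] at hb
    exact ⟨(Fintype.linearCombination (ZMod p)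
      (fun i : Fin m => b (Fin.castLE h2 i))).toAddMonoidHom, hb⟩

theorem exists_coord {p : ℕ} [Fact p.Prime] {A : Type*} [AddCommGroup A] (K : AddSubgroup A)
    [Finite K] (hp : ∀ a ∈ K, p • a = 0) {N : ℕ} (hK : Nat.card K = N) (m : ℕ) :
    (∃ d < m, N = p ^ d) ∨
      ∃ φ : (Fin m → ZMod p) →+ A, Function.Injective φ ∧ ∀ v, φ v ∈ K := by
  let inst : Module (ZMod p) K := AddCommGroup.zmodModule (n := p) (fun x => by
    apply Subtype.ext
    simpa using hp x x.2)
  rcases coord_aux (p := p) (K := K) m with h1 | ⟨φ, h1⟩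
  · rw [hK] at h1
    exact Or.inl h1
  · right
    refine ⟨K.subtype.comp φ, ?_, fun v => Subtype.property _⟩
    intro v w hvw
    exact h1 (Subtype.ext hvw)

end Pool.Agent.helper25.PV
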