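import Pool.Agent.helper25.PV.PG
import Pool.Agent.helper25.PV.AG

set_option autoImplicit false
set_option linter.unusedSectionVars false
set_option linter.unusedVariables false

/-!
# Project PV: the core theorem
-/

namespace Pool.Agent.helper25.PV

open Finset

variable {V : Type*} [Fintype V] [DecidableEq V] {S : LS V}
variable {A : Type*} [AddCommGroup A] {e : V → A}

theorem HP.pg (h : HP S e) (hn : 8 ≤ Fintype.card V) (hinj : Function.Injective e)
    (h3 : ∀ x y, x ≠ y → (S.ln x y).card = 3) {u : A} (h2 : ∀ x, e x + e x = u)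
    (hu : u + u + u = ∑ y, e y + ∑ y, e y) : Fintype.card V = 15 := by
  set τ : A := ∑ y, e y with hτ
  set σ : A := τ - u with hσ
  set H : V → A := fun x => e x - σ with hH
  have hth : ∀ x y, x ≠ y → e (S.th x y) = τ - e x - e y := fun x y hxy =>
    h.third_eq hxy (h3 x y hxy)
  have hσ3 : σ + σ + σ = τ := by
    have h1 : σ + σ + σ = τ + (τ + τ - (u + u + u)) := by rw [hσ]; abel
    rw [h1, hu, sub_self, add_zero]
  have hHH : ∀ x, H x + H x = 0 := by
    intro x
    have h1 : H x + H x = (e x + e x) + u + u - (τ + τ) := by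
      rw [hH]
      dsimp only
      rw [hσ]; abel
    rw [h1, h2, hu, sub_self]
  have hHadd : ∀ x y, x ≠ y → H x + H y = H (S.th x y) := by
    intro x y hxy
    have h1 : H x + H y - H (S.th x y) = (e x + e x) + (e y + e y) + u - (τ + τ) := by
      rw [hH]
      dsimp only
      rw [hth x y hxy, hσ]; abel
    rw [h2, h2, hu, sub_self] at h1
    exact sub_eq_zero.1 h1
  have hHinj : Function.Injective H := fun x y hxy => hinj (sub_left_injective hxy)
  have hH0 : ∀ x, H x ≠ 0 := by
    intro x hx
    obtain ⟨y, hyx⟩ : ∃ y, y ≠ x := by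
      by_contra h1
      push Not at h1
      have h3 : (univ : Finset V) ⊆ {x} := fun z _ => mem_singleton.2 (h1 z)
      have h4 := card_le_card h3
      rw [card_univ, card_singleton] at h4
      omega
    have h1 := hHadd x y hyx.symm
    rw [hx, zero_add] at h1
    exact LS.th_ne_right hyx.symm (h3 x y hyx.symm) (hHinj h1).symm
  let K : AddSubgroup A :=
    { carrier := {a | a = 0 ∨ ∃ x, H x = a}
      add_mem' := by
        rintro a b (rfl | ⟨x, rfl⟩) (rfl | ⟨y, rfl⟩)
        · left; simp
        · right; exact ⟨y, by simp⟩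
        · right; exact ⟨x, by simp⟩
        · by_cases hxy : x = y
          · left; rw [hxy]; exact hHH y
          · right; exact ⟨_, (hHadd x y hxy).symm⟩
      zero_mem' := Or.inl rfl
      neg_mem' := by
        rintro a (rfl | ⟨x, rfl⟩)
        · left; simp
        · right; exact ⟨x, eq_neg_of_add_eq_zero_left (hHH x)⟩ }
  have hKmem : ∀ a, a ∈ K ↔ a = 0 ∨ ∃ x, H x = a := fun a => Iff.rfl
  let f : Option V → K := fun x => match x with
    | none => ⟨0, Or.inl rfl⟩
    | some x => ⟨H x, Or.inr ⟨x, rfl⟩⟩
  have hf : Function.Bijective f := by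
    constructor
    · rintro (_ | x) (_ | y) hxy
      · rfl
      · exact absurd (congrArg Subtype.val hxy).symm (hH0 y)
      · exact absurd (congrArg Subtype.val hxy) (hH0 x)
      · rw [hHinj (congrArg Subtype.val hxy)]
    · rintro ⟨a, (rfl | ⟨x, rfl⟩)⟩
      · exact ⟨none, rfl⟩
      · exact ⟨some x, rfl⟩
  have hKfin : Finite K := Finite.of_surjective f hf.2
  have hKc : Nat.card K = Fintype.card V + 1 := by
    rw [← Nat.card_congr (Equiv.ofBijective f hf), Nat.card_eq_fintype_card, Fintype.card_option]
  have hK2 : ∀ a ∈ K, 2 • a = 0 := by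
    rintro a (rfl | ⟨x, rfl⟩)
    · simp
    · rw [two_nsmul]; exact hHH x
  have : Fact (Nat.Prime 2) := ⟨Nat.prime_two⟩
  rcases exists_coord (p := 2) K hK2 hKc 5 with ⟨d, hd, hN⟩ | ⟨φ, hφ, hφK⟩
  · interval_cases d <;> omega
  · exfalso
    have hex : ∀ i, ∃ x, H x = φ (vecP i) := by
      intro i
      rcases (hKmem _).1 (hφK (vecP i)) with h1 | h1
      · exfalso
        apply vecP_ne i
        apply hφ
        rw [h1, map_zero]
      · exact h1
    choose pt hpt using hex
    have hptinj : Function.Injective pt := by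
      intro i j hij
      apply vecP_inj
      apply hφ
      rw [← hpt, ← hpt, hij]
    have hthp : ∀ i j, i ≠ j → H (S.th (pt i) (pt j)) = φ (vecP i + vecP j) := by
      intro i j hij
      rw [← hHadd _ _ (fun h1 => hij (hptinj h1)), hpt, hpt, map_add]
    obtain ⟨x, hx⟩ := h.config hn h3 pt hptinj (fun _ => 1) linP linP_inj
      (by
        intro j
        obtain ⟨a, b, c, hab, h1, h4⟩ := linP_line j
        have h5 : pt a ≠ pt b := fun h6 => hab (hptinj h6)
        have h6 : S.th (pt a) (pt b) = pt c := by
          apply hHinj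
          rw [hthp a b hab, ← h4, hpt]
        rw [h1, image_insert, image_insert, image_singleton, ← h6,
          ← LS.ln_eq_th h5 (h3 _ _ h5)]
        exact LS.ln_mem h5)
      (by
        intro i i' hii'
        rcases linP_pair i i' hii' with h1 | h1
        · exact Or.inl h1
        · right
          intro i'' h4
          apply h1 i''
          apply hφ
          rw [← hpt, ← h4, hthp i i' hii'])
      (fun _ => 1) 4 linP_two (by simp)
      (by
        have h1 : ∀ i ∈ (univ : Finset (Fin 12)), 1 • e (pt i) = φ (vecP i) + σ := by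
          intro i _
          rw [one_smul, ← hpt, hH]
          dsimp only
          abel
        rw [sum_congr rfl h1, sum_add_distrib, ← map_sum, vecP_sum, map_zero, zero_add, sum_const,
          card_univ, Fintype.card_fin, ← hτ, ← hσ3]
        abel)
    exact linP_no x hx

theorem HP.ag (h : HP S e) (hn : 8 ≤ Fintype.card V) (hinj : Function.Injective e)
    (h3 : ∀ x y, x ≠ y → (S.ln x y).card = 3) (ht : ∀ x, e x + e x + e x = ∑ y, e y) :
    Fintype.card V = 9 := by
  set τ : A := ∑ y, e y with hτ
  have hth : ∀ x y, x ≠ y → e (S.th x y) = τ - e x - e y := fun x y hxy =>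
    h.third_eq hxy (h3 x y hxy)
  obtain ⟨o⟩ : Nonempty V := by
    apply Fintype.card_pos_iff.1
    omega
  -- the third point, also for equal points
  have hth' : ∀ x y, ∃ w, e w = τ - e x - e y := by
    intro x y
    by_cases hxy : x = y
    · refine ⟨x, ?_⟩
      rw [← hxy, ← ht x]; abel
    · exact ⟨_, hth x y hxy⟩
  let K : AddSubgroup A :=
    { carrier := {a | ∃ x, e x - e o = a}
      add_mem' := by
        rintro a b ⟨x, rfl⟩ ⟨y, rfl⟩
        obtain ⟨w, hw⟩ := hth' x y
        obtain ⟨v, hv⟩ := hth' o w
        refine ⟨v, ?_⟩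
        rw [hv, hw]; abel
      zero_mem' := ⟨o, sub_self _⟩
      neg_mem' := by
        rintro a ⟨x, rfl⟩
        obtain ⟨w, hw⟩ := hth' x o
        refine ⟨w, ?_⟩
        rw [hw, ← ht o]; abel }
  have hKmem : ∀ a, a ∈ K ↔ ∃ x, e x - e o = a := fun a => Iff.rfl
  let f : V → K := fun x => ⟨e x - e o, ⟨x, rfl⟩⟩
  have hf : Function.Bijective f := by
    constructor
    · intro x y hxy
      exact hinj (sub_left_injective (congrArg Subtype.val hxy))
    · rintro ⟨a, ⟨x, rfl⟩⟩
      exact ⟨x, rfl⟩
  have hKfin : Finite K := Finite.of_surjective f hf.2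
  have hKc : Nat.card K = Fintype.card V := by
    rw [← Nat.card_congr (Equiv.ofBijective f hf), Nat.card_eq_fintype_card]
  have hK3 : ∀ a ∈ K, 3 • a = 0 := by
    rintro a ⟨x, rfl⟩
    have h1 : 3 • (e x - e o) = (e x + e x + e x) - (e o + e o + e o) := by abel
    rw [h1, ht, ht, sub_self]
  have : Fact (Nat.Prime 3) := ⟨Nat.prime_three⟩
  rcases exists_coord (p := 3) K hK3 hKc 3 with ⟨d, hd, hN⟩ | ⟨φ, hφ, hφK⟩
  · interval_cases d <;> omega
  · exfalso
    have hex : ∀ i, ∃ x, e x - e o = φ (vecA i) := fun i => (hKmem _).1 (hφK (vecA i))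
    choose pt hpt using hex
    have hpt' : ∀ i, e (pt i) = e o + φ (vecA i) := by
      intro i
      rw [← hpt]; abel
    have hptinj : Function.Injective pt := by
      intro i j hij
      apply vecA_inj
      apply hφ
      rw [← hpt, ← hpt, hij]
    have hthp : ∀ i j, i ≠ j → e (S.th (pt i) (pt j)) = e o + φ (- vecA i - vecA j) := by
      intro i j hij
      rw [hth _ _ (fun h1 => hij (hptinj h1)), hpt', hpt', map_sub, map_neg, ← ht o]
      abel
    obtain ⟨x, hx⟩ := h.config hn h3 pt hptinj dA linA linA_inj
      (by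
        intro j
        obtain ⟨a, b, c, hab, h1, h4⟩ := linA_line j
        have h5 : pt a ≠ pt b := fun h6 => hab (hptinj h6)
        have h6 : S.th (pt a) (pt b) = pt c := by
          apply hinj
          rw [hthp a b hab, ← h4, hpt']
        rw [h1, image_insert, image_insert, image_singleton, ← h6,
          ← LS.ln_eq_th h5 (h3 _ _ h5)]
        exact LS.ln_mem h5)
      (by
        intro i i' hii'
        rcases linA_pair i i' hii' with h1 | h1
        · exact Or.inl h1
        · right
          intro i'' h4
          apply h1 i''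
          apply hφ
          have h5 := hthp i i' hii'
          rw [h4, hpt'] at h5
          exact add_left_cancel h5)
      cA 6 linA_two cA_sum
      (by
        have h1 : ∀ i ∈ (univ : Finset (Fin 16)), dA i • e (pt i) =
            dA i • e o + φ (dA i • vecA i) := by
          intro i _
          rw [hpt', smul_add, map_nsmul]
        rw [sum_congr rfl h1, sum_add_distrib, ← map_sum, vecA_sum, map_zero, add_zero, ← sum_smul,
          dA_sum, ← hτ, ← ht o]
        abel)
    exact linA_no x hx

/-- the core theorem: a Hilbert linear space with at least eight points and a three-point line has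
nine or fifteen points -/
theorem HP.core (h : HP S e) (hn : 8 ≤ Fintype.card V) {a b : V} (hab : a ≠ b)
    (hc : (S.ln a b).card = 3) : Fintype.card V = 9 ∨ Fintype.card V = 15 := by
  obtain ⟨hinj, h3⟩ := h.steiner hn hab hc
  rcases h.dich hn hinj h3 with h1 | ⟨u, h1, h2⟩
  · exact Or.inl (h.ag hn hinj h3 h1)
  · exact Or.inr (h.pg hn hinj h3 h1 h2)

end Pool.Agent.helper25.PV
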