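import Pool.Agent.helper25.PV.LS

set_option autoImplicit false

/-!
# Project PV: the orders of the classes `τ - e x`
-/

namespace Pool.Agent.helper25.PV

open Finset

variable {V : Type*} [Fintype V] [DecidableEq V] {S : LS V}

/-! ### the cone -/

theorem LS.ConeP.add {g g' : V → ℤ} (h : S.ConeP g) (h' : S.ConeP g') :
    S.ConeP fun y => g y + g' y := by
  obtain ⟨μ, h1, h2⟩ := h
  obtain ⟨μ', h3, h4⟩ := h'
  refine ⟨fun L => μ L + μ' L, fun L => add_nonneg (h1 L) (h3 L), fun y => ?_⟩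
  push_cast
  rw [h2 y, h4 y, ← sum_add_distrib]
  refine sum_congr rfl fun L _ => ?_
  split_ifs <;> simp

theorem LS.ConeP.smul {g : V → ℤ} (h : S.ConeP g) (m : ℕ) :
    S.ConeP fun y => m * g y := by
  obtain ⟨μ, h1, h2⟩ := h
  refine ⟨fun L => m * μ L, fun L => mul_nonneg (Nat.cast_nonneg m) (h1 L), fun y => ?_⟩
  push_cast
  rw [h2 y, mul_sum]
  refine sum_congr rfl fun L _ => ?_
  split_ifs <;> simp

theorem LS.ConeP.div {g : V → ℤ} {N : ℕ} (hN : 0 < N) (h : S.ConeP fun y => N * g y) :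
    S.ConeP g := by
  obtain ⟨μ, h1, h2⟩ := h
  have hN' : (0 : ℚ) < N := by exact_mod_cast hN
  refine ⟨fun L => μ L / N, fun L => div_nonneg (h1 L) hN'.le, fun y => ?_⟩
  have h3 := h2 y
  push_cast at h3
  have h4 : (g y : ℚ) = (∑ L ∈ S.lines, if y ∈ L then 0 else μ L) / N := by
    rw [← h3]; field_simp
  rw [h4, sum_div]
  refine sum_congr rfl fun L _ => ?_
  split_ifs <;> simp

theorem LS.ConeP.zero : S.ConeP fun _ => 0 :=
  ⟨fun _ => 0, fun _ => le_rfl, fun y => by simp⟩

theorem LS.ConeP.sum {ι : Type*} (s : Finset ι) {g : ι → V → ℤ} (h : ∀ i ∈ s, S.ConeP (g i)) :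
    S.ConeP fun y => ∑ i ∈ s, g i y := by
  classical
  induction s using Finset.induction_on with
  | empty => simpa using LS.ConeP.zero (S := S)
  | insert a s ha ih =>
    have h1 := (h a (mem_insert_self a s)).add (ih fun i hi => h i (mem_insert_of_mem hi))
    have h2 : (fun y => g a y + ∑ i ∈ s, g i y) = fun y => ∑ i ∈ insert a s, g i y := by
      ext y; rw [sum_insert ha]
    rwa [h2] at h1

/-- the complement of a line -/
theorem LS.ConeP.line {L : Finset V} (hL : L ∈ S.lines) :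
    S.ConeP fun y => if y ∈ L then 0 else 1 := by
  refine ⟨fun L' => if L' = L then 1 else 0, fun L' => by dsimp only; split_ifs <;> norm_num,
    fun y => ?_⟩
  rw [sum_eq_single L]
  · by_cases h : y ∈ L <;> simp [h]
  · intro L' _ h
    simp [h]
  · exact fun h => absurd hL h

theorem three_le_thr (hn : 7 ≤ Fintype.card V) (x : V) : 3 ≤ (S.thr x).card := by
  have := LS.count (S := S) x
  omega

/-- `1 - χ_x` is in the cone -/
theorem LS.ConeP.pt (hn : 7 ≤ Fintype.card V) (x : V) :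
    S.ConeP fun y => if y = x then 0 else 1 := by
  have hk := three_le_thr (S := S) hn x
  refine LS.ConeP.div (N := (S.thr x).card - 1) (by omega) ?_
  have h1 : S.ConeP fun y => ∑ L ∈ S.thr x, if y ∈ L then (0 : ℤ) else 1 :=
    LS.ConeP.sum _ fun L hL => LS.ConeP.line (LS.mem_thr.1 hL).1
  have h2 : (fun y => ∑ L ∈ S.thr x, if y ∈ L then (0 : ℤ) else 1) =
      fun y => (((S.thr x).card - 1 : ℕ) : ℤ) * if y = x then 0 else 1 := by
    ext y
    by_cases hy : y = x
    · subst hy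
      rw [if_pos rfl, mul_zero]
      refine sum_eq_zero fun L hL => ?_
      rw [if_pos (LS.mem_thr.1 hL).2]
    · rw [if_neg hy, mul_one]
      have h3 : ∀ L ∈ S.thr x, (if y ∈ L then (0 : ℤ) else 1) =
          1 - if L = S.ln x y then 1 else 0 := by
        intro L hL
        have h4 := LS.mem_thr.1 hL
        by_cases h5 : y ∈ L
        · rw [if_pos h5, if_pos (LS.eq_ln h4.1 (Ne.symm hy) h4.2 h5).symm]; simp
        · rw [if_neg h5, if_neg]
          · simp
          · rintro rfl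
            exact h5 (S.right (Ne.symm hy))
      rw [sum_congr rfl h3, sum_sub_distrib, sum_ite_eq', if_pos (LS.ln_mem_thr (Ne.symm hy))]
      simp
      omega
  rwa [h2] at h1

/-! ### the classes -/

variable {A : Type*} [AddCommGroup A] {e : V → A}

/-- `(k - 1) (τ - e x) = 0` -/
theorem HP.nsmul_f (h : HP S e) (hn : 7 ≤ Fintype.card V) (x : V) :
    ((S.thr x).card - 1) • ((∑ y, e y) - e x) = 0 := by
  have hk := three_le_thr (S := S) hn x
  have h1 : ∑ L ∈ S.thr x, ∑ y ∈ L, e y = (S.thr x).card • ∑ y, e y := by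
    rw [sum_congr rfl fun L hL => h.rel L (LS.mem_thr.1 hL).1, sum_const]
  have h2 : ∑ L ∈ S.thr x, ∑ y ∈ L, e y = (S.thr x).card • e x + ∑ y ∈ univ.erase x, e y := by
    have h3 : ∑ y ∈ univ.erase x, e y = ∑ L ∈ S.thr x, ∑ y ∈ L.erase x, e y := by
      rw [← sum_fiberwise_of_maps_to (s := univ.erase x) (t := S.thr x) (g := fun y => S.ln x y)]
      · exact sum_congr rfl fun L hL => by rw [LS.fiber hL]
      · intro y hy
        exact LS.ln_mem_thr (Ne.symm (ne_of_mem_erase hy))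
    rw [h3, ← sum_const, ← sum_add_distrib]
    refine sum_congr rfl fun L hL => ?_
    rw [add_sum_erase _ _ (LS.mem_thr.1 hL).2]
  have h3 : ∑ y ∈ univ.erase x, e y = (∑ y, e y) - e x := by
    rw [← add_sum_erase univ e (mem_univ x)]; abel
  rw [h2, h3] at h1
  obtain ⟨k, hk'⟩ : ∃ k, (S.thr x).card = k + 1 := ⟨(S.thr x).card - 1, by omega⟩
  rw [hk'] at h1 ⊢
  rw [Nat.add_sub_cancel, nsmul_sub]
  rw [add_nsmul, add_nsmul, one_nsmul, one_nsmul] at h1
  have : k • (∑ y, e y) - k • e x = 0 := by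
    have h4 : k • ∑ y, e y + ∑ y, e y - (k • e x + e x + ((∑ y, e y) - e x)) = 0 := by
      rw [h1]; abel
    rw [← h4]; abel
  exact this

/-- sum of the classes for the vector `m (1 - χ_x)` -/
theorem sum_pt (m : ℤ) (x : V) :
    ∑ y, (m * if y = x then 0 else 1) • e y = m • ((∑ y, e y) - e x) := by
  have h1 : ∀ y ∈ univ, (m * if y = x then 0 else 1 : ℤ) • e y =
      m • e y - if y = x then m • e x else 0 := by
    intro y _
    by_cases h : y = x
    · subst h; simp
    · simp [h]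
  rw [sum_congr rfl h1, sum_sub_distrib, sum_ite_eq', if_pos (mem_univ x), ← smul_sum, smul_sub]

/-- the lines with positive multiplicity when `g x = 0` all pass through `x` -/
theorem LS.Dec.zero_of {g : V → ℤ} {lam : Finset V → ℕ} (hd : S.Dec g lam) {x : V} (hx : g x = 0)
    {L : Finset V} (hL : L ∈ S.lines) (hxL : x ∉ L) : lam L = 0 := by
  have h1 := hd x
  rw [hx, zero_add] at h1
  have h2 : ∑ L ∈ S.lines.filter fun L => x ∉ L, (lam L : ℤ) = 0 := by
    have h3 := sum_filter_add_sum_filter_not S.lines (fun L => x ∈ L) fun L => (lam L : ℤ)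
    have h4 : ∑ L ∈ S.thr x, (lam L : ℤ) = ∑ L ∈ S.lines.filter fun L => x ∈ L, (lam L : ℤ) := rfl
    rw [← h4, h1] at h3
    linarith
  have h3 := (sum_eq_zero_iff_of_nonneg fun L _ => Int.natCast_nonneg (lam L)).1 h2 L
    (mem_filter.2 ⟨hL, hxL⟩)
  exact_mod_cast h3

/-- exactness: `m (τ - e x) = 0` only if `k - 1` divides `m` -/
theorem HP.dvd_of_nsmul (h : HP S e) (hn : 7 ≤ Fintype.card V) {x : V} {m : ℕ}
    (hm : m • ((∑ y, e y) - e x) = 0) : (S.thr x).card - 1 ∣ m := by
  have hk := three_le_thr (S := S) hn x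
  obtain ⟨lam, hd⟩ := h.dec (fun y => m * if y = x then 0 else 1)
    (by rw [sum_pt]; rw [natCast_zsmul]; exact hm) ((LS.ConeP.pt hn x).smul m)
  have h0 : ∀ L ∈ S.lines, x ∉ L → lam L = 0 := fun L hL hxL =>
    hd.zero_of (x := x) (by simp) hL hxL
  have hs : ∑ L ∈ S.lines, (lam L : ℤ) = ∑ L ∈ S.thr x, (lam L : ℤ) := by
    have := hd x
    simpa using this.symm
  have h1 : ∀ L ∈ S.thr x, (m : ℤ) + lam L = ∑ L ∈ S.thr x, (lam L : ℤ) := by
    intro L hL
    have h3 := LS.mem_thr.1 hL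
    obtain ⟨y, hy, hyx⟩ : ∃ y ∈ L, y ≠ x := by
      apply exists_mem_ne
      have := LS.two_le h3.1
      omega
    have h4 := hd y
    simp only [if_neg hyx, mul_one] at h4
    rw [hs] at h4
    rw [← h4]
    congr 1
    symm
    apply sum_eq_single L
    · intro L' hL' hne
      have h5 := LS.mem_thr.1 hL'
      by_contra h6
      have h7 : x ∈ L' := by
        by_contra h8
        exact h6 (by rw [h0 L' h5.1 h8]; rfl)
      exact hne (LS.line_unique h5.1 h3.1 hyx h5.2 h7 hy h3.2)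
    · intro h5
      exact absurd (LS.mem_thr.2 ⟨h3.1, hy⟩) h5
  set s : ℤ := ∑ L ∈ S.thr x, (lam L : ℤ) with hsdef
  have h2 : s = (S.thr x).card * (s - m) := by
    have : s = ∑ L ∈ S.thr x, (s - m) := by
      rw [hsdef]
      refine sum_congr rfl fun L hL => ?_
      have := h1 L hL
      rw [← hsdef]
      linarith
    rw [this, sum_const, nsmul_eq_mul]
    congr 1
    rw [sum_const, nsmul_eq_mul] at this
    linarith
  have h3 : (((S.thr x).card - 1 : ℕ) : ℤ) ∣ m := by
    refine ⟨s - m, ?_⟩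
    rw [Nat.cast_sub (by omega)]
    push_cast
    linarith
  exact_mod_cast h3

/-- the order of `τ - e x` -/
theorem HP.order (h : HP S e) (hn : 7 ≤ Fintype.card V) (x : V) :
    addOrderOf ((∑ y, e y) - e x) = (S.thr x).card - 1 := by
  apply Nat.dvd_antisymm
  · exact addOrderOf_dvd_iff_nsmul_eq_zero.2 (h.nsmul_f hn x)
  · exact h.dvd_of_nsmul hn (addOrderOf_nsmul_eq_zero _)

/-- `2 ord (τ - e x) + 3 = n + o_x` -/
theorem HP.two_order (h : HP S e) (hn : 7 ≤ Fintype.card V) (x : V) :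
    2 * addOrderOf ((∑ y, e y) - e x) + 3 = Fintype.card V + (S.O x).card := by
  have h1 := LS.count (S := S) x
  have hk := three_le_thr (S := S) hn x
  rw [h.order hn x]
  omega

/-- total degree of a decomposition -/
theorem LS.Dec.total {g : V → ℤ} {lam : Finset V → ℕ} (hd : S.Dec g lam) :
    ∑ y, g y + ∑ L ∈ S.lines, (lam L : ℤ) * L.card =
      Fintype.card V * ∑ L ∈ S.lines, (lam L : ℤ) := by
  rw [← LS.total, ← sum_add_distrib, sum_congr rfl fun y _ => hd y, sum_const, card_univ,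
    nsmul_eq_mul]

/-- `τ ≠ 0` -/
theorem HP.tau_ne (h : HP S e) (hn : 7 ≤ Fintype.card V) : ∑ y, e y ≠ 0 := by
  intro h0
  have hc : S.ConeP fun _ => 1 := by
    have h1 : S.ConeP fun y => ∑ x ∈ univ, if y = x then (0 : ℤ) else 1 :=
      LS.ConeP.sum _ fun x _ => LS.ConeP.pt hn x
    refine LS.ConeP.div (N := Fintype.card V - 1) (by omega) ?_
    have h2 : (fun y : V => ∑ x ∈ univ, if y = x then (0 : ℤ) else 1) =
        fun y => ((Fintype.card V - 1 : ℕ) : ℤ) * 1 := by
      ext y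
      have h3 : ∀ x ∈ univ, (if y = x then (0 : ℤ) else 1) = 1 - if y = x then 1 else 0 := by
        intro x _
        split_ifs <;> rfl
      rw [sum_congr rfl h3, sum_sub_distrib, sum_ite_eq, if_pos (mem_univ y)]
      simp
      omega
    rwa [h2] at h1
  obtain ⟨lam, hd⟩ := h.dec (fun _ => 1) (by simpa using h0) hc
  have ht := hd.total
  have h1 : ∑ L ∈ S.lines, (lam L : ℤ) * L.card ≤ 3 * ∑ L ∈ S.lines, (lam L : ℤ) := by
    rw [mul_sum]
    refine sum_le_sum fun L hL => ?_
    have h2 := LS.le_three hL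
    have h3 : (L.card : ℤ) ≤ 3 := by exact_mod_cast h2
    have h4 : (0 : ℤ) ≤ lam L := Int.natCast_nonneg _
    nlinarith
  have h2 : 2 * ∑ L ∈ S.lines, (lam L : ℤ) ≤ ∑ L ∈ S.lines, (lam L : ℤ) * L.card := by
    rw [mul_sum]
    refine sum_le_sum fun L hL => ?_
    have h2 := LS.two_le hL
    have h3 : (2 : ℤ) ≤ L.card := by exact_mod_cast h2
    have h4 : (0 : ℤ) ≤ lam L := Int.natCast_nonneg _
    nlinarith
  have h3 : ∑ y : V, (1 : ℤ) = Fintype.card V := by simp
  rw [h3] at ht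
  set s : ℤ := ∑ L ∈ S.lines, (lam L : ℤ)
  have h4 : (0 : ℤ) ≤ s := sum_nonneg fun L _ => Int.natCast_nonneg _
  have h5 : (7 : ℤ) ≤ Fintype.card V := by exact_mod_cast hn
  rcases lt_or_ge s 2 with h6 | h6
  · have h7 : s = 0 ∨ s = 1 := by omega
    rcases h7 with h7 | h7
    · rw [h7] at ht h1 h2; linarith
    · rw [h7] at ht h1 h2; linarith
  · nlinarith

end Pool.Agent.helper25.PV
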