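import Pool.Agent.helper25.PV.F1

set_option autoImplicit false

/-!
# Project PV: the two-point criterion
-/

namespace Pool.Agent.helper25.PV

open Finset

variable {V : Type*} [Fintype V] [DecidableEq V] {S : LS V}
variable {A : Type*} [AddCommGroup A] {e : V → A}

theorem nat_sum_thr (lam : Finset V → ℕ) (w : V) :
    ∑ L ∈ S.thr w, (lam L : ℤ) = ((∑ L ∈ S.thr w, lam L : ℕ) : ℤ) := by push_cast; rfl

/-- the two-point criterion -/
theorem HP.two (h : HP S e) (hn : 7 ≤ Fintype.card V) {x y : V} (hxy : x ≠ y)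
    (hc : (S.ln x y).card = 3) {p q : ℕ}
    (hpq : p • ((∑ y, e y) - e x) + q • ((∑ y, e y) - e y) = 0) :
    ∃ (δ : ℕ) (lam : Finset V → ℕ), lam (S.ln x y) = δ ∧
      (∀ L ∈ S.lines, x ∉ L → y ∉ L → lam L = 0) ∧
      (∀ w, w ∉ S.ln x y → lam (S.ln x w) + lam (S.ln y w) = δ) ∧
      ∑ L ∈ S.thr x, lam L = δ + p ∧ ∑ L ∈ S.thr y, lam L = δ + q := by
  obtain ⟨lam, hd⟩ := h.dec
    (fun w => (p : ℤ) * (if w = x then 0 else 1) + (q : ℤ) * (if w = y then 0 else 1))
    (by
      simp only [add_smul, sum_add_distrib]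
      rw [sum_pt, sum_pt, natCast_zsmul, natCast_zsmul]
      exact hpq)
    (((LS.ConeP.pt hn x).smul p).add ((LS.ConeP.pt hn y).smul q))
  set z := S.th x y with hz
  have hzx := LS.th_ne_left hxy hc
  have hzy := LS.th_ne_right hxy hc
  have hzm := LS.th_mem hxy hc
  set s : ℤ := ∑ L ∈ S.lines, (lam L : ℤ) with hs
  have e1 : (q : ℤ) + ∑ L ∈ S.thr x, (lam L : ℤ) = s := by
    have := hd x
    simpa [hxy] using this
  have e2 : (p : ℤ) + ∑ L ∈ S.thr y, (lam L : ℤ) = s := by
    have := hd y
    simpa [hxy.symm] using this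
  have e3 : ∀ w, w ≠ x → w ≠ y → (p : ℤ) + q + ∑ L ∈ S.thr w, (lam L : ℤ) = s := by
    intro w h1 h2
    have := hd w
    simpa [h1, h2] using this
  have e4 := e3 z hzx hzy
  -- the lines through `x` or `y`
  have h1 : s = ∑ L ∈ S.thr x, (lam L : ℤ) +
      ∑ L ∈ S.lines.filter (fun L => x ∉ L), (lam L : ℤ) := by
    rw [hs]
    exact (sum_filter_add_sum_filter_not S.lines (fun L => x ∈ L) fun L => (lam L : ℤ)).symm
  have h2 : ∑ L ∈ S.lines.filter (fun L => x ∉ L), (lam L : ℤ) =
      ∑ L ∈ (S.lines.filter (fun L => x ∉ L)).filter (fun L => y ∈ L), (lam L : ℤ) +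
      ∑ L ∈ (S.lines.filter (fun L => x ∉ L)).filter (fun L => y ∉ L), (lam L : ℤ) :=
    (sum_filter_add_sum_filter_not _ (fun L => y ∈ L) fun L => (lam L : ℤ)).symm
  have h3 : ∑ L ∈ S.thr y, (lam L : ℤ) = lam (S.ln x y) +
      ∑ L ∈ (S.lines.filter (fun L => x ∉ L)).filter (fun L => y ∈ L), (lam L : ℤ) := by
    rw [← sum_filter_add_sum_filter_not (S.thr y) (fun L => x ∈ L) fun L => (lam L : ℤ)]
    congr 1
    · have : (S.thr y).filter (fun L => x ∈ L) = {S.ln x y} := by
        ext L
        simp only [mem_filter, LS.mem_thr, mem_singleton]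
        constructor
        · rintro ⟨⟨h1, h2⟩, h3⟩
          exact (LS.eq_ln h1 hxy h3 h2).symm
        · rintro rfl
          exact ⟨⟨LS.ln_mem hxy, S.right hxy⟩, S.left hxy⟩
      rw [this, sum_singleton]
    · refine sum_congr ?_ fun _ _ => rfl
      ext L
      simp only [mem_filter, LS.mem_thr]
      tauto
  have h4 : (0 : ℤ) ≤ ∑ L ∈ (S.lines.filter (fun L => x ∉ L)).filter (fun L => y ∉ L),
      (lam L : ℤ) := sum_nonneg fun L _ => Int.natCast_nonneg _
  have h5 : (lam (S.ln x y) : ℤ) ≤ ∑ L ∈ S.thr z, (lam L : ℤ) :=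
    single_le_sum (f := fun L => (lam L : ℤ)) (fun L _ => Int.natCast_nonneg _)
      (LS.mem_thr.2 ⟨LS.ln_mem hxy, hzm⟩)
  have h6 : ∑ L ∈ (S.lines.filter (fun L => x ∉ L)).filter (fun L => y ∉ L),
      (lam L : ℤ) = 0 := by linarith
  have h7 : (lam (S.ln x y) : ℤ) = ∑ L ∈ S.thr z, (lam L : ℤ) := by linarith
  have h0 : ∀ L ∈ S.lines, x ∉ L → y ∉ L → lam L = 0 := by
    intro L hL hx hy
    have := (sum_eq_zero_iff_of_nonneg fun L _ => Int.natCast_nonneg (lam L)).1 h6 L
      (mem_filter.2 ⟨mem_filter.2 ⟨hL, hx⟩, hy⟩)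
    exact_mod_cast this
  refine ⟨lam (S.ln x y), lam, rfl, h0, ?_, ?_, ?_⟩
  · intro w hw
    have hwx : w ≠ x := fun h => hw (by rw [h]; exact S.left hxy)
    have hwy : w ≠ y := fun h => hw (by rw [h]; exact S.right hxy)
    have hne : S.ln x w ≠ S.ln y w := by
      intro h8
      have h9 : y ∈ S.ln x w := by rw [h8]; exact S.left hwy.symm
      have h10 := LS.eq_ln (LS.ln_mem hwx.symm) hxy (S.left hwx.symm) h9
      exact hw (by rw [h10]; exact S.right hwx.symm)
    have h8 := e3 w hwx hwy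
    have h9 : ∑ L ∈ S.thr w, (lam L : ℤ) = lam (S.ln x w) + lam (S.ln y w) := by
      rw [← sum_pair (f := fun L => (lam L : ℤ)) hne]
      symm
      apply sum_subset
      · intro L hL
        simp only [mem_insert, mem_singleton] at hL
        rcases hL with rfl | rfl
        · exact LS.mem_thr.2 ⟨LS.ln_mem hwx.symm, S.right hwx.symm⟩
        · exact LS.mem_thr.2 ⟨LS.ln_mem hwy.symm, S.right hwy.symm⟩
      · intro L hL hL'
        have h10 := LS.mem_thr.1 hL
        simp only [mem_insert, mem_singleton, not_or] at hL'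
        have h11 : x ∉ L := fun h12 => hL'.1 (LS.eq_ln h10.1 hwx.symm h12 h10.2).symm
        have h12 : y ∉ L := fun h12 => hL'.2 (LS.eq_ln h10.1 hwy.symm h12 h10.2).symm
        rw [h0 L h10.1 h11 h12]
        rfl
    have h10 : (lam (S.ln x w) : ℤ) + lam (S.ln y w) = lam (S.ln x y) := by
      rw [← h9, h7]; linarith
    exact_mod_cast h10
  · have : ∑ L ∈ S.thr x, (lam L : ℤ) = lam (S.ln x y) + p := by rw [h7]; linarith
    rw [nat_sum_thr] at this
    exact_mod_cast this
  · have : ∑ L ∈ S.thr y, (lam L : ℤ) = lam (S.ln x y) + q := by rw [h7]; linarith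
    rw [nat_sum_thr] at this
    exact_mod_cast this

theorem four_le_thr (hn : 8 ≤ Fintype.card V) (x : V) : 4 ≤ (S.thr x).card := by
  have := LS.count (S := S) x
  omega

/-- two collinear points with the same class have a common ordinary neighbour -/
theorem HP.common (h : HP S e) (hn : 8 ≤ Fintype.card V) {x y : V} (hxy : x ≠ y)
    (hc : (S.ln x y).card = 3) (he : e x = e y) : ∃ w, w ∈ S.O x ∧ w ∈ S.O y := by
  have hk := four_le_thr (S := S) hn y
  obtain ⟨δ, lam, h1, h2, h3, h4, h5⟩ := h.two (by omega) hxy hc (p := 1) (q := (S.thr y).card - 2)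
    (by
      rw [he, ← add_nsmul]
      have : 1 + ((S.thr y).card - 2) = (S.thr y).card - 1 := by omega
      rw [this]
      exact h.nsmul_f (by omega) y)
  have hℓ : S.ln x y ∈ S.thr x := LS.ln_mem_thr hxy
  rw [← add_sum_erase _ _ hℓ, h1] at h4
  have h6 : ∑ L ∈ (S.thr x).erase (S.ln x y), lam L = 1 := by omega
  obtain ⟨L0, hL0, hne⟩ : ∃ L ∈ (S.thr x).erase (S.ln x y), lam L ≠ 0 := by
    by_contra h7
    push Not at h7
    rw [sum_eq_zero h7] at h6
    omega
  rw [← add_sum_erase _ _ hL0] at h6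
  have h7 : lam L0 = 1 := by omega
  have h8 : ∀ L ∈ S.thr x, L ≠ S.ln x y → L ≠ L0 → lam L = 0 := by
    intro L hL h9 h10
    have h11 : ∑ L ∈ ((S.thr x).erase (S.ln x y)).erase L0, lam L = 0 := by omega
    exact sum_eq_zero_iff.1 h11 L (mem_erase.2 ⟨h10, mem_erase.2 ⟨h9, hL⟩⟩)
  rw [mem_erase, LS.mem_thr] at hL0
  obtain ⟨hL0ne, hL0l, hxL0⟩ := hL0
  -- points of `L0` other than `x`
  have h9 : ∀ w ∈ L0, w ≠ x → w ∉ S.ln x y ∧ S.ln x w = L0 ∧ w ≠ y := by
    intro w hw hwx
    have h10 : w ∉ S.ln x y := fun h11 =>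
      hL0ne (LS.line_unique hL0l (LS.ln_mem hxy) hwx.symm hxL0 hw (S.left hxy) h11)
    refine ⟨h10, LS.eq_ln hL0l hwx.symm hxL0 hw, ?_⟩
    intro h11
    exact h10 (by rw [h11]; exact S.right hxy)
  have hyL0 : y ∉ L0 := fun hy => (h9 y hy hxy.symm).2.2 rfl
  have h10 : ∀ w ∈ L0, w ≠ x → lam (S.ln y w) + 1 = δ ∧ (S.ln y w).card = 2 := by
    intro w hw hwx
    obtain ⟨h11, h12, h13⟩ := h9 w hw hwx
    have h14 := h3 w h11
    rw [h12, h7] at h14
    refine ⟨by omega, ?_⟩
    rcases LS.card_cases (S := S) h13.symm with h15 | h15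
    · exact h15
    · exfalso
      set u := S.th y w with hu
      have hum := LS.th_mem h13.symm h15
      have huy := LS.th_ne_left h13.symm h15
      have huw := LS.th_ne_right h13.symm h15
      rw [← hu] at hum huy huw
      have hul : u ∉ S.ln x y := by
        intro h16
        have h17 := LS.line_unique (LS.ln_mem h13.symm) (LS.ln_mem hxy) huy
          hum (S.left h13.symm) h16 (S.right hxy)
        exact h11 (by rw [← h17]; exact S.right h13.symm)
      have hux : u ≠ x := fun h16 => hul (by rw [h16]; exact S.left hxy)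
      have h16 := h3 u hul
      have h17 : S.ln y u = S.ln y w := LS.eq_ln (LS.ln_mem h13.symm) huy.symm
        (S.left h13.symm) hum
      rw [h17] at h16
      have h18 : S.ln x u = L0 := by
        by_contra h19
        have h20 := h8 (S.ln x u) (LS.ln_mem_thr hux.symm)
          (fun h21 => hul (by rw [← h21]; exact S.right hux.symm)) h19
        omega
      have h19 : u ∈ L0 := by rw [← h18]; exact S.right hux.symm
      have h20 := LS.line_unique hL0l (LS.ln_mem h13.symm) huw h19 hw hum (S.right h13.symm)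
      exact hyL0 (by rw [h20]; exact S.left h13.symm)
  obtain ⟨w, hw, hwx⟩ : ∃ w ∈ L0, w ≠ x := by
    apply exists_mem_ne
    have := LS.two_le hL0l
    omega
  obtain ⟨h11, h12, h13⟩ := h9 w hw hwx
  obtain ⟨h14, h15⟩ := h10 w hw hwx
  rcases LS.card_cases (S := S) hwx.symm with h16 | h16
  · exact ⟨w, LS.mem_O.2 ⟨hwx, h16⟩, LS.mem_O.2 ⟨h13, h15⟩⟩
  · exfalso
    set w' := S.th x w with hw'
    have hm' : w' ∈ L0 := by rw [← h12]; exact LS.th_mem hwx.symm h16
    have hx' : w' ≠ x := LS.th_ne_left hwx.symm h16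
    have hww' : w' ≠ w := LS.th_ne_right hwx.symm h16
    obtain ⟨h11', h12', h13'⟩ := h9 w' hm' hx'
    obtain ⟨h14', h15'⟩ := h10 w' hm' hx'
    have hne' : S.ln y w ≠ S.ln y w' := by
      intro h17
      have h18 : w' ∈ S.ln y w := by rw [h17]; exact S.right h13'.symm
      rw [LS.ln_eq_pair h13.symm h15] at h18
      simp only [mem_insert, mem_singleton] at h18
      rcases h18 with h18 | h18
      · exact h13' h18
      · exact hww' h18
    have h17 : ∀ L ∈ S.thr y, lam L + ((if L = S.ln y w then 1 else 0) +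
        (if L = S.ln y w' then 1 else 0)) = δ := by
      intro L hL
      have hL' := LS.mem_thr.1 hL
      by_cases h18 : L = S.ln y w
      · rw [if_pos h18, if_neg (by rw [h18]; exact hne'), h18]
        omega
      by_cases h19 : L = S.ln y w'
      · rw [if_neg h18, if_pos h19, h19]
        omega
      rw [if_neg h18, if_neg h19]
      by_cases h20 : L = S.ln x y
      · rw [h20, h1]; omega
      obtain ⟨u, hu, huy⟩ : ∃ u ∈ L, u ≠ y := by
        apply exists_mem_ne
        have := LS.two_le hL'.1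
        omega
      have h21 : u ∉ S.ln x y := fun h22 =>
        h20 (LS.line_unique hL'.1 (LS.ln_mem hxy) huy hu hL'.2 h22 (S.right hxy))
      have h22 : S.ln y u = L := LS.eq_ln hL'.1 huy.symm hL'.2 hu
      have hux : u ≠ x := fun h23 => h21 (by rw [h23]; exact S.left hxy)
      have h23 := h3 u h21
      rw [h22] at h23
      have h24 : lam (S.ln x u) = 0 := by
        apply h8 _ (LS.ln_mem_thr hux.symm)
        · intro h25
          exact h21 (by rw [← h25]; exact S.right hux.symm)
        · intro h25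
          have h26 : u ∈ L0 := by rw [← h25]; exact S.right hux.symm
          have h27 : u = w ∨ u = w' := by
            rw [← h12, LS.ln_eq_th hwx.symm h16] at h26
            simp only [mem_insert, mem_singleton] at h26
            rcases h26 with h26 | h26 | h26
            · exact absurd h26 hux
            · exact Or.inl h26
            · exact Or.inr h26
          rcases h27 with rfl | h27
          · exact h18 h22.symm
          · exact h19 (by rw [← h27]; exact h22.symm)
      omega
    have h18 := sum_congr rfl h17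
    rw [sum_add_distrib, sum_add_distrib, sum_ite_eq', sum_ite_eq', if_pos (LS.ln_mem_thr h13.symm),
      if_pos (LS.ln_mem_thr h13'.symm), sum_const, smul_eq_mul, h5] at h18
    obtain ⟨k, hk'⟩ : ∃ k, (S.thr y).card = k + 4 := ⟨(S.thr y).card - 4, by omega⟩
    rw [hk'] at h18
    have h19 : δ + (k + 4) = (k + 4) * δ := by omega
    rcases Nat.lt_or_ge δ 2 with h20 | h20
    · interval_cases δ <;> omega
    · nlinarith

end Pool.Agent.helper25.PV
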