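import Pool.Agent.helper25.PV.Pasch

set_option autoImplicit false

/-!
# Project PV: no free point beside a three-point line
-/

namespace Pool.Agent.helper25.PV

open Finset

variable {V : Type*} [Fintype V] [DecidableEq V] {S : LS V}
variable {A : Type*} [AddCommGroup A] {e : V → A}

theorem LS.sum_off {x : V} {ℓ : Finset V} (hℓ : ℓ ∈ S.lines) (hx : x ∈ ℓ) (ψ : Finset V → ℕ) :
    ∑ w ∈ univ \ ℓ, ψ (S.ln x w) = ∑ L ∈ (S.thr x).erase ℓ, ψ L * (L.card - 1) := by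
  have hmaps : ∀ w ∈ univ \ ℓ, S.ln x w ∈ (S.thr x).erase ℓ := by
    intro w hw
    have hwl : w ∉ ℓ := (mem_sdiff.1 hw).2
    have hwx : w ≠ x := fun h => hwl (by rw [h]; exact hx)
    refine mem_erase.2 ⟨?_, LS.ln_mem_thr hwx.symm⟩
    intro h
    exact hwl (by rw [← h]; exact S.right hwx.symm)
  rw [← sum_fiberwise_of_maps_to hmaps]
  refine sum_congr rfl fun L hL => ?_
  have hL1 := mem_erase.1 hL
  have hL2 := LS.mem_thr.1 hL1.2
  have h1 : (univ \ ℓ).filter (fun w => S.ln x w = L) = L.erase x := by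
    ext w
    simp only [mem_filter, mem_sdiff, mem_univ, true_and, mem_erase]
    constructor
    · rintro ⟨h1, rfl⟩
      have hwx : w ≠ x := fun h => h1 (by rw [h]; exact hx)
      exact ⟨hwx, S.right hwx.symm⟩
    · rintro ⟨h1, h2⟩
      refine ⟨fun h3 => ?_, LS.eq_ln hL2.1 h1.symm hL2.2 h2⟩
      exact hL1.1 (LS.line_unique hL2.1 hℓ h1 h2 hL2.2 h3 hx)
  rw [h1, sum_congr rfl fun w hw => by
    rw [LS.eq_ln hL2.1 (ne_of_mem_erase hw).symm hL2.2 (mem_of_mem_erase hw)], sum_const,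
    smul_eq_mul, card_erase_of_mem hL2.2, mul_comm]

theorem HP.free (h : HP S e) (hn : 7 ≤ Fintype.card V) {o : V}
    (ho : ∀ v, v ≠ o → (S.ln o v).card = 2) {x y : V} (hxy : x ≠ y) (hc : (S.ln x y).card = 3) :
    False := by
  have hxo : x ≠ o := by
    rintro rfl
    rw [ho y hxy.symm] at hc
    omega
  have hyo : y ≠ o := by
    rintro rfl
    rw [LS.ln_symm hxy, ho x hxy] at hc
    omega
  set τ : A := ∑ y, e y with hτdef
  have hpair : ∀ w, w ≠ o → e w = τ - e o := by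
    intro w hw
    have h1 := h.rel _ (LS.ln_mem (S := S) hw.symm)
    rw [LS.ln_eq_pair hw.symm (ho w hw), sum_pair hw.symm] at h1
    rw [hτdef, ← h1]
    abel
  set β : A := τ - e o with hβdef
  have hzo : S.th x y ≠ o := by
    intro h1
    have h2 := LS.th_mem hxy hc
    rw [h1] at h2
    have h3 : S.ln o x = S.ln x y := S.uniq hxy hxo.symm h2 (S.left hxy)
    rw [← h3, ho x hxo] at hc
    omega
  have hτ : β + β + β = τ := by
    have h1 := h.rel _ (LS.ln_mem (S := S) hxy)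
    have hs := LS.th_spec hxy hc
    rw [hs.2.2, sum_insert (by simp [hxy, hs.1.symm]), sum_pair hs.2.1.symm, hpair x hxo,
      hpair y hyo, hpair _ hzo] at h1
    rw [hτdef, ← h1]
    abel
  have htr : ∀ w w', w ≠ w' → w ≠ o → w' ≠ o → (S.ln w w').card = 3 := by
    intro w w' h1 h2 h3
    rcases LS.card_cases (S := S) h1 with h4 | h4
    · exfalso
      have h5 := h.rel _ (LS.ln_mem (S := S) h1)
      rw [LS.ln_eq_pair h1 h4, sum_pair h1, hpair w h2, hpair w' h3, ← hτdef] at h5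
      have h6 : β = 0 := by
        have h7 : β = (β + β + β) - (β + β) := by abel
        rw [h7, hτ, h5, sub_self]
      exact h.tau_ne hn (by rw [← hτdef, ← hτ, h6]; simp)
    · exact h4
  have hO : ∀ w, w ≠ o → (S.O w).card = 1 := by
    intro w hw
    have : S.O w = {o} := by
      ext v
      rw [LS.mem_O, mem_singleton]
      constructor
      · rintro ⟨h1, h2⟩
        by_contra h3
        rw [htr w v h1.symm hw h3] at h2
        omega
      · rintro rfl
        exact ⟨hw.symm, by rw [LS.ln_symm hw]; exact ho w hw⟩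
    rw [this, card_singleton]
  have hkx := LS.count (S := S) x
  have hky := LS.count (S := S) y
  rw [hO x hxo] at hkx
  rw [hO y hyo] at hky
  obtain ⟨k, hk⟩ : ∃ k, (S.thr y).card = k + 4 := ⟨(S.thr y).card - 4, by omega⟩
  have hkx' : (S.thr x).card = k + 4 := by omega
  obtain ⟨δ, lam, h1, h2, h3, h4, h5⟩ := h.two hn hxy hc (p := 2) (q := k + 1)
    (by
      rw [hpair x hxo, hpair y hyo, ← add_nsmul]
      have h1 := h.nsmul_f hn y
      rw [hpair y hyo, hk] at h1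
      have h2 : 2 + (k + 1) = k + 4 - 1 := by omega
      rw [h2]
      exact h1)
  set ℓ := S.ln x y with hℓdef
  have hℓ : ℓ ∈ S.lines := LS.ln_mem hxy
  have hxℓ : x ∈ ℓ := S.left hxy
  have hyℓ : y ∈ ℓ := S.right hxy
  have hℓx : ℓ ∈ S.thr x := LS.mem_thr.2 ⟨hℓ, hxℓ⟩
  have hℓy : ℓ ∈ S.thr y := LS.mem_thr.2 ⟨hℓ, hyℓ⟩
  rw [← add_sum_erase _ _ hℓx, h1] at h4
  rw [← add_sum_erase _ _ hℓy, h1] at h5
  have h4' : ∑ L ∈ (S.thr x).erase ℓ, lam L = 2 := by omega
  have h5' : ∑ L ∈ (S.thr y).erase ℓ, lam L = k + 1 := by omega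
  -- a line through `x` other than `ℓ`: a point off `ℓ`
  have hoff : ∀ {p : V} {L : Finset V}, p ∈ ℓ → L ∈ (S.thr p).erase ℓ →
      ∃ w, w ∉ ℓ ∧ w ≠ p ∧ w ∈ L ∧ S.ln p w = L := by
    intro p L hp hL
    have hL1 := mem_erase.1 hL
    have hL2 := LS.mem_thr.1 hL1.2
    obtain ⟨w, hw, hwp⟩ : ∃ w ∈ L, w ≠ p := by
      apply exists_mem_ne
      have := LS.two_le hL2.1
      omega
    exact ⟨w, fun h6 => hL1.1 (LS.line_unique hL2.1 hℓ hwp hw hL2.2 h6 hp), hwp, hw,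
      LS.eq_ln hL2.1 hwp.symm hL2.2 hw⟩
  have hlx : ∀ L ∈ (S.thr x).erase ℓ, lam L ≤ δ := by
    intro L hL
    obtain ⟨w, hw, -, -, h6⟩ := hoff hxℓ hL
    have := h3 w hw
    rw [h6] at this
    omega
  have hly : ∀ L ∈ (S.thr y).erase ℓ, lam L ≤ δ := by
    intro L hL
    obtain ⟨w, hw, -, -, h6⟩ := hoff hyℓ hL
    have := h3 w hw
    rw [h6] at this
    omega
  have hδ1 : 1 ≤ δ := by
    by_contra h6
    have h7 : ∑ L ∈ (S.thr x).erase ℓ, lam L = 0 := by
      refine sum_eq_zero fun L hL => ?_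
      have := hlx L hL
      omega
    omega
  have hT : ∑ w ∈ univ \ ℓ, lam (S.ln x w) ≤ 4 := by
    rw [LS.sum_off hℓ hxℓ]
    calc ∑ L ∈ (S.thr x).erase ℓ, lam L * (L.card - 1) ≤ ∑ L ∈ (S.thr x).erase ℓ, lam L * 2 := by
          refine sum_le_sum fun L hL => Nat.mul_le_mul_left _ ?_
          have := LS.le_three (LS.mem_thr.1 (mem_of_mem_erase hL)).1
          omega
      _ = 4 := by rw [← sum_mul, h4']; norm_num
  have hTT : ∑ w ∈ univ \ ℓ, lam (S.ln x w) + ∑ w ∈ univ \ ℓ, lam (S.ln y w) =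
      (univ \ ℓ).card * δ := by
    rw [← sum_add_distrib, sum_congr rfl fun w hw => h3 w (mem_sdiff.1 hw).2, sum_const,
      smul_eq_mul]
  have hcnt : (univ \ ℓ).card = ∑ L ∈ (S.thr y).erase ℓ, (L.card - 1) := by
    have := LS.sum_off hℓ hyℓ (fun _ => 1)
    simpa using this
  have hge : (k + 3) * δ + ∑ w ∈ univ \ ℓ, lam (S.ln y w) ≤ (k + 1) + (univ \ ℓ).card * δ := by
    rw [LS.sum_off hℓ hyℓ, hcnt, sum_mul, ← h5']
    have h6 : (k + 3) * δ = ∑ L ∈ (S.thr y).erase ℓ, δ := by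
      rw [sum_const, smul_eq_mul, card_erase_of_mem hℓy, hk]
      rfl
    rw [h6, ← sum_add_distrib, ← sum_add_distrib]
    refine sum_le_sum fun L hL => ?_
    have h7 := hly L hL
    have h8 := LS.two_le (LS.mem_thr.1 (mem_of_mem_erase hL)).1
    obtain ⟨c, hc'⟩ : ∃ c, L.card - 1 = c + 1 := ⟨L.card - 2, by omega⟩
    rw [hc']
    have h9 : lam L * c ≤ c * δ := by rw [mul_comm]; exact Nat.mul_le_mul_left _ h7
    nlinarith
  have hδ : δ = 1 := by
    rcases Nat.lt_or_ge δ 2 with h6 | h6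
    · omega
    · exfalso
      have h7 : (k + 3) * 2 ≤ (k + 3) * δ := Nat.mul_le_mul_left _ h6
      omega
  subst hδ
  -- the first line
  obtain ⟨L1, hL1, hL1ne, hL1l⟩ : ∃ L ∈ (S.thr x).erase ℓ, L ≠ S.ln x o ∧ lam L = 1 := by
    by_contra h6
    push Not at h6
    have hoL : S.ln x o ∈ (S.thr x).erase ℓ := by
      refine mem_erase.2 ⟨?_, LS.ln_mem_thr hxo⟩
      intro h7
      have h8 : (S.ln x o).card = 2 := by rw [LS.ln_symm hxo]; exact ho x hxo
      rw [h7, hc] at h8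
      omega
    have h7 : ∑ L ∈ (S.thr x).erase ℓ, lam L = lam (S.ln x o) := by
      apply sum_eq_single
      · intro L hL hne
        have h8 := h6 L hL hne
        have h9 := hlx L hL
        omega
      · exact fun h8 => absurd hoL h8
    have h8 := hlx _ hoL
    omega
  have hL1' := LS.mem_thr.1 (mem_of_mem_erase hL1)
  have hoL1 : o ∉ L1 := fun h6 => hL1ne (LS.eq_ln hL1'.1 hxo hL1'.2 h6).symm
  obtain ⟨u, huℓ, hux, huL, hxu⟩ := hoff hxℓ hL1
  have huo : u ≠ o := fun h6 => hoL1 (h6 ▸ huL)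
  have hcu : (S.ln x u).card = 3 := htr x u hux.symm hxo huo
  set v := S.th x u with hv
  have hvx : v ≠ x := LS.th_ne_left hux.symm hcu
  have hvu : v ≠ u := LS.th_ne_right hux.symm hcu
  have hvL : v ∈ L1 := by rw [← hxu]; exact LS.th_mem hux.symm hcu
  have hvo : v ≠ o := fun h6 => hoL1 (h6 ▸ hvL)
  have hvℓ : v ∉ ℓ := fun h6 =>
    (ne_of_mem_erase hL1) (LS.line_unique hL1'.1 hℓ hvx hvL hL1'.2 h6 hxℓ)
  have hxv : S.ln x v = L1 := LS.eq_ln hL1'.1 hvx.symm hL1'.2 hvL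
  have hyu : y ≠ u := fun h6 => huℓ (h6 ▸ hyℓ)
  have hyv : y ≠ v := fun h6 => hvℓ (h6 ▸ hyℓ)
  have hyL1 : y ∉ L1 := fun h6 =>
    (ne_of_mem_erase hL1) (LS.line_unique hL1'.1 hℓ hxy.symm h6 hL1'.2 hyℓ hxℓ)
  -- third points on the lines through `y`
  have hthird : ∀ w, w ≠ o → w ∉ ℓ → lam (S.ln x w) = 1 → S.th y w ∉ ℓ ∧ S.th y w ≠ y ∧
      S.th y w ≠ w ∧ S.th y w ≠ o ∧ lam (S.ln x (S.th y w)) = 1 ∧
      S.ln y w = {y, w, S.th y w} := by
    intro w hwo hwℓ hw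
    have hyw : y ≠ w := fun h6 => hwℓ (h6 ▸ hyℓ)
    have hcw := htr y w hyw hyo hwo
    have hs := LS.th_spec hyw hcw
    have hm := LS.th_mem hyw hcw
    have h6 : S.th y w ∉ ℓ := by
      intro h7
      have h8 := LS.line_unique (LS.ln_mem hyw) hℓ hs.1 hm (S.left hyw) h7 hyℓ
      exact hwℓ (by rw [← h8]; exact S.right hyw)
    refine ⟨h6, hs.1, hs.2.1, ?_, ?_, hs.2.2⟩
    · intro h7
      rw [h7] at hm
      have h8 : S.ln y o = S.ln y w := S.uniq hyw hyo (S.left hyw) hm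
      have h9 : (S.ln y o).card = 2 := by rw [LS.ln_symm hyo]; exact ho y hyo
      rw [h8, hcw] at h9
      omega
    · have h7 := h3 w hwℓ
      have h8 := h3 _ h6
      rw [LS.ln_th hyw hcw] at h8
      omega
  obtain ⟨a1, a2, a3, a4, a5, a6⟩ := hthird u huo huℓ (by rw [hxu]; exact hL1l)
  obtain ⟨b1, b2, b3, b4, b5, b6⟩ := hthird v hvo hvℓ (by rw [hxv]; exact hL1l)
  set u' := S.th y u with hu'
  set v' := S.th y v with hv'
  have hu'x : u' ≠ x := fun h6 => a1 (h6 ▸ hxℓ)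
  have hv'x : v' ≠ x := fun h6 => b1 (h6 ▸ hxℓ)
  have hu'L1 : u' ∉ L1 := by
    intro h6
    have h7 := LS.line_unique hL1'.1 (LS.ln_mem hyu) a3 h6 huL (by rw [a6]; simp)
      (S.right hyu)
    exact hyL1 (by rw [h7]; exact S.left hyu)
  have hv'L1 : v' ∉ L1 := by
    intro h6
    have h7 := LS.line_unique hL1'.1 (LS.ln_mem hyv) b3 h6 hvL (by rw [b6]; simp)
      (S.right hyv)
    exact hyL1 (by rw [h7]; exact S.left hyv)
  have hu'v' : u' ≠ v' := by
    intro h6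
    have h7 : S.ln y u = S.ln y v := LS.line_unique (LS.ln_mem hyu) (LS.ln_mem hyv) a2
      (by rw [a6]; simp) (S.left hyu) (by rw [b6, h6]; simp) (S.left hyv)
    have h8 : v ∈ S.ln y u := by rw [h7]; exact S.right hyv
    have h9 := LS.line_unique hL1'.1 (LS.ln_mem hyu) hvu hvL huL h8 (S.right hyu)
    exact hyL1 (by rw [h9]; exact S.left hyu)
  have hL2 : S.ln x u' = S.ln x v' := by
    by_contra h6
    have m1 : S.ln x u' ∈ (S.thr x).erase ℓ := mem_erase.2
      ⟨fun h7 => a1 (by rw [← h7]; exact S.right hu'x.symm), LS.ln_mem_thr hu'x.symm⟩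
    have m2 : S.ln x v' ∈ (S.thr x).erase ℓ := mem_erase.2
      ⟨fun h7 => b1 (by rw [← h7]; exact S.right hv'x.symm), LS.ln_mem_thr hv'x.symm⟩
    have n1 : L1 ≠ S.ln x u' := fun h7 => hu'L1 (by rw [h7]; exact S.right hu'x.symm)
    have n2 : L1 ≠ S.ln x v' := fun h7 => hv'L1 (by rw [h7]; exact S.right hv'x.symm)
    have h7 : ∑ L ∈ {L1, S.ln x u', S.ln x v'}, lam L ≤ ∑ L ∈ (S.thr x).erase ℓ, lam L := by
      apply sum_le_sum_of_subset
      intro L hL
      simp only [mem_insert, mem_singleton] at hL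
      rcases hL with rfl | rfl | rfl
      · exact hL1
      · exact m1
      · exact m2
    rw [sum_insert (by simp [n1, n2]), sum_pair h6, hL1l, a5, b5, h4'] at h7
    omega
  have hv'm : v' ∈ S.ln x u' := by rw [hL2]; exact S.right hv'x.symm
  have hth := LS.th_unique hu'x.symm hv'm hv'x hu'v'.symm
  have hcu' := hth.1
  refine pasch_kill h hn ho htr hpair hτ (x := x) (y := y) (u := u) (v := v) (u' := u') (v' := v')
    ⟨hxy, hux.symm, hvx.symm, hu'x.symm, hv'x.symm, hyu, hyv, a2.symm, b2.symm, hvu.symm, a3.symm,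
      ?_, ?_, b3.symm, hu'v', hxo.symm, hyo.symm, huo.symm, hvo.symm, a4.symm, b4.symm, ?_, ?_, a6,
      b6⟩
  · exact fun h6 => hv'L1 (h6 ▸ huL)
  · exact fun h6 => hu'L1 (h6 ▸ hvL)
  · exact LS.ln_eq_th hux.symm hcu
  · rw [LS.ln_eq_th hu'x.symm hcu', hth.2]

end Pool.Agent.helper25.PV
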