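import Pool.Agent.helper25.PV.Sp1

set_option autoImplicit false
set_option linter.unusedSectionVars false
set_option linter.unusedVariables false

/-!
# Project PV: the two kinds of Steiner triple systems
-/

namespace Pool.Agent.helper25.PV

open Finset

variable {V : Type*} [Fintype V] [DecidableEq V] {S : LS V}
variable {A : Type*} [AddCommGroup A] {e : V → A}

/-- projective or affine -/
theorem HP.dich (h : HP S e) (hn : 8 ≤ Fintype.card V) (hinj : Function.Injective e)
    (h3 : ∀ x y, x ≠ y → (S.ln x y).card = 3) :
    (∀ x, e x + e x + e x = ∑ y, e y) ∨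
    ∃ u : A, (∀ x, e x + e x = u) ∧ u + u + u = ∑ y, e y + ∑ y, e y := by
  set τ : A := ∑ y, e y with hτ
  have hth : ∀ x y, x ≠ y → e (S.th x y) = τ - e x - e y := fun x y hxy =>
    h.third_eq hxy (h3 x y hxy)
  have hne : ∀ x y, x ≠ y → S.th x y ≠ x ∧ S.th x y ≠ y := fun x y hxy =>
    ⟨LS.th_ne_left hxy (h3 x y hxy), LS.th_ne_right hxy (h3 x y hxy)⟩
  by_cases hP : ∀ x y w, x ≠ y → ∃ v, e v = e w + e x - e y
  · left
    intro y
    obtain ⟨x, hxy⟩ : ∃ x, x ≠ y := by
      by_contra h1
      push Not at h1
      have h3 : (univ : Finset V) ⊆ {y} := fun z _ => mem_singleton.2 (h1 z)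
      have h4 := card_le_card h3
      rw [card_univ, card_singleton] at h4
      omega
    obtain ⟨v, hv⟩ := hP x y (S.th x y) hxy
    rw [hth x y hxy] at hv
    by_cases hvy : v = y
    · rw [hvy] at hv
      have h1 : e y + e y + e y = e y + (e y + e y) := by abel
      rw [h1]
      nth_rewrite 1 [hv]
      abel
    · exfalso
      apply (hne v y hvy).2
      apply hinj
      rw [hth v y hvy, hv]
      abel
  · right
    push Not at hP
    obtain ⟨x, y, w0, hxy, hw0⟩ := hP
    set d : A := e x - e y with hd
    have hd0 : d ≠ 0 := by
      intro h1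
      exact hxy (hinj (sub_eq_zero.1 h1))
    -- for any pair `v, b` with `e v - e b = d`
    have hpair : ∀ v b, e v = e b + d → w0 = v ∨ w0 = S.th v b := by
      intro v b hvb
      have hvb' : v ≠ b := by
        rintro rfl
        exact hd0 (by
          have h1 : d = (e v + d) - e v := by abel
          rw [h1, ← hvb, sub_self])
      by_contra h1
      push Not at h1
      obtain ⟨h1, h2⟩ := h1
      have h4 : S.th v w0 ≠ b := by
        intro h4
        apply h2
        rw [← h4, LS.th_th (Ne.symm h1) (h3 v w0 (Ne.symm h1))]
      apply hw0 (S.th b (S.th v w0))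
      rw [hth b _ (Ne.symm h4), hth v w0 (Ne.symm h1), hvb, hd]
      abel
    set u : A := τ - d - e w0 with hu
    -- the bad points
    classical
    set B : Finset V := {x, S.th x y} ∪ univ.filter (fun b => e b = e w0 - d) with hB
    have hBc : B.card ≤ 3 := by
      have h1 : (univ.filter fun b => e b = e w0 - d).card ≤ 1 := by
        rw [card_le_one]
        intro a ha b hb
        apply hinj
        rw [(mem_filter.1 ha).2, (mem_filter.1 hb).2]
      calc B.card ≤ ({x, S.th x y} : Finset V).card + _ := card_union_le _ _
        _ ≤ 2 + 1 := Nat.add_le_add card_le_two h1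
    have hgood : ∀ b, b ∉ B → e b + e b = u := by
      intro b hb
      rw [hB, mem_union, not_or, mem_filter, mem_insert, mem_singleton, not_or] at hb
      obtain ⟨⟨hb1, hb2⟩, hb3⟩ := hb
      have hb3 : e b ≠ e w0 - d := fun h4 => hb3 ⟨mem_univ _, h4⟩
      by_cases hv : ∃ v, e v = e b + d
      · obtain ⟨v, hv⟩ := hv
        have hvb' : v ≠ b := by
          rintro rfl
          exact hd0 (by
            have h1 : d = (e v + d) - e v := by abel
            rw [h1, ← hv, sub_self])
        rcases hpair v b hv with h4 | h4
        · exfalso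
          apply hb3
          rw [h4, hv]; abel
        · have h5 := hth v b hvb'
          rw [← h4, hv] at h5
          rw [hu, h5]; abel
      · exfalso
        push Not at hv
        -- `b` is moved by the pair `x, y`
        have hxb : x ≠ b := Ne.symm hb1
        have h4 : S.th x b ≠ y := by
          intro h4
          apply hb2
          rw [← h4, LS.th_th hxb (h3 x b hxb)]
        apply hv (S.th y (S.th x b))
        rw [hth y _ (Ne.symm h4), hth x b hxb, hd]
        abel
    have hall : ∀ w, ∃ b, b ≠ w ∧ b ∉ B ∧ S.th w b ∉ B := by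
      intro w
      by_contra h1
      push Not at h1
      have h2 : (univ : Finset V) ⊆ insert w (B ∪ B.image fun b => S.th w b) := by
        intro b _
        rw [mem_insert, mem_union, mem_image]
        by_cases h4 : b = w
        · exact Or.inl h4
        by_cases h5 : b ∈ B
        · exact Or.inr (Or.inl h5)
        · exact Or.inr (Or.inr ⟨S.th w b, h1 b h4 h5, LS.th_th (Ne.symm h4) (h3 w b (Ne.symm h4))⟩)
      have h4 := card_le_card h2
      have h5 := card_insert_le w (B ∪ B.image fun b => S.th w b)
      have h6 := card_union_le B (B.image fun b => S.th w b)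
      have h7 : (B.image fun b => S.th w b).card ≤ B.card := card_image_le
      rw [card_univ] at h4
      omega
    have hdouble : ∀ w, e w + e w = τ + τ - u - u := by
      intro w
      obtain ⟨b, hbw, hb, hb'⟩ := hall w
      have h1 := hth w b (Ne.symm hbw)
      have h2 := hgood b hb
      have h4 := hgood _ hb'
      rw [h1] at h4
      nth_rewrite 1 [← h4]
      rw [← h2]
      abel
    obtain ⟨b, hbw, hb, hb'⟩ := hall x
    have h1 := hdouble b
    rw [hgood b hb] at h1
    have h2 : u + u + u = τ + τ := by
      nth_rewrite 1 [h1]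
      abel
    refine ⟨u, fun w => ?_, h2⟩
    rw [hdouble w, ← h1]

end Pool.Agent.helper25.PV
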