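import Pool.Agent.helper25.PV.Pav

set_option autoImplicit false
set_option linter.unusedSectionVars false
set_option linter.unusedVariables false

/-!
# Project PV: a set of `r + 3` elements without hyperplane of `r + 1` elements
-/

namespace Pool.Agent.helper25.PV

open Finset Pool.Agent.helper9.HB49

variable {α : Type*} [DecidableEq α] {M : Matroid α} [M.Finite] {r : ℕ}

theorem image_val_card {X : Finset α} (L : Finset X) : (L.image Subtype.val).card = L.card :=
  card_image_of_injective _ Subtype.val_injective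

theorem mem_image_val {X : Finset α} {L : Finset X} {x : α} (hx : x ∈ X) :
    x ∈ L.image Subtype.val ↔ (⟨x, hx⟩ : X) ∈ L := by
  simp [hx]

theorem image_val_subset {X : Finset α} (L : Finset X) : L.image Subtype.val ⊆ X := by
  intro x hx
  obtain ⟨y, _, rfl⟩ := mem_image.1 hx
  exact y.2

theorem sdiff_val_card {X : Finset α} (L : Finset X) :
    (X \ L.image Subtype.val).card + L.card = X.card := by
  rw [card_sdiff_of_subset (image_val_subset L), image_val_card]
  have := card_le_card (image_val_subset L)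
  rw [image_val_card] at this
  omega

/-- two sets of three elements with two common elements -/
theorem two_common {V : Type*} [DecidableEq V] {t t' : Finset V} (ht : t.card = 3)
    (ht' : t'.card = 3) {x y : V} (hxy : x ≠ y) (h1 : x ∈ t) (h2 : y ∈ t) (h3 : x ∈ t')
    (h4 : y ∈ t') (hne : t ≠ t') : t ∩ t' = {x, y} ∧ (t ∪ t').card ≤ 4 := by
  have h5 : ({x, y} : Finset V) ⊆ t ∩ t' := by
    intro z hz
    simp only [mem_insert, mem_singleton] at hz
    rcases hz with rfl | rfl
    · exact mem_inter.2 ⟨h1, h3⟩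
    · exact mem_inter.2 ⟨h2, h4⟩
  have h6 := card_le_card h5
  rw [card_pair hxy] at h6
  have h7 := card_union_add_card_inter t t'
  refine ⟨?_, by omega⟩
  symm
  apply eq_of_subset_of_card_le h5
  rw [card_pair hxy]
  by_contra h8
  apply hne
  have h9 : t ∩ t' = t := eq_of_subset_of_card_le inter_subset_left (by omega)
  have h10 : t ∩ t' = t' := eq_of_subset_of_card_le inter_subset_right (by omega)
  rw [← h9]
  nth_rewrite 2 [← h10]
  rfl

/-- the quotient by the lattice of the circuits -/
def QM (M : Matroid α) : Type _ := (α → ℤ) ⧸ Lat M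

noncomputable instance (M : Matroid α) : AddCommGroup (QM M) :=
  inferInstanceAs (AddCommGroup ((α → ℤ) ⧸ Lat M))

/-- the quotient map -/
noncomputable def mkM (M : Matroid α) : (α → ℤ) →+ QM M := QuotientAddGroup.mk' (Lat M)

theorem mkM_eq_zero {p : α → ℤ} : mkM M p = 0 ↔ p ∈ Lat M :=
  QuotientAddGroup.eq_zero_iff p

/-- the class of an element in the quotient by the lattice of the circuits -/
noncomputable def EM (M : Matroid α) (x : α) : QM M := mkM M (Pi.single x 1)

theorem EM_sum {X : Finset α} (π : α → X) (hπ : ∀ x (hx : x ∈ X), π x = ⟨x, hx⟩) (g : X → ℤ) :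
    ∑ v : X, g v • EM M v = mkM M (lift X π g) := by
  have h1 : ∀ v ∈ (univ : Finset X), g v • EM M v =
      mkM M (g v • Pi.single (v : α) 1) := by
    intro v _
    rw [map_zsmul, EM]
  rw [sum_congr rfl h1, ← map_sum]
  congr 1
  funext z
  rw [Finset.sum_apply, lift]
  by_cases hz : z ∈ X
  · rw [if_pos hz, sum_eq_single ⟨z, hz⟩]
    · rw [hπ z hz]; simp
    · intro v _ hv
      rw [Pi.smul_apply, Pi.single_apply, if_neg, smul_zero]
      exact fun h2 => hv (Subtype.ext h2.symm)
    · exact fun h2 => absurd (mem_univ _) h2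
  · rw [if_neg hz]
    refine sum_eq_zero fun v _ => ?_
    rw [Pi.smul_apply, Pi.single_apply, if_neg, smul_zero]
    exact fun h2 => hz (h2 ▸ v.2)

/-- the linear space on a set of `r + 3` elements -/
structure GX (M : Matroid α) (r : ℕ) (X : Finset α) (S : LS X) : Prop where
  hp : HP S (eS S)
  tri : ∀ t : Finset X, t.card = 3 → (sm M r (X \ t.image Subtype.val) ↔ t ∈ S.lines)
  rel : ∀ g : X → ℤ, ∑ y, g y • eS S y = 0 → ∑ y : X, g y • EM M y = 0
  back : ∀ g : X → ℤ, S.ConeP g → ∑ y : X, g y • EM M y = 0 → ∑ y, g y • eS S y = 0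

theorem Pv.good (h : Pv M r) (hH : CircuitsHilbert M) (hr0 : 0 < r) {X : Finset α}
    (hX : (X : Set α) ⊆ M.E) (hc : X.card = r + 3)
    (hg : ∀ u ∈ X, ∀ v ∈ X, u ≠ v → ¬ sm M r (X \ {u, v})) : ∃ S : LS X, GX M r X S := by
  classical
  obtain ⟨x0, hx0⟩ : X.Nonempty := card_pos.1 (by omega)
  set T : Finset X → Prop := fun t => t.card = 3 ∧ sm M r (X \ t.image Subtype.val) with hT
  have h3 : ∀ t, T t → t.card = 3 := fun t ht => ht.1
  have hu : ∀ t t', T t → T t' → ∀ x y, x ≠ y → x ∈ t → y ∈ t → x ∈ t' → y ∈ t' → t = t' := by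
    intro t t' ht ht' x y hxy h1 h2 h4 h5
    by_contra hne
    obtain ⟨h6, h7⟩ := two_common ht.1 ht'.1 hxy h1 h2 h4 h5 hne
    refine hg x x.2 y y.2 (fun h8 => hxy (Subtype.ext h8)) ?_
    have h8 : sm M r ((X \ t.image Subtype.val) ∪ (X \ t'.image Subtype.val)) := by
      apply h.sm_union _ ht.2 ht'.2
      · have h9 : (X \ t.image Subtype.val) ∩ (X \ t'.image Subtype.val) =
            X \ (t ∪ t').image Subtype.val := by
          rw [image_union, ← sdiff_union_distrib]
        rw [h9]
        have := sdiff_val_card (t ∪ t')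
        omega
      · exact (Finset.coe_subset.2 sdiff_subset).trans hX
    refine sm_mono ?_ h8
    intro z hz
    rw [mem_sdiff, mem_insert, mem_singleton, not_or] at hz
    obtain ⟨hz, hzx, hzy⟩ := hz
    rw [mem_union, mem_sdiff, mem_sdiff, mem_image_val hz, mem_image_val hz]
    by_contra h9
    have h10 : (⟨z, hz⟩ : X) ∈ t ∩ t' := by
      rw [mem_inter]
      by_contra h11
      apply h9
      clear * - h11 hz
      tauto
    rw [h6, mem_insert, mem_singleton] at h10
    rcases h10 with h10 | h10
    · exact hzx (congrArg Subtype.val h10)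
    · exact hzy (congrArg Subtype.val h10)
  set π : α → X := fun x => if hx : x ∈ X then ⟨x, hx⟩ else ⟨x0, hx0⟩ with hπ
  have hπx : ∀ x (hx : x ∈ X), π x = ⟨x, hx⟩ := fun x hx => dif_pos hx
  have hfil : ∀ L : Finset X, (X.filter fun x => π x ∉ L) = X \ L.image Subtype.val := by
    intro L
    ext x
    rw [mem_filter, mem_sdiff]
    constructor
    · rintro ⟨hx, h1⟩
      rw [mem_image_val hx, ← hπx x hx]
      exact ⟨hx, h1⟩
    · rintro ⟨hx, h1⟩
      rw [mem_image_val hx, ← hπx x hx] at h1
      exact ⟨hx, h1⟩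
  have hsurj : ∀ v : X, ∃ x ∈ X, π x = v := by
    intro v
    exact ⟨v, v.2, hπx v v.2⟩
  have b1 : ∀ L ∈ (ofT T h3 hu).lines,
      M.IsCircuit ((X.filter fun x => π x ∉ L : Finset α) : Set α) := by
    intro L hL
    rw [hfil, h.circuit_iff hr0]
    refine ⟨(Finset.coe_subset.2 sdiff_subset).trans hX, ?_⟩
    have h1 := sdiff_val_card L
    rcases ofT_lines hL with h2 | ⟨x, y, hxy, rfl, h2⟩
    · left
      exact ⟨by have := h2.1; omega, h2.2⟩
    · right
      rw [card_pair hxy] at h1
      refine ⟨by omega, fun z hz h4 => ?_⟩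
      rw [mem_sdiff] at hz
      rw [mem_image_val hz.1] at hz
      apply h2
      refine ⟨insert ⟨z, hz.1⟩ {x, y}, ⟨?_, ?_⟩, by simp, by simp⟩
      · rw [card_insert_of_notMem hz.2, card_pair hxy]
      · rw [image_insert, sdiff_insert]
        exact h4
  have b2 : ∀ D : Finset α, D ⊆ X → M.IsCircuit (D : Set α) →
      ∃ L ∈ (ofT T h3 hu).lines, D = X.filter fun x => π x ∉ L := by
    intro D hD hDc
    rw [h.circuit_iff hr0] at hDc
    set L : Finset X := univ.filter fun v : X => (v : α) ∉ D with hL
    have h1 : D = X \ L.image Subtype.val := by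
      ext x
      rw [mem_sdiff]
      constructor
      · intro hx
        refine ⟨hD hx, ?_⟩
        rw [mem_image_val (hD hx), hL, mem_filter]
        exact fun h2 => h2.2 hx
      · rintro ⟨hx, h2⟩
        rw [mem_image_val hx, hL, mem_filter] at h2
        by_contra h4
        exact h2 ⟨mem_univ _, h4⟩
    refine ⟨L, ?_, by rw [hfil]; exact h1⟩
    have h2 := sdiff_val_card L
    rw [← h1] at h2
    rcases hDc.2 with ⟨h4, h5⟩ | ⟨h4, h5⟩
    · exact ofT_mem ⟨by omega, by rw [← h1]; exact h5⟩
    · obtain ⟨x, y, hxy, hLe⟩ := card_eq_two.1 (by omega : L.card = 2)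
      rw [hLe]
      apply ofT_pair hxy
      rintro ⟨t, ht, hx, hy⟩
      obtain ⟨z, hz, hzxy⟩ : ∃ z ∈ t, z ∉ ({x, y} : Finset X) := by
        by_contra h6
        push Not at h6
        have h7 := card_le_card (show t ⊆ {x, y} from h6)
        rw [ht.1, card_pair hxy] at h7
        omega
      have hzD : (z : α) ∈ D := by
        by_contra h6
        apply hzxy
        rw [← hLe, hL, mem_filter]
        exact ⟨mem_univ _, h6⟩
      apply h5 z hzD
      have h6 : t = insert z {x, y} := by
        symm
        apply eq_of_subset_of_card_le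
        · intro w hw
          simp only [mem_insert, mem_singleton] at hw
          rcases hw with rfl | rfl | rfl
          · exact hz
          · exact hx
          · exact hy
        · rw [ht.1, card_insert_of_notMem hzxy, card_pair hxy]
      have h7 := ht.2
      rw [h6, image_insert, sdiff_insert, ← hLe, ← h1] at h7
      exact h7
  have hp := bridge hH (ofT T h3 hu) X π hsurj b1 b2
  refine ⟨ofT T h3 hu, hp, ?_, ?_, ?_⟩
  · intro t ht
    refine ⟨fun h1 => ofT_mem ⟨ht, h1⟩, fun h1 => ?_⟩
    rcases ofT_lines h1 with h2 | ⟨x, y, hxy, rfl, h2⟩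
    · exact h2.2
    · rw [card_pair hxy] at ht
      omega
  · intro g hg
    rw [EM_sum π hπx, mkM_eq_zero]
    exact bridge_lat (ofT T h3 hu) X π b1 hg
  · intro g hcone hg
    rw [EM_sum π hπx, mkM_eq_zero] at hg
    obtain ⟨lam, hd⟩ := bridge_dec hH (ofT T h3 hu) X π hsurj b1 b2 hg hcone
    exact hp.dec_sum hd

end Pool.Agent.helper25.PV
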