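import Pool.Agent.helper25.PV.Kill6

set_option autoImplicit false
set_option linter.unusedSectionVars false
set_option linter.unusedVariables false

/-!
# Project PV: rank twelve and at least seventeen elements
-/

namespace Pool.Agent.helper25.PV

open Finset Pool.Agent.helper9.HB49

variable {α : Type*} [DecidableEq α] {M : Matroid α} [M.Finite] {r : ℕ}

theorem LS.O_empty {V : Type*} [Fintype V] [DecidableEq V] {S : LS V}
    (h3 : ∀ x y, x ≠ y → (S.ln x y).card = 3) (x : V) : (S.O x).card = 0 := by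
  rw [card_eq_zero, eq_empty_iff_forall_notMem]
  intro v hv
  have h4 := LS.mem_O.1 hv
  rw [h3 _ _ h4.1.symm] at h4
  omega

theorem LS.lines35 {V : Type*} [Fintype V] [DecidableEq V] {S : LS V}
    (h3 : ∀ x y, x ≠ y → (S.ln x y).card = 3) (hc : Fintype.card V = 15) :
    S.lines.card = 35 := by
  have h1 := LS.total (S := S) fun _ => 1
  have h2 : ∀ y ∈ (univ : Finset V), ∑ L ∈ S.thr y, (1 : ℤ) = 7 := by
    intro y _
    have h4 := LS.count (S := S) y
    rw [LS.O_empty h3, hc] at h4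
    rw [sum_const, nsmul_eq_mul, mul_one]
    have : (S.thr y).card = 7 := by omega
    rw [this]
    norm_num
  have h4 : ∀ L ∈ S.lines, (1 : ℤ) * L.card = 3 := by
    intro L hL
    obtain ⟨a, b, hab, rfl⟩ := LS.mem_lines.1 hL
    rw [h3 a b hab]
    norm_num
  rw [sum_congr rfl h2, sum_congr rfl h4, sum_const, sum_const, card_univ, hc] at h1
  simp only [nsmul_eq_mul] at h1
  norm_num at h1
  omega

/-- in rank twelve: a projective space -/
theorem Pv.twelve_ls (h : Pv M 12) (hH : CircuitsHilbert M) {X : Finset α} (hX : Gd M 12 X) :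
    ∃ S : LS X, GX M 12 X S ∧ Function.Injective (eS S) ∧
      (∀ x y, x ≠ y → (S.ln x y).card = 3) ∧ Fintype.card X = 15 ∧
      ∃ u, (∀ x, eS S x + eS S x = u) ∧
        u + u + u = ∑ y, eS S y + ∑ y, eS S y := by
  obtain ⟨S, hS, hinj, h3⟩ := h.gd_ls hH (by norm_num) hX
  have hc : Fintype.card X = 15 := by rw [Fintype.card_coe, hX.2.1]
  rcases hS.hp.dich (by omega) hinj h3 with h1 | h1
  · have := hS.hp.ag (by omega) hinj h3 h1
    omega
  · exact ⟨S, hS, hinj, h3, hc, h1⟩

theorem Pv.twelve_two (h : Pv M 12) (hH : CircuitsHilbert M) {X : Finset α} (hX : Gd M 12 X)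
    {x y : α} (hx : x ∈ X) (hy : y ∈ X) : EM M x + EM M x = EM M y + EM M y := by
  obtain ⟨S, hS, -, -, -, u, hu, -⟩ := h.twelve_ls hH hX
  obtain ⟨Φ, hΦ⟩ := hS.hom
  have h1 := congrArg Φ (hu ⟨x, hx⟩)
  have h2 := congrArg Φ (hu ⟨y, hy⟩)
  rw [map_add, hΦ] at h1 h2
  exact h1.trans h2.symm

/-- the number of blocks through a point in a set of sixteen elements -/
theorem Pv.blocks_thr (h : Pv M 12) (hH : CircuitsHilbert M) {W : Finset α} (hWc : W.card = 16)
    {x : α} (hx : x ∈ W) (hX : Gd M 12 (W.erase x)) :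
    (((W.powersetCard 4).filter fun Q => rk M ((W \ Q : Finset α) : Set α) < 12).filter
      fun Q => x ∈ Q).card = 35 := by
  classical
  obtain ⟨S, hS, -, h3, hc, -⟩ := h.twelve_ls hH hX
  rw [← LS.lines35 h3 hc]
  have hval : ∀ Q : Finset α, Q ⊆ W →
      (univ.filter fun v : (W.erase x : Finset α) => (v : α) ∈ Q).image Subtype.val =
        Q.erase x := by
    intro Q hQ
    ext y
    rw [mem_erase]
    constructor
    · intro hy
      obtain ⟨v, hv, rfl⟩ := mem_image.1 hy
      exact ⟨(mem_erase.1 v.2).1, (mem_filter.1 hv).2⟩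
    · rintro ⟨h1, h2⟩
      exact mem_image.2 ⟨⟨y, mem_erase.2 ⟨h1, hQ h2⟩⟩, mem_filter.2 ⟨mem_univ _, h2⟩, rfl⟩
  apply card_nbij (fun Q => univ.filter fun v : (W.erase x : Finset α) => (v : α) ∈ Q)
  · intro Q hQ
    rw [mem_coe, mem_filter, mem_filter, mem_powersetCard] at hQ
    obtain ⟨⟨⟨hQW, hQc⟩, hQs⟩, hxQ⟩ := hQ
    rw [mem_coe]
    have hcard : (univ.filter fun v : (W.erase x : Finset α) => (v : α) ∈ Q).card = 3 := by
      rw [← image_val_card, hval Q hQW, card_erase_of_mem hxQ, hQc]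
    apply (hS.tri _ hcard).1
    rw [hval Q hQW]
    have h4 : W.erase x \ Q.erase x = W \ Q := by
      ext y
      simp only [mem_sdiff, mem_erase]
      constructor
      · rintro ⟨⟨h1, h2⟩, h4⟩
        exact ⟨h2, fun h5 => h4 ⟨h1, h5⟩⟩
      · rintro ⟨h1, h2⟩
        exact ⟨⟨fun h4 => h2 (h4 ▸ hxQ), h1⟩, fun h4 => h2 h4.2⟩
    rw [h4]
    exact hQs
  · intro Q hQ Q' hQ' heq
    rw [mem_coe, mem_filter, mem_filter, mem_powersetCard] at hQ hQ'
    have h1 := congrArg (fun L => L.image Subtype.val) heq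
    simp only at h1
    rw [hval Q hQ.1.1.1, hval Q' hQ'.1.1.1] at h1
    rw [← insert_erase hQ.2, ← insert_erase hQ'.2, h1]
  · intro L hL
    have hL := mem_coe.1 hL
    have hL3 : L.card = 3 := by
      obtain ⟨a, b, hab, rfl⟩ := LS.mem_lines.1 hL
      exact h3 a b hab
    have hxL : x ∉ L.image Subtype.val := fun h1 => notMem_erase x W (image_val_subset L h1)
    have hsub : insert x (L.image Subtype.val) ⊆ W := by
      intro y hy
      rw [mem_insert] at hy
      rcases hy with rfl | hy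
      · exact hx
      · exact mem_of_mem_erase (image_val_subset L hy)
    refine ⟨insert x (L.image Subtype.val), ?_, ?_⟩
    · rw [mem_coe, mem_filter, mem_filter, mem_powersetCard]
      refine ⟨⟨⟨hsub, ?_⟩, ?_⟩, mem_insert_self _ _⟩
      · rw [card_insert_of_notMem hxL, image_val_card, hL3]
      · have h1 := (hS.tri L hL3).2 hL
        rw [sdiff_insert, ← erase_sdiff_comm]
        exact h1
    · ext v
      rw [mem_filter]
      constructor
      · rintro ⟨-, h1⟩
        rw [mem_insert] at h1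
        rcases h1 with h1 | h1
        · exact absurd h1 (mem_erase.1 v.2).1
        · exact (mem_image_val v.2).1 h1
      · intro h1
        exact ⟨mem_univ _, mem_insert_of_mem (mem_image_of_mem _ h1)⟩

/-- `105` times the sum over a set of sixteen elements -/
theorem Pv.sixteen (h : Pv M 12) (hH : CircuitsHilbert M) {W : Finset α} (hWc : W.card = 16)
    (hWE : (W : Set α) ⊆ M.E) (hX : ∀ x ∈ W, Gd M 12 (W.erase x)) :
    105 • ∑ y ∈ W, EM M y = 0 := by
  classical
  set T : QM M := ∑ y ∈ W, EM M y with hT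
  set 𝒬 := (W.powersetCard 4).filter fun Q => rk M ((W \ Q : Finset α) : Set α) < 12 with h𝒬
  have hthr : ∀ x ∈ W, (𝒬.filter fun Q => x ∈ Q).card = 35 := fun x hx =>
    h.blocks_thr hH hWc hx (hX x hx)
  have hmem : ∀ Q ∈ 𝒬, Q ⊆ W ∧ Q.card = 4 ∧ sm M 12 (W \ Q) := by
    intro Q hQ
    rw [h𝒬, mem_filter, mem_powersetCard] at hQ
    exact ⟨hQ.1.1, hQ.1.2, hQ.2⟩
  have hcount : 𝒬.card = 140 := by
    have h1 : ∑ Q ∈ 𝒬, Q.card = ∑ x ∈ W, (𝒬.filter fun Q => x ∈ Q).card := by
      have h2 : ∀ Q ∈ 𝒬, Q.card = ∑ x ∈ W, if x ∈ Q then 1 else 0 := by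
        intro Q hQ
        rw [← card_filter, filter_mem_eq_inter, inter_eq_right.2 (hmem Q hQ).1]
      rw [sum_congr rfl h2, sum_comm]
      exact sum_congr rfl fun x _ => by rw [card_filter]
    rw [sum_congr rfl fun Q hQ => (hmem Q hQ).2.1, sum_congr rfl hthr, sum_const, sum_const,
      hWc] at h1
    simp only [smul_eq_mul] at h1
    omega
  -- each block sums to `T`
  have hblock : ∀ Q ∈ 𝒬, ∑ y ∈ Q, EM M y = T := by
    intro Q hQ
    obtain ⟨h1, h2, h3⟩ := hmem Q hQ
    have h4 : ∑ y ∈ W \ Q, EM M y = 0 := by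
      have h5 : M.IsCircuit ((W \ Q : Finset α) : Set α) := by
        rw [h.circuit_iff (by norm_num)]
        refine ⟨(Finset.coe_subset.2 sdiff_subset).trans hWE, Or.inl ⟨?_, h3⟩⟩
        rw [card_sdiff_of_subset h1, hWc, h2]
      have h6 := chi_mem_lat h5
      rw [← mkM_eq_zero] at h6
      rw [← h6]
      simp only [EM]
      rw [← map_sum]
      congr 1
      funext z
      rw [Finset.sum_apply, chi_apply]
      simp only [Pi.single_apply, mem_coe]
      rw [sum_ite_eq]
    rw [hT, ← sum_sdiff h1, h4, zero_add]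
  have hsum : ∑ Q ∈ 𝒬, ∑ y ∈ Q, EM M y = 35 • T := by
    have h2 : ∀ Q ∈ 𝒬, ∑ y ∈ Q, EM M y = ∑ y ∈ W, if y ∈ Q then EM M y else 0 := by
      intro Q hQ
      rw [sum_ite_mem, inter_eq_right.2 (hmem Q hQ).1]
    rw [sum_congr rfl h2, sum_comm, hT, smul_sum]
    refine sum_congr rfl fun y hy => ?_
    rw [← sum_filter, sum_const, hthr y hy]
  rw [sum_congr rfl hblock, sum_const, hcount] at hsum
  have h1 : (140 : ℕ) • T = 105 • T + 35 • T := by rw [← add_nsmul]
  rw [h1] at hsum
  exact add_eq_right.1 hsum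

theorem Pv.kill12 (h : Pv M 12) (hH : CircuitsHilbert M) (hE : 17 ≤ M.E.ncard) {X0 : Finset α}
    (hX0 : Gd M 12 X0) : False := by
  classical
  set F := M.ground_finite.toFinset with hF
  have hFm : ∀ x, x ∈ F ↔ x ∈ M.E := fun x => by rw [hF]; simp
  have hFc : F.card = M.E.ncard := (Set.ncard_eq_toFinset_card _ _).symm
  have hFE : (F : Set α) = M.E := by rw [hF]; simp
  have hall : ∀ X : Finset α, X ⊆ F → X.card = 15 → Gd M 12 X := fun X hX hc =>
    h.gd_all hH (by norm_num) _ hX0 (fun y hy => (hFm y).1 (hX hy)) hc rfl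
  have hsup : ∀ x ∈ F, ∀ y ∈ F, ∀ k, 2 ≤ k → k ≤ 17 → ∃ Z ⊆ F, x ∈ Z ∧ y ∈ Z ∧ Z.card = k := by
    intro x hx y hy k hk hk'
    have h1 : ({x, y} : Finset α) ⊆ F := by
      intro z hz
      simp only [mem_insert, mem_singleton] at hz
      rcases hz with rfl | rfl
      · exact hx
      · exact hy
    have h2 : ({x, y} : Finset α).card ≤ 2 := card_le_two
    obtain ⟨Z, hZ1, hZ2, hZ3⟩ := exists_subsuperset_card_eq h1 (h2.trans hk) (by omega)
    exact ⟨Z, hZ2, hZ1 (by simp), hZ1 (by simp), hZ3⟩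
  have htwo : ∀ x ∈ F, ∀ y ∈ F, EM M x + EM M x = EM M y + EM M y := by
    intro x hx y hy
    obtain ⟨Z, hZ, hxZ, hyZ, hZc⟩ := hsup x hx y hy 15 (by norm_num) (by norm_num)
    exact h.twelve_two hH (hall Z hZ hZc) hxZ hyZ
  have h105 : ∀ W : Finset α, W ⊆ F → W.card = 16 → 105 • ∑ y ∈ W, EM M y = 0 := by
    intro W hW hWc
    refine h.sixteen hH hWc (fun y hy => (hFm y).1 (hW hy)) fun x hx => ?_
    exact hall _ ((erase_subset _ _).trans hW) (by rw [card_erase_of_mem hx, hWc])
  have heq : ∀ x ∈ F, ∀ y ∈ F, EM M x = EM M y := by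
    intro x hx y hy
    obtain ⟨Z, hZ, hxZ, hyZ, hZc⟩ := hsup x hx y hy 17 (by norm_num) (by norm_num)
    have h1 := h105 (Z.erase x) ((erase_subset _ _).trans hZ) (by rw [card_erase_of_mem hxZ, hZc])
    have h2 := h105 (Z.erase y) ((erase_subset _ _).trans hZ) (by rw [card_erase_of_mem hyZ, hZc])
    have h3 := sum_erase_add Z (EM M) hxZ
    have h4 := sum_erase_add Z (EM M) hyZ
    have h5 : 105 • (EM M x - EM M y) = 0 := by
      have h6 : EM M x - EM M y = (∑ z ∈ Z, EM M z - ∑ z ∈ Z.erase x, EM M z) -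
          (∑ z ∈ Z, EM M z - ∑ z ∈ Z.erase y, EM M z) := by
        nth_rewrite 1 [← h3]
        nth_rewrite 1 [← h4]
        abel
      rw [h6, nsmul_sub, nsmul_sub, nsmul_sub, h1, h2]
      abel
    have h6 : 52 • ((EM M x - EM M y) + (EM M x - EM M y)) = 0 := by
      have h7 : (EM M x - EM M y) + (EM M x - EM M y) = (EM M x + EM M x) -
          (EM M y + EM M y) := by abel
      rw [h7, htwo x hx y hy, sub_self, nsmul_zero]
    have h7 : EM M x - EM M y = 105 • (EM M x - EM M y) -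
        52 • ((EM M x - EM M y) + (EM M x - EM M y)) := by
      rw [← two_nsmul, smul_smul]
      have : (105 : ℕ) • (EM M x - EM M y) = (EM M x - EM M y) +
          (52 * 2) • (EM M x - EM M y) := by
        rw [← succ_nsmul']
      rw [this]
      abel
    rw [h5, h6, sub_zero] at h7
    exact sub_eq_zero.1 h7
  -- a set of fifteen elements
  obtain ⟨X, hXF, hXc⟩ := exists_subset_card_eq (s := F) (n := 15) (by omega)
  have hXg := hall X hXF hXc
  obtain ⟨S, hS, hinj, h3, hc, u, hu, hu3⟩ := h.twelve_ls hH hXg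
  have hth : ∀ x y, x ≠ y → eS S (S.th x y) = (∑ y, eS S y) - eS S x - eS S y := fun x y hxy =>
    hS.hp.third_eq hxy (h3 x y hxy)
  set τ := ∑ y, eS S y with hτ
  obtain ⟨x, hxm⟩ : (univ : Finset X).Nonempty := card_pos.1 (by rw [card_univ, hc]; norm_num)
  obtain ⟨p, -, hpx⟩ : ∃ y ∈ (univ : Finset X), y ≠ x := by
    apply exists_mem_ne
    rw [card_univ]
    omega
  set v := S.th x p with hv
  obtain ⟨v1, v2, v3⟩ := LS.th_spec hpx.symm (h3 x p hpx.symm)
  rw [← hv] at v1 v2 v3
  obtain ⟨q, hq⟩ : ∃ w, w ∉ ({x, p, v} : Finset X) := by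
    by_contra h1
    push Not at h1
    have h4 : (univ : Finset X) ⊆ {x, p, v} := fun z _ => h1 z
    have h5 := card_le_card h4
    have h6 : ({x, p, v} : Finset X).card ≤ 3 := card_le_three
    rw [card_univ] at h5
    omega
  obtain ⟨hqx, hqp, hqv⟩ : q ≠ x ∧ q ≠ p ∧ q ≠ v := by
    rw [mem_insert, mem_insert, mem_singleton, not_or, not_or] at hq
    exact hq
  set w := S.th x q with hw
  obtain ⟨w1, w2, w3⟩ := LS.th_spec hqx.symm (h3 x q hqx.symm)
  rw [← hw] at w1 w2 w3
  set y := S.th p q with hy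
  obtain ⟨y1, y2, y3⟩ := LS.th_spec hqp.symm (h3 p q hqp.symm)
  rw [← hy] at y1 y2 y3
  have ev : eS S v = τ - eS S x - eS S p := hth x p hpx.symm
  have ew : eS S w = τ - eS S x - eS S q := hth x q hqx.symm
  have ey : eS S y = τ - eS S p - eS S q := hth p q hqp.symm
  -- lines `{x,p,v}`, `{x,q,w}`, `{p,q,y}`, `{v,w,y}`
  have hlne : S.ln x p ≠ S.ln x q := by
    intro h1
    have h2 : q ∈ S.ln x p := by rw [h1]; exact S.right hqx.symm
    rw [v3] at h2
    simp only [mem_insert, mem_singleton] at h2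
    rcases h2 with h2 | h2 | h2
    · exact hqx h2
    · exact hqp h2
    · exact hqv h2
  have hwp : w ≠ p := by
    intro h1
    apply hlne
    apply LS.eq_ln (LS.ln_mem hqx.symm) hpx.symm (S.left hqx.symm)
    rw [w3, ← h1]; simp
  have hvw : v ≠ w := by
    intro h1
    apply hlne
    exact LS.line_unique (LS.ln_mem hpx.symm) (LS.ln_mem hqx.symm) v1 (by rw [v3]; simp)
      (S.left hpx.symm) (by rw [w3, h1]; simp) (S.left hqx.symm)
  have hyx : y ≠ x := by
    intro h1
    apply hlne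
    have h2 : S.ln p q = S.ln x p := LS.line_unique (LS.ln_mem hqp.symm) (LS.ln_mem hpx.symm) hpx
      (S.left hqp.symm) (by rw [y3, h1]; simp) (S.right hpx.symm) (S.left hpx.symm)
    have h4 : S.ln p q = S.ln x q := LS.line_unique (LS.ln_mem hqp.symm) (LS.ln_mem hqx.symm) hqx
      (S.right hqp.symm) (by rw [y3, h1]; simp) (S.right hqx.symm) (S.left hqx.symm)
    exact h2.symm.trans h4
  have hyv : y ≠ v := by
    intro h1
    apply hqx
    apply hinj
    have h2 : eS S q = eS S x + (eS S v - eS S y) := by rw [ev, ey]; abel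
    rw [h2, h1, sub_self, add_zero]
  have hyw : y ≠ w := by
    intro h1
    apply hpx
    apply hinj
    have h2 : eS S p = eS S x + (eS S w - eS S y) := by rw [ew, ey]; abel
    rw [h2, h1, sub_self, add_zero]
  have hthvw : S.th v w = y := by
    apply hinj
    rw [hth v w hvw, ev, ew, ey]
    have h1 : τ - (τ - eS S x - eS S p) - (τ - eS S x - eS S q) =
        (τ - eS S p - eS S q) + ((eS S x + eS S x) + (eS S p + eS S p) + (eS S q + eS S q) -
          (τ + τ)) := by abel
    rw [h1, hu, hu, hu, hu3, sub_self, add_zero]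
  have l4 : S.ln v w = {v, w, y} := by
    rw [LS.ln_eq_th hvw (h3 v w hvw), hthvw]
  set Q : Finset X := {x, p, v, q, w, y} with hQ
  have hQc : Q.card = 6 := by
    rw [hQ, card_insert_of_notMem (by simp [hpx.symm, v1.symm, hqx.symm, w1.symm, hyx.symm]),
      card_insert_of_notMem (by simp [v2.symm, hqp.symm, hwp.symm, y1.symm]),
      card_insert_of_notMem (by simp [hqv.symm, hvw, hyv.symm]),
      card_insert_of_notMem (by simp [w2.symm, y2.symm]),
      card_insert_of_notMem (by simp [hyw.symm]), card_singleton]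
  have hcone : S.ConeP fun z => if z ∈ Q then (2 : ℤ) - 1 else 2 := by
    refine LS.ConeP.div (N := 2) (by norm_num) ?_
    have h1 := ((LS.ConeP.line (S := S) (LS.ln_mem hpx.symm)).add
      (LS.ConeP.line (S := S) (LS.ln_mem hqx.symm))).add
      ((LS.ConeP.line (S := S) (LS.ln_mem hqp.symm)).add
        (LS.ConeP.line (S := S) (LS.ln_mem hvw)))
    rw [v3, w3, y3, l4] at h1
    convert h1 using 2 with z
    clear h1
    simp only [hQ, mem_insert, mem_singleton]
    by_cases h1 : z = x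
    · rw [h1]; simp [hpx.symm, v1.symm, hqx.symm, w1.symm, hyx.symm]
    by_cases h2 : z = p
    · rw [h2]; simp [hpx, v2.symm, hqp.symm, hwp.symm, y1.symm]
    by_cases h3 : z = v
    · rw [h3]; simp [v1, v2, hqv.symm, hvw, hyv.symm]
    by_cases h4 : z = q
    · rw [h4]; simp [hqx, hqp, hqv, w2.symm, y2.symm]
    by_cases h5 : z = w
    · rw [h5]; simp [w1, hwp, hvw.symm, w2, hyw.symm]
    by_cases h6 : z = y
    · rw [h6]; simp [hyx, y1, hyv, y2, hyw]
    simp [h1, h2, h3, h4, h5, h6]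
  -- the class in the matroid
  set ε := EM M x with hε
  have hEe : ∀ z : X, EM M z = ε := fun z => heq z (hXF z.2) x (hXF x.2)
  have h12ε : (12 : ℤ) • ε = 0 := by
    have h1 : M.IsCircuit ((X \ ({x, p, v} : Finset X).image Subtype.val : Finset α) : Set α) := by
      rw [h.circuit_iff (by norm_num)]
      have hc3 : ({x, p, v} : Finset X).card = 3 := by rw [← v3]; exact h3 _ _ hpx.symm
      refine ⟨fun z hz => (hFm z).1 (hXF (sdiff_subset (mem_coe.1 hz))), Or.inl ⟨?_, ?_⟩⟩
      · have := sdiff_val_card ({x, p, v} : Finset X)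
        omega
      · exact (hS.tri _ hc3).2 (by rw [← v3]; exact LS.ln_mem hpx.symm)
    have h6 := chi_mem_lat h1
    rw [← mkM_eq_zero] at h6
    have h7 : ∑ z ∈ X \ ({x, p, v} : Finset X).image Subtype.val, EM M z = 0 := by
      rw [← h6]
      simp only [EM]
      rw [← map_sum]
      congr 1
      funext z
      rw [Finset.sum_apply, chi_apply]
      simp only [Pi.single_apply, mem_coe]
      rw [sum_ite_eq]
    rw [sum_congr rfl fun z hz => heq z (hXF (mem_sdiff.1 hz).1) x (hXF x.2), sum_const,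
      ← hε] at h7
    have hc3 : ({x, p, v} : Finset X).card = 3 := by rw [← v3]; exact h3 _ _ hpx.symm
    have h8 := sdiff_val_card ({x, p, v} : Finset X)
    have h9 : (X \ ({x, p, v} : Finset X).image Subtype.val).card = 12 := by omega
    rw [h9] at h7
    rw [← h7]
    exact natCast_zsmul ε 12
  have hback := hS.back _ hcone (by
    rw [sum_congr rfl fun z _ => by rw [hEe z]]
    rw [← sum_smul]
    have h1 : ∀ z ∈ (univ : Finset X), (if z ∈ Q then (2 : ℤ) - 1 else 2) =
        2 - if z ∈ Q then 1 else 0 := by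
      intro z _; split_ifs <;> norm_num
    rw [sum_congr rfl h1, sum_sub_distrib, sum_ite_mem, univ_inter, sum_const, sum_const, hQc,
      card_univ, hc]
    have h2 : ((15 : ℕ) • (2 : ℤ) - (6 : ℕ) • (1 : ℤ)) = 2 * 12 := by norm_num
    rw [h2, mul_smul, h12ε, smul_zero])
  rw [sum_sub_Q] at hback
  rw [hQ, sum_insert (by simp [hpx.symm, v1.symm, hqx.symm, w1.symm, hyx.symm]),
      sum_insert (by simp [v2.symm, hqp.symm, hwp.symm, y1.symm]),
      sum_insert (by simp [hqv.symm, hvw, hyv.symm]),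
      sum_insert (by simp [w2.symm, y2.symm]),
      sum_pair hyw.symm, ev, ew, ey, ← hτ] at hback
  apply hqv
  apply hinj
  rw [ev]
  have h1 : eS S q = (τ - eS S x - eS S p) + ((2 : ℤ) • τ - (eS S x + (eS S p +
      (τ - eS S x - eS S p + (eS S q + (τ - eS S x - eS S q + (τ - eS S p - eS S q))))))) := by
    rw [two_smul]; abel
  rw [h1, hback, add_zero]

end Pool.Agent.helper25.PV
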