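import Pool.Agent.helper25.PV.All

set_option autoImplicit false
set_option linter.unusedSectionVars false
set_option linter.unusedVariables false

/-!
# Project PV: rank six and at least ten elements
-/

namespace Pool.Agent.helper25.PV

open Finset Pool.Agent.helper9.HB49

variable {α : Type*} [DecidableEq α] {M : Matroid α} [M.Finite] {r : ℕ}

theorem GX.hom {X : Finset α} {S : LS X} (hS : GX M r X S) :
    ∃ Φ : AS S →+ QM M, ∀ v : X, Φ (eS S v) = EM M v := by
  let f : (X → ℤ) →+ QM M :=
    { toFun := fun g => ∑ y : X, g y • EM M y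
      map_zero' := by simp
      map_add' := by
        intro g g'
        rw [← sum_add_distrib]
        exact sum_congr rfl fun y _ => by rw [Pi.add_apply, add_smul] }
  refine ⟨QuotientAddGroup.lift (Lam S) f ?_, fun v => ?_⟩
  · intro g hg
    apply hS.rel g
    rw [eS_sum, mkS_eq_zero]
    exact hg
  · show ∑ y : X, (Pi.single v (1 : ℤ) : X → ℤ) y • EM M y = EM M v
    rw [sum_eq_single v]
    · simp
    · intro y _ hy
      rw [Pi.single_apply, if_neg hy, zero_smul]
    · exact fun h => absurd (mem_univ _) h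

/-- in rank six: `3 E_x` is the sum over `X` -/
theorem Pv.six_rel (h : Pv M 6) (hH : CircuitsHilbert M) {X : Finset α} (hX : Gd M 6 X) {x : α}
    (hx : x ∈ X) : EM M x + EM M x + EM M x = ∑ y ∈ X, EM M y := by
  obtain ⟨S, hS, hinj, h3⟩ := h.gd_ls hH (by norm_num) hX
  have hc : Fintype.card X = 9 := by rw [Fintype.card_coe, hX.2.1]
  rcases hS.hp.dich (by omega) hinj h3 with h1 | ⟨u, h1, h2⟩
  · obtain ⟨Φ, hΦ⟩ := hS.hom
    have h2 := congrArg Φ (h1 ⟨x, hx⟩)
    rw [map_add, map_add, map_sum, hΦ] at h2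
    rw [h2, ← Finset.sum_coe_sort X (EM M)]
    exact sum_congr rfl fun y _ => hΦ y
  · have := hS.hp.pg (by omega) hinj h3 h1 h2
    omega

theorem Pv.kill6 (h : Pv M 6) (hH : CircuitsHilbert M) (hE : 10 ≤ M.E.ncard) {X0 : Finset α}
    (hX0 : Gd M 6 X0) : False := by
  classical
  set F := M.ground_finite.toFinset with hF
  have hFm : ∀ x, x ∈ F ↔ x ∈ M.E := fun x => by rw [hF]; simp
  have hFc : F.card = M.E.ncard := (Set.ncard_eq_toFinset_card _ _).symm
  have hall : ∀ X : Finset α, X ⊆ F → X.card = 9 → Gd M 6 X := fun X hX hc =>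
    h.gd_all hH (by norm_num) _ hX0 (fun y hy => (hFm y).1 (hX hy)) hc rfl
  obtain ⟨Z, hZF, hZc⟩ := exists_subset_card_eq (s := F) (n := 10) (by omega)
  have hrel : ∀ z ∈ Z, ∀ x ∈ Z, x ≠ z →
      EM M x + EM M x + EM M x + EM M z = ∑ y ∈ Z, EM M y := by
    intro z hz x hx hxz
    have h1 := h.six_rel hH (hall (Z.erase z) ((erase_subset _ _).trans hZF)
      (by rw [card_erase_of_mem hz, hZc])) (mem_erase.2 ⟨hxz, hx⟩)
    rw [h1, sum_erase_add _ _ hz]
  have heq : ∀ x ∈ Z, ∀ y ∈ Z, EM M x = EM M y := by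
    intro x hx y hy
    by_cases hxy : x = y
    · rw [hxy]
    obtain ⟨z, hz⟩ : (Z \ {x, y}).Nonempty := by
      rw [← card_pos]
      have h1 := le_card_sdiff ({x, y} : Finset α) Z
      rw [card_pair hxy] at h1
      omega
    rw [mem_sdiff, mem_insert, mem_singleton, not_or] at hz
    have h1 := hrel z hz.1 x hx (Ne.symm hz.2.1)
    have h2 := hrel z hz.1 y hy (Ne.symm hz.2.2)
    have h3 := hrel y hy x hx hxy
    have h4 := hrel x hx y hy (Ne.symm hxy)
    have h5 : EM M x - EM M y = (EM M y + EM M y + EM M y + EM M x)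
        - (EM M x + EM M x + EM M x + EM M y) + ((EM M x + EM M x + EM M x + EM M z)
        - (EM M y + EM M y + EM M y + EM M z)) := by abel
    rw [h1, h2, h3, h4, sub_self, add_zero] at h5
    exact sub_eq_zero.1 h5
  obtain ⟨z0, hz0⟩ : Z.Nonempty := card_pos.1 (by omega)
  have hXg := hall (Z.erase z0) ((erase_subset _ _).trans hZF) (by rw [card_erase_of_mem hz0, hZc])
  set X := Z.erase z0 with hXdef
  have hXZ : X ⊆ Z := erase_subset _ _
  obtain ⟨S, hS, hinj, h3⟩ := h.gd_ls hH (by norm_num) hXg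
  have hc : Fintype.card X = 9 := by rw [Fintype.card_coe, hXg.2.1]
  have hdich : ∀ x, eS S x + eS S x + eS S x = ∑ y, eS S y := by
    rcases hS.hp.dich (by omega) hinj h3 with h1 | ⟨u, h1, h2⟩
    · exact h1
    · have := hS.hp.pg (by omega) hinj h3 h1 h2
      omega
  obtain ⟨x, hxm⟩ : (univ : Finset X).Nonempty := card_pos.1 (by rw [card_univ, hc]; norm_num)
  obtain ⟨y, -, hyx⟩ : ∃ y ∈ (univ : Finset X), y ≠ x := by
    apply exists_mem_ne
    rw [card_univ]
    omega
  obtain ⟨w, hw⟩ : ∃ w, w ∉ ({x, y, S.th x y} : Finset X) := by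
    by_contra h1
    push Not at h1
    have h4 : (univ : Finset X) ⊆ {x, y, S.th x y} := fun z _ => h1 z
    have h5 := card_le_card h4
    have h6 : ({x, y, S.th x y} : Finset X).card ≤ 3 := card_le_three
    rw [card_univ] at h5
    omega
  obtain ⟨hwx, hwy, hwt⟩ : w ≠ x ∧ w ≠ y ∧ w ≠ S.th x y := by
    rw [mem_insert, mem_insert, mem_singleton, not_or, not_or] at hw
    exact hw
  -- the class `ε`
  set ε := EM M x with hε
  have hEe : ∀ y : X, EM M y = ε := fun y => heq y (hXZ y.2) x (hXZ x.2)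
  have h6ε : (6 : ℤ) • ε = 0 := by
    have h1 := h.six_rel hH hXg x.2
    have h2 : ∑ y ∈ X, EM M y = (9 : ℤ) • ε := by
      rw [sum_congr rfl fun y hy => heq y (hXZ hy) x (hXZ x.2), sum_const, hXg.2.1, ← hε]
      exact (natCast_zsmul ε 9).symm
    rw [← hε, h2] at h1
    have h4 : (6 : ℤ) • ε = (9 : ℤ) • ε - (ε + ε + ε) := by
      have : (6 : ℤ) • ε = (9 : ℤ) • ε - (3 : ℤ) • ε := by rw [← sub_smul]; norm_num
      rw [this]
      congr 1
      have : (3 : ℤ) • ε = ((1 : ℤ) + 1 + 1) • ε := by norm_num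
      rw [this, add_smul, add_smul, one_smul]
    rw [h4, h1, sub_self]
  have hback := hS.back (fun v => (if v = x then 0 else 1) + (if v = y then 0 else 1) +
      (if v = w then 0 else 1))
    (((LS.ConeP.pt (by omega) x).add (LS.ConeP.pt (by omega) y)).add (LS.ConeP.pt (by omega) w))
    (by
      rw [sum_congr rfl fun v _ => by rw [hEe v]]
      rw [← sum_smul, sum_add_distrib, sum_add_distrib]
      have h1 : ∀ a : X, ∑ v : X, (if v = a then (0 : ℤ) else 1) = 8 := by
        intro a
        have h2 : ∀ v ∈ (univ : Finset X), (if v = a then (0 : ℤ) else 1) =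
            1 - if v = a then 1 else 0 := by
          intro v _
          split_ifs <;> rfl
        rw [sum_congr rfl h2, sum_sub_distrib, sum_ite_eq', if_pos (mem_univ a), sum_const,
          card_univ, hc]
        norm_num
      rw [h1, h1, h1]
      have h2 : ((8 : ℤ) + 8 + 8) • ε = (4 : ℤ) • ((6 : ℤ) • ε) := by
        rw [smul_smul]; norm_num
      rw [h2, h6ε, smul_zero])
  set τ := ∑ y, eS S y with hτ
  have hpt : ∀ a : X, ∑ v, (if v = a then (0 : ℤ) else 1) • eS S v = τ - eS S a := by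
    intro a
    have h1 := sum_pt (e := eS S) 1 a
    simp only [one_mul, one_smul] at h1
    exact h1
  simp only [add_smul, sum_add_distrib] at hback
  rw [hpt, hpt, hpt] at hback
  have hk : (S.thr x).card - 1 = 3 := by
    have h1 := LS.count (S := S) x
    have h2 : (S.O x).card = 0 := by
      rw [card_eq_zero, eq_empty_iff_forall_notMem]
      intro v hv
      have h4 := LS.mem_O.1 hv
      rw [h3 _ _ h4.1.symm] at h4
      omega
    omega
  have h2τ : τ + τ = 0 := by
    have h1 := hS.hp.nsmul_f (by omega) x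
    rw [hk, ← hτ] at h1
    have h2 : 3 • (τ - eS S x) = τ + τ + (τ - (eS S x + eS S x + eS S x)) := by abel
    rw [h2, hdich x, sub_self, add_zero] at h1
    exact h1
  apply hwt
  apply hinj
  have h4 := hS.hp.third_eq hyx.symm (h3 x y hyx.symm)
  rw [h4, ← hτ]
  have h5 : eS S w = (τ - eS S x - eS S y) + (τ + τ) - (τ - eS S x + (τ - eS S y) +
      (τ - eS S w)) := by abel
  rw [h5, h2τ, hback, add_zero, sub_zero]

end Pool.Agent.helper25.PV
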