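import Mathlib

set_option autoImplicit false

/-!
# Linear spaces with lines of two or three points (project PV, MP_49b0db_co)
-/

namespace Pool.Agent.helper25.PV

open Finset

/-- a linear space on `V` whose lines have at most three points; `ln x y` is the line through the
distinct points `x`, `y` -/
structure LS (V : Type*) [Fintype V] [DecidableEq V] where
  ln : V → V → Finset V
  left : ∀ {x y : V}, x ≠ y → x ∈ ln x y
  right : ∀ {x y : V}, x ≠ y → y ∈ ln x y
  uniq : ∀ {x y u v : V}, x ≠ y → u ≠ v → u ∈ ln x y → v ∈ ln x y → ln u v = ln x y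
  card_le : ∀ {x y : V}, x ≠ y → (ln x y).card ≤ 3

variable {V : Type*} [Fintype V] [DecidableEq V] (S : LS V)

/-- the lines -/
def LS.lines : Finset (Finset V) :=
  (univ.filter fun p : V × V => p.1 ≠ p.2).image fun p => S.ln p.1 p.2

/-- the lines through `x` -/
def LS.thr (x : V) : Finset (Finset V) := S.lines.filter fun L => x ∈ L

/-- the points `y` such that `{x, y}` is a line -/
def LS.O (x : V) : Finset V := univ.filter fun y => y ≠ x ∧ (S.ln x y).card = 2

/-- `g` is a nonnegative rational combination of complements of lines -/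
def LS.ConeP (g : V → ℤ) : Prop :=
  ∃ μ : Finset V → ℚ, (∀ L, 0 ≤ μ L) ∧ ∀ y, (g y : ℚ) = ∑ L ∈ S.lines, if y ∈ L then 0 else μ L

/-- `g` is a sum of complements of lines (`lam L` is the multiplicity of `L`) -/
def LS.Dec (g : V → ℤ) (lam : Finset V → ℕ) : Prop :=
  ∀ y, g y + ∑ L ∈ S.thr y, (lam L : ℤ) = ∑ L ∈ S.lines, (lam L : ℤ)

/-- the Hilbert basis property of the complements of lines: `e` is the map to the quotient of
`ℤ^V` by the lattice -/
structure HP {A : Type*} [AddCommGroup A] (S : LS V) (e : V → A) : Prop where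
  rel : ∀ L ∈ S.lines, ∑ y ∈ L, e y = ∑ y, e y
  dec : ∀ g : V → ℤ, ∑ y, g y • e y = 0 → S.ConeP g → ∃ lam, S.Dec g lam

variable {S}

theorem LS.mem_lines {L : Finset V} : L ∈ S.lines ↔ ∃ x y, x ≠ y ∧ S.ln x y = L := by
  simp [LS.lines]

theorem LS.ln_mem {x y : V} (h : x ≠ y) : S.ln x y ∈ S.lines := LS.mem_lines.2 ⟨x, y, h, rfl⟩

theorem LS.ln_symm {x y : V} (h : x ≠ y) : S.ln x y = S.ln y x :=
  (S.uniq h h.symm (S.right h) (S.left h)).symm

theorem LS.eq_ln {L : Finset V} (hL : L ∈ S.lines) {x y : V} (h : x ≠ y) (hx : x ∈ L) (hy : y ∈ L) :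
    S.ln x y = L := by
  obtain ⟨a, b, hab, rfl⟩ := LS.mem_lines.1 hL
  exact S.uniq hab h hx hy

theorem LS.line_unique {L L' : Finset V} (hL : L ∈ S.lines) (hL' : L' ∈ S.lines) {x y : V}
    (h : x ≠ y) (hx : x ∈ L) (hy : y ∈ L) (hx' : x ∈ L') (hy' : y ∈ L') : L = L' := by
  rw [← LS.eq_ln hL h hx hy, ← LS.eq_ln hL' h hx' hy']

theorem LS.two_le {L : Finset V} (hL : L ∈ S.lines) : 2 ≤ L.card := by
  obtain ⟨a, b, hab, rfl⟩ := LS.mem_lines.1 hL
  have : ({a, b} : Finset V) ⊆ S.ln a b := by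
    intro z hz
    rcases mem_insert.1 hz with rfl | hz
    · exact S.left hab
    · rw [mem_singleton.1 hz]; exact S.right hab
  calc 2 = ({a, b} : Finset V).card := (card_pair hab).symm
    _ ≤ _ := card_le_card this

theorem LS.le_three {L : Finset V} (hL : L ∈ S.lines) : L.card ≤ 3 := by
  obtain ⟨a, b, hab, rfl⟩ := LS.mem_lines.1 hL
  exact S.card_le hab

theorem LS.card_cases {x y : V} (h : x ≠ y) : (S.ln x y).card = 2 ∨ (S.ln x y).card = 3 := by
  have h1 := LS.two_le (LS.ln_mem (S := S) h)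
  have h2 := S.card_le h
  omega

theorem LS.mem_thr {x : V} {L : Finset V} : L ∈ S.thr x ↔ L ∈ S.lines ∧ x ∈ L := by
  simp [LS.thr]

theorem LS.mem_O {x y : V} : y ∈ S.O x ↔ y ≠ x ∧ (S.ln x y).card = 2 := by simp [LS.O]

theorem LS.O_symm {x y : V} : y ∈ S.O x ↔ x ∈ S.O y := by
  rw [LS.mem_O, LS.mem_O]
  constructor
  · rintro ⟨h1, h2⟩
    exact ⟨h1.symm, by rw [LS.ln_symm h1]; exact h2⟩
  · rintro ⟨h1, h2⟩
    exact ⟨h1.symm, by rw [LS.ln_symm h1]; exact h2⟩

theorem LS.ln_mem_thr {x y : V} (h : x ≠ y) : S.ln x y ∈ S.thr x :=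
  LS.mem_thr.2 ⟨LS.ln_mem h, S.left h⟩

/-! ### two-point lines -/

theorem LS.ln_eq_pair {x y : V} (h : x ≠ y) (hc : (S.ln x y).card = 2) : S.ln x y = {x, y} := by
  symm
  apply eq_of_subset_of_card_le
  · intro z hz
    rcases mem_insert.1 hz with rfl | hz
    · exact S.left h
    · rw [mem_singleton.1 hz]; exact S.right h
  · rw [hc, card_pair h]

/-! ### three-point lines -/

theorem LS.exists_third {x y : V} (h : x ≠ y) (hc : (S.ln x y).card = 3) :
    ∃ z, z ≠ x ∧ z ≠ y ∧ S.ln x y = {x, y, z} := by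
  have h1 : ({x, y} : Finset V) ⊆ S.ln x y := by
    intro z hz
    rcases mem_insert.1 hz with rfl | hz
    · exact S.left h
    · rw [mem_singleton.1 hz]; exact S.right h
  have h2 : (S.ln x y \ {x, y}).card = 1 := by
    rw [card_sdiff_of_subset h1, hc, card_pair h]
  obtain ⟨z, hz⟩ := card_eq_one.1 h2
  have hz' : z ∈ S.ln x y \ {x, y} := by rw [hz]; exact mem_singleton_self z
  rw [mem_sdiff, mem_insert, mem_singleton, not_or] at hz'
  refine ⟨z, hz'.2.1, hz'.2.2, ?_⟩
  rw [← sdiff_union_of_subset h1, hz]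
  ext w
  simp only [mem_union, mem_insert, mem_singleton]
  tauto

open Classical in
/-- the third point of the line through `x` and `y` -/
noncomputable def LS.th (S : LS V) (x y : V) : V :=
  if h : ∃ z, z ≠ x ∧ z ≠ y ∧ S.ln x y = {x, y, z} then h.choose else x

theorem LS.th_spec {x y : V} (h : x ≠ y) (hc : (S.ln x y).card = 3) :
    S.th x y ≠ x ∧ S.th x y ≠ y ∧ S.ln x y = {x, y, S.th x y} := by
  have h1 := LS.exists_third h hc
  rw [LS.th, dif_pos h1]
  exact h1.choose_spec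

theorem LS.th_ne_left {x y : V} (h : x ≠ y) (hc : (S.ln x y).card = 3) : S.th x y ≠ x :=
  (LS.th_spec h hc).1

theorem LS.th_ne_right {x y : V} (h : x ≠ y) (hc : (S.ln x y).card = 3) : S.th x y ≠ y :=
  (LS.th_spec h hc).2.1

theorem LS.ln_eq_th {x y : V} (h : x ≠ y) (hc : (S.ln x y).card = 3) :
    S.ln x y = {x, y, S.th x y} := (LS.th_spec h hc).2.2

theorem LS.th_mem {x y : V} (h : x ≠ y) (hc : (S.ln x y).card = 3) : S.th x y ∈ S.ln x y := by
  rw [LS.ln_eq_th h hc]; simp

theorem LS.th_unique {x y z : V} (h : x ≠ y) (hz : z ∈ S.ln x y) (hzx : z ≠ x) (hzy : z ≠ y) :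
    (S.ln x y).card = 3 ∧ S.th x y = z := by
  have hc : (S.ln x y).card = 3 := by
    rcases LS.card_cases h with hc | hc
    · rw [LS.ln_eq_pair h hc] at hz
      simp at hz
      tauto
    · exact hc
  refine ⟨hc, ?_⟩
  rw [LS.ln_eq_th h hc] at hz
  simp only [mem_insert, mem_singleton] at hz
  rcases hz with h1 | h1 | h1
  · exact absurd h1 hzx
  · exact absurd h1 hzy
  · exact h1.symm

/-- the line through `x` and the third point -/
theorem LS.ln_th {x y : V} (h : x ≠ y) (hc : (S.ln x y).card = 3) :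
    S.ln x (S.th x y) = S.ln x y :=
  S.uniq h (LS.th_ne_left h hc).symm (S.left h) (LS.th_mem h hc)

theorem LS.ln_th' {x y : V} (h : x ≠ y) (hc : (S.ln x y).card = 3) :
    S.ln y (S.th x y) = S.ln x y :=
  S.uniq h (LS.th_ne_right h hc).symm (S.right h) (LS.th_mem h hc)

theorem LS.th_th {x y : V} (h : x ≠ y) (hc : (S.ln x y).card = 3) : S.th x (S.th x y) = y := by
  have h1 := LS.ln_th h hc
  refine (LS.th_unique (LS.th_ne_left h hc).symm ?_ h.symm (LS.th_ne_right h hc).symm).2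
  rw [h1]; exact S.right h

theorem LS.th_symm {x y : V} (h : x ≠ y) (hc : (S.ln x y).card = 3) : S.th y x = S.th x y := by
  refine (LS.th_unique h.symm ?_ (LS.th_ne_right h hc) (LS.th_ne_left h hc)).2
  rw [← LS.ln_symm h]; exact LS.th_mem h hc

theorem LS.th_th' {x y : V} (h : x ≠ y) (hc : (S.ln x y).card = 3) : S.th y (S.th x y) = x := by
  have h1 := LS.ln_th' h hc
  refine (LS.th_unique (LS.th_ne_right h hc).symm ?_ h (LS.th_ne_left h hc).symm).2
  rw [h1]; exact S.left h

/-! ### counting the lines through a point -/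

theorem LS.fiber {x : V} {L : Finset V} (hL : L ∈ S.thr x) :
    (univ.erase x).filter (fun y => S.ln x y = L) = L.erase x := by
  ext y
  simp only [mem_filter, mem_erase, mem_univ, and_true]
  constructor
  · rintro ⟨h1, rfl⟩
    exact ⟨h1, S.right (Ne.symm h1)⟩
  · rintro ⟨h1, h2⟩
    exact ⟨h1, LS.eq_ln (LS.mem_thr.1 hL).1 (Ne.symm h1) (LS.mem_thr.1 hL).2 h2⟩

theorem LS.O_card {x : V} : (S.O x).card = ((S.thr x).filter fun L => L.card = 2).card := by
  refine card_nbij (fun y => S.ln x y) ?_ ?_ ?_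
  · intro y hy
    have hy := LS.mem_O.1 (mem_coe.1 hy)
    exact mem_coe.2 (mem_filter.2 ⟨LS.ln_mem_thr hy.1.symm, hy.2⟩)
  · intro y hy y' hy' h
    have hy := LS.mem_O.1 (mem_coe.1 hy)
    have hy' := LS.mem_O.1 (mem_coe.1 hy')
    simp only at h
    have h1 : y' ∈ S.ln x y := by rw [h]; exact S.right hy'.1.symm
    rw [LS.ln_eq_pair hy.1.symm hy.2] at h1
    simp only [mem_insert, mem_singleton] at h1
    rcases h1 with h1 | h1
    · exact absurd h1 hy'.1
    · exact h1.symm
  · intro L hL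
    have hL := mem_filter.1 (mem_coe.1 hL)
    have h1 := LS.mem_thr.1 hL.1
    obtain ⟨y, hy, hyx⟩ : ∃ y ∈ L, y ≠ x := by
      apply exists_mem_ne
      omega
    refine ⟨y, mem_coe.2 (LS.mem_O.2 ⟨hyx, ?_⟩), LS.eq_ln h1.1 hyx.symm h1.2 hy⟩
    rw [LS.eq_ln h1.1 hyx.symm h1.2 hy]
    exact hL.2

/-- `2 k = n - 1 + o` -/
theorem LS.count (x : V) : 2 * (S.thr x).card + 1 = Fintype.card V + (S.O x).card := by
  have h1 : (univ.erase x : Finset V).card = ∑ L ∈ S.thr x, (L.erase x).card := by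
    rw [card_eq_sum_card_fiberwise (f := fun y => S.ln x y) (t := S.thr x)]
    · exact sum_congr rfl fun L hL => by rw [LS.fiber hL]
    · intro y hy
      simp only [coe_erase, coe_univ, Set.mem_sdiff, Set.mem_univ, Set.mem_singleton_iff,
        true_and] at hy
      exact mem_coe.2 (LS.ln_mem_thr (Ne.symm hy))
  have h2 : ∀ L ∈ S.thr x, (L.erase x).card + (if L.card = 2 then 1 else 0) = 2 := by
    intro L hL
    have h3 := LS.mem_thr.1 hL
    have h4 := LS.two_le h3.1
    have h5 := LS.le_three h3.1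
    rw [card_erase_of_mem h3.2]
    split_ifs <;> omega
  have h3 : ∑ L ∈ S.thr x, ((L.erase x).card + (if L.card = 2 then 1 else 0)) =
      2 * (S.thr x).card := by
    rw [sum_congr rfl h2, sum_const, smul_eq_mul, mul_comm]
  rw [sum_add_distrib, ← h1, ← card_filter, ← LS.O_card, card_erase_of_mem (mem_univ x),
    card_univ] at h3
  have h4 : 0 < Fintype.card V := Fintype.card_pos_iff.2 ⟨x⟩
  omega

/-- total degree -/
theorem LS.total (lam : Finset V → ℤ) :
    ∑ y, ∑ L ∈ S.thr y, lam L = ∑ L ∈ S.lines, lam L * L.card := by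
  simp only [LS.thr, sum_filter]
  rw [sum_comm]
  refine sum_congr rfl fun L _ => ?_
  rw [← sum_filter, filter_mem_eq_inter, univ_inter, sum_const, nsmul_eq_mul, mul_comm]

end Pool.Agent.helper25.PV
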