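import Pool.Agent.helper25.PV.Bad

set_option autoImplicit false
set_option linter.unusedSectionVars false
set_option linter.unusedVariables false

/-!
# Project PV: sets of `r + 3` elements in general position over an `r`-circuit
-/

namespace Pool.Agent.helper25.PV

open Finset Pool.Agent.helper9.HB49

variable {α : Type*} [DecidableEq α] {M : Matroid α} [M.Finite] {r : ℕ}

/-- `X` has `r + 3` elements, and contains a set of `r` elements and rank `r - 1` whose span
contains no other element of `X` -/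
def Gd (M : Matroid α) (r : ℕ) (X : Finset α) : Prop :=
  (X : Set α) ⊆ M.E ∧ X.card = r + 3 ∧ ∃ D ⊆ X, D.card = r ∧ sm M r D ∧
    ∀ z ∈ X, z ∉ D → ¬ sm M r (insert z D)

theorem Pv.gd_good (h : Pv M r) (hH : CircuitsHilbert M) (h5 : 5 ≤ r) {X : Finset α}
    (hX : Gd M r X) : ∀ u ∈ X, ∀ v ∈ X, u ≠ v → ¬ sm M r (X \ {u, v}) := by
  obtain ⟨hXE, hXc, C, hCX, hCc, hCs, hoff⟩ := hX
  have hC : (C : Set α) ⊆ M.E := (Finset.coe_subset.2 hCX).trans hXE
  have h3 : (X \ C).card = 3 := by
    rw [card_sdiff_of_subset hCX]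
    omega
  obtain ⟨a, b, c, hab, hac, hbc, habc⟩ := card_eq_three.1 h3
  have ma : a ∈ X \ C := by rw [habc]; simp
  have mb : b ∈ X \ C := by rw [habc]; simp
  have mc : c ∈ X \ C := by rw [habc]; simp
  obtain ⟨haX, haC⟩ := mem_sdiff.1 ma
  obtain ⟨hbX, hbC⟩ := mem_sdiff.1 mb
  obtain ⟨hcX, hcC⟩ := mem_sdiff.1 mc
  have sa := hoff a haX haC
  have sb := hoff b hbX hbC
  have sc := hoff c hcX hcC
  have hc3 : ({a, b, c} : Finset α).card = 3 := by rw [← habc, h3]
  have hXs : X \ {a, b, c} = C := by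
    rw [← habc, Finset.sdiff_sdiff_eq_self hCX]
  intro u hu v hv huv hsm
  -- a small set with at least `r - 1` elements of `C`
  have key : ∀ D : Finset α, sm M r D → r ≤ (C ∩ D).card + 1 → a ∉ D ∧ b ∉ D ∧ c ∉ D := by
    intro D hD h1
    have h2 := h.sm_union hC hCs hD h1
    have h3 : ∀ z, ¬ sm M r (insert z C) → z ∉ D := by
      intro z hz hzD
      apply hz
      refine sm_mono ?_ h2
      intro w hw
      rw [mem_insert] at hw
      rw [mem_union]
      rcases hw with rfl | hw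
      · exact Or.inr hzD
      · exact Or.inl hw
    exact ⟨h3 a sa, h3 b sb, h3 c sc⟩
  have huvC : ∀ u v : α, u ≠ v → sm M r (X \ {u, v}) → u ∈ C := by
    intro u v huv hsm
    by_contra huC
    have h1 : C.erase v ⊆ C ∩ (X \ {u, v}) := by
      intro z hz
      rw [mem_erase] at hz
      rw [mem_inter, mem_sdiff]
      refine ⟨hz.2, hCX hz.2, ?_⟩
      rw [mem_insert, mem_singleton]
      rintro (h1 | h1)
      · exact huC (h1 ▸ hz.2)
      · exact hz.1 h1
    have h2 := card_le_card h1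
    have h3 := pred_card_le_card_erase (s := C) (a := v)
    have h4 := key _ hsm (by omega)
    rw [mem_sdiff, mem_sdiff, mem_sdiff] at h4
    have h6 : ({a, b, c} : Finset α) ⊆ {u, v} := by
      intro z hz
      simp only [mem_insert, mem_singleton] at hz
      by_contra h7
      rcases hz with rfl | rfl | rfl
      · exact h4.1 ⟨haX, h7⟩
      · exact h4.2.1 ⟨hbX, h7⟩
      · exact h4.2.2 ⟨hcX, h7⟩
    have h7 := card_le_card h6
    rw [hc3, card_pair huv] at h7
    omega
  have huC := huvC u v huv hsm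
  have hvC := huvC v u huv.symm (by rw [pair_comm]; exact hsm)
  have hk : ∀ w, w ∈ C → ¬ sm M r (X.erase w) := by
    intro w hw hsm'
    have h1 : C.erase w ⊆ C ∩ X.erase w := by
      intro z hz
      rw [mem_erase] at hz
      rw [mem_inter, mem_erase]
      exact ⟨hz.2, hz.1, hCX hz.2⟩
    have h2 := card_le_card h1
    rw [card_erase_of_mem hw] at h2
    have h4 := key _ hsm' (by omega)
    exact h4.1 (mem_erase.2 ⟨fun h7 => haC (h7 ▸ hw), haX⟩)
  obtain ⟨S, hS, hfree, hT⟩ := h.bad hH (by omega) hXE hXc hu hv huv hsm (hk v hvC) (hk u huC)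
  have ma : a ∈ X.erase v := mem_erase.2 ⟨fun h7 => haC (h7 ▸ hvC), haX⟩
  have mb : b ∈ X.erase v := mem_erase.2 ⟨fun h7 => hbC (h7 ▸ hvC), hbX⟩
  have mc : c ∈ X.erase v := mem_erase.2 ⟨fun h7 => hcC (h7 ▸ hvC), hcX⟩
  set t : Finset (X.erase v : Finset α) := {⟨a, ma⟩, ⟨b, mb⟩, ⟨c, mc⟩} with ht
  have htc : t.card = 3 := by
    rw [ht, card_insert_of_notMem (by simp [hab, hac]), card_pair (by simp [hbc])]
  have htl : t ∈ S.lines := by
    apply hT t htc
    · rw [ht]
      simp only [mem_insert, mem_singleton, Subtype.mk.injEq, not_or]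
      exact ⟨fun h7 => haC (h7 ▸ huC), fun h7 => hbC (h7 ▸ huC), fun h7 => hcC (h7 ▸ huC)⟩
    · rw [ht, image_insert, image_insert, image_singleton, hXs]
      exact hCs
  have hne : (⟨a, ma⟩ : (X.erase v : Finset α)) ≠ ⟨b, mb⟩ := by simp [hab]
  have hln := LS.eq_ln htl hne (by simp [ht]) (by simp [ht])
  refine hS.free ?_ hfree hne (by rw [hln]; exact htc)
  rw [Fintype.card_coe, card_erase_of_mem hv]
  omega

/-- the linear space on `X` is a Steiner triple system -/
theorem Pv.gd_ls (h : Pv M r) (hH : CircuitsHilbert M) (h5 : 5 ≤ r) {X : Finset α}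
    (hX : Gd M r X) : ∃ S : LS X, GX M r X S ∧ Function.Injective (eS S) ∧
      ∀ x y, x ≠ y → (S.ln x y).card = 3 := by
  have hbad := h.gd_good hH h5 hX
  obtain ⟨hXE, hXc, C, hCX, hCc, hCs, hoff⟩ := hX
  obtain ⟨S, hS⟩ := h.good hH (by omega) hXE hXc hbad
  have h3 : (X \ C).card = 3 := by
    rw [card_sdiff_of_subset hCX]
    omega
  obtain ⟨a, b, c, hab, hac, hbc, habc⟩ := card_eq_three.1 h3
  have ma : a ∈ X \ C := by rw [habc]; simp
  have mb : b ∈ X \ C := by rw [habc]; simp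
  have mc : c ∈ X \ C := by rw [habc]; simp
  obtain ⟨haX, haC⟩ := mem_sdiff.1 ma
  obtain ⟨hbX, hbC⟩ := mem_sdiff.1 mb
  obtain ⟨hcX, hcC⟩ := mem_sdiff.1 mc
  set t : Finset X := {⟨a, haX⟩, ⟨b, hbX⟩, ⟨c, hcX⟩} with ht
  have htc : t.card = 3 := by
    rw [ht, card_insert_of_notMem (by simp [hab, hac]), card_pair (by simp [hbc])]
  have htl : t ∈ S.lines := by
    apply (hS.tri t htc).1
    rw [ht, image_insert, image_insert, image_singleton, ← habc, Finset.sdiff_sdiff_eq_self hCX]
    exact hCs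
  have hne : (⟨a, haX⟩ : X) ≠ ⟨b, hbX⟩ := by simp [hab]
  have hln := LS.eq_ln htl hne (by simp [ht]) (by simp [ht])
  have h8 : 8 ≤ Fintype.card X := by rw [Fintype.card_coe]; omega
  have hst := hS.hp.steiner h8 hne (by rw [hln]; exact htc)
  exact ⟨S, hS, hst.1, hst.2⟩

end Pool.Agent.helper25.PV
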