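import Pool.Agent.helper25.PV.Coord

set_option autoImplicit false
set_option linter.unusedSectionVars false
set_option linter.unusedVariables false

/-!
# Project PV: projective spaces over the field with two elements
-/

namespace Pool.Agent.helper25.PV

open Finset

/-- the twelve points -/
def vecP : Fin 12 → Fin 5 → ZMod 2 :=
  ![![0,1,0,0,0], ![0,0,1,0,0], ![0,1,1,0,0], ![1,1,0,0,0], ![1,0,1,0,0], ![1,1,1,0,0],
    ![0,0,0,1,0], ![0,0,0,0,1], ![0,0,0,1,1], ![1,0,0,1,0], ![1,0,0,0,1], ![1,0,0,1,1]]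

/-- the eight lines -/
def linP : Fin 8 → Finset (Fin 12) :=
  ![{0,1,2}, {0,4,5}, {1,3,5}, {2,3,4}, {6,7,8}, {6,10,11}, {7,9,11}, {8,9,10}]

theorem vecP_inj : Function.Injective vecP := by decide +kernel

theorem vecP_ne : ∀ i, vecP i ≠ 0 := by decide +kernel

theorem linP_inj : Function.Injective linP := by decide +kernel

theorem linP_line : ∀ j, ∃ x y z, x ≠ y ∧ linP j = {x, y, z} ∧ vecP z = vecP x + vecP y := by
  decide +kernel

theorem linP_pair : ∀ i i', i ≠ i' →
    (∃ j, i ∈ linP j ∧ i' ∈ linP j) ∨ ∀ i'', vecP i'' ≠ vecP i + vecP i' := by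
  decide +kernel

theorem linP_two : ∀ i, ∑ j, (if i ∈ linP j then 1 else 0) = 2 * 1 := by decide +kernel

theorem vecP_sum : ∑ i, vecP i = 0 := by decide +kernel

theorem linP_no (x : Fin 8 → ℕ) (h : ∀ i, ∑ j, (if i ∈ linP j then x j else 0) = 1) : False := by
  have h0 := h 0
  have h1 := h 1
  have h5 := h 5
  simp [Fin.sum_univ_succ, linP] at h0 h1 h5
  omega

end Pool.Agent.helper25.PV
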