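import Pool.Agent.helper25.PV.F2

set_option autoImplicit false

/-!
# Project PV: a free point and a Pasch configuration
-/

namespace Pool.Agent.helper25.PV

open Finset

variable {V : Type*} [Fintype V] [DecidableEq V] {S : LS V}
variable {A : Type*} [AddCommGroup A] {e : V → A}

/-- in a decomposition a line with positive multiplicity adds to the degree of its points -/
theorem LS.le_deg (lam : Finset V → ℕ) {L : Finset V} {w : V} (hL : L ∈ S.lines)
    (hw : w ∈ L) :
    (lam L : ℤ) ≤ ∑ L ∈ S.thr w, (lam L : ℤ) :=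
  single_le_sum (f := fun L => (lam L : ℤ)) (fun L _ => Int.natCast_nonneg _)
    (LS.mem_thr.2 ⟨hL, hw⟩)

theorem LS.add_le_deg (lam : Finset V → ℕ) {L L' : Finset V} {w : V} (hL : L ∈ S.lines)
    (hw : w ∈ L) (hL' : L' ∈ S.lines) (hw' : w ∈ L') (hne : L ≠ L') :
    (lam L : ℤ) + lam L' ≤ ∑ L ∈ S.thr w, (lam L : ℤ) := by
  rw [← sum_pair (f := fun L => (lam L : ℤ)) hne]
  apply sum_le_sum_of_subset_of_nonneg
  · intro M hM
    simp only [mem_insert, mem_singleton] at hM
    rcases hM with rfl | rfl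
    · exact LS.mem_thr.2 ⟨hL, hw⟩
    · exact LS.mem_thr.2 ⟨hL', hw'⟩
  · exact fun _ _ _ => Int.natCast_nonneg _

theorem LS.exists_of_deg {lam : Finset V → ℕ} {w : V}
    (h : ∑ L ∈ S.thr w, (lam L : ℤ) ≠ 0) : ∃ L ∈ S.lines, w ∈ L ∧ lam L ≠ 0 := by
  by_contra h1
  push Not at h1
  apply h
  refine sum_eq_zero fun L hL => ?_
  have h2 := LS.mem_thr.1 hL
  rw [h1 L h2.1 h2.2]
  rfl

/-- six points forming a Pasch configuration, in the presence of a free point `o` -/
structure Pasch (S : LS V) (o x y u v u' v' : V) : Prop where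
  xy : x ≠ y
  xu : x ≠ u
  xv : x ≠ v
  xu' : x ≠ u'
  xv' : x ≠ v'
  yu : y ≠ u
  yv : y ≠ v
  yu' : y ≠ u'
  yv' : y ≠ v'
  uv : u ≠ v
  uu' : u ≠ u'
  uv' : u ≠ v'
  vu' : v ≠ u'
  vv' : v ≠ v'
  u'v' : u' ≠ v'
  ox : o ≠ x
  oy : o ≠ y
  ou : o ≠ u
  ov : o ≠ v
  ou' : o ≠ u'
  ov' : o ≠ v'
  l1 : S.ln x u = {x, u, v}
  l2 : S.ln x u' = {x, u', v'}
  l3 : S.ln y u = {y, u, u'}
  l4 : S.ln y v = {y, v, v'}

theorem pasch_kill (h : HP S e) (hn : 7 ≤ Fintype.card V) {o : V}
    (ho : ∀ v, v ≠ o → (S.ln o v).card = 2)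
    (htr : ∀ w w', w ≠ w' → w ≠ o → w' ≠ o → (S.ln w w').card = 3) {β : A}
    (hβ : ∀ w, w ≠ o → e w = β) (hτ : β + β + β = ∑ y, e y) {x y u v u' v' : V}
    (P : Pasch S o x y u v u' v') : False := by
  classical
  obtain ⟨xy, xu, xv, xu', xv', yu, yv, yu', yv', uv, uu', uv', vu', vv', u'v', ox, oy, ou, ov, ou',
    ov', l1, l2, l3, l4⟩ := P
  set Q : Finset V := {x, y, u, v, u', v'} with hQ
  have hQc : Q.card = 6 := by
    rw [hQ, card_insert_of_notMem (by simp [xy, xu, xv, xu', xv']),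
      card_insert_of_notMem (by simp [yu, yv, yu', yv']),
      card_insert_of_notMem (by simp [uv, uu', uv']), card_insert_of_notMem (by simp [vu', vv']),
      card_insert_of_notMem (by simp [u'v']), card_singleton]
  have hoQ : o ∉ Q := by simp [hQ, ox, oy, ou, ov, ou', ov']
  have hcls : ∑ w, (if w ∈ Q then (1 : ℤ) else 2) • e w = 0 := by
    have h1 : ∀ w ∈ univ, (if w ∈ Q then (1 : ℤ) else 2) • e w =
        (2 : ℤ) • e w - if w ∈ Q then β else 0 := by
      intro w _
      by_cases hw : w ∈ Q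
      · have hwo : w ≠ o := fun h2 => hoQ (h2 ▸ hw)
        rw [if_pos hw, if_pos hw, hβ w hwo, one_smul, two_smul]
        abel
      · rw [if_neg hw, if_neg hw, sub_zero]
    rw [sum_congr rfl h1, sum_sub_distrib, ← smul_sum, ← hτ, sum_ite_mem, univ_inter, sum_const,
      hQc]
    rw [two_smul]
    abel_nf
  have hcone : S.ConeP fun w => if w ∈ Q then (1 : ℤ) else 2 := by
    refine LS.ConeP.div (N := 2) (by norm_num) ?_
    have h1 := ((LS.ConeP.line (S := S) (LS.ln_mem xu)).add
      (LS.ConeP.line (S := S) (LS.ln_mem xu'))).add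
      ((LS.ConeP.line (S := S) (LS.ln_mem yu)).add (LS.ConeP.line (S := S) (LS.ln_mem yv)))
    rw [l1, l2, l3, l4] at h1
    convert h1 using 2 with w
    clear h1
    simp only [hQ, mem_insert, mem_singleton]
    by_cases h1 : w = x
    · rw [h1]; simp [xy, xu, xv, xu', xv']
    by_cases h2 : w = y
    · rw [h2]; simp [xy.symm, yu, yv, yu', yv']
    by_cases h3 : w = u
    · rw [h3]; simp [xu.symm, yu.symm, uv, uu', uv']
    by_cases h4 : w = v
    · rw [h4]; simp [xv.symm, yv.symm, uv.symm, vu', vv']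
    by_cases h5 : w = u'
    · rw [h5]; simp [xu'.symm, yu'.symm, uu'.symm, vu'.symm, u'v']
    by_cases h6 : w = v'
    · rw [h6]; simp [xv'.symm, yv'.symm, uv'.symm, vv'.symm, u'v'.symm]
    simp [h1, h2, h3, h4, h5, h6]
  obtain ⟨lam, hd⟩ := h.dec _ hcls hcone
  have ht := hd.total
  set s : ℤ := ∑ L ∈ S.lines, (lam L : ℤ) with hs
  have hg : ∑ w : V, (if w ∈ Q then (1 : ℤ) else 2) = 2 * Fintype.card V - 6 := by
    have h1 : ∀ w ∈ (univ : Finset V), (if w ∈ Q then (1 : ℤ) else 2) =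
        2 - if w ∈ Q then 1 else 0 := by
      intro w _; split_ifs <;> norm_num
    rw [sum_congr rfl h1, sum_sub_distrib, sum_ite_mem, univ_inter, sum_const, sum_const, hQc,
      card_univ]
    simp
    ring
  have hdo : ∑ L ∈ S.thr o, (lam L : ℤ) = s - 2 := by
    have h1 := hd o
    simp only [if_neg hoQ] at h1
    linarith
  have hcard : ∑ L ∈ S.lines, (lam L : ℤ) * L.card = 3 * s - ∑ L ∈ S.thr o, (lam L : ℤ) := by
    have h1 : ∀ L ∈ S.lines, (lam L : ℤ) * L.card = 3 * lam L - if o ∈ L then (lam L : ℤ) else 0 := by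
      intro L hL
      by_cases h2 : o ∈ L
      · obtain ⟨w, hw, hwo⟩ : ∃ w ∈ L, w ≠ o := by
          apply exists_mem_ne
          have := LS.two_le hL
          omega
        have h3 : L.card = 2 := by
          rw [← LS.eq_ln hL hwo.symm h2 hw]; exact ho w hwo
        rw [if_pos h2, h3]
        push_cast
        ring
      · obtain ⟨a, b, hab, rfl⟩ := LS.mem_lines.1 hL
        have h3 : (S.ln a b).card = 3 := htr a b hab (fun h4 => h2 (h4 ▸ S.left hab))
          (fun h4 => h2 (h4 ▸ S.right hab))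
        rw [if_neg h2, h3]
        push_cast
        ring
    rw [sum_congr rfl h1, sum_sub_distrib, ← mul_sum, ← sum_filter]
    rfl
  rw [hg, hcard, hdo] at ht
  have h5 : (7 : ℤ) ≤ Fintype.card V := by exact_mod_cast hn
  have hs2 : s = 2 := by
    have : ((Fintype.card V : ℤ) - 2) * (s - 2) = 0 := by linarith
    rcases mul_eq_zero.1 this with h6 | h6
    · linarith
    · linarith
  have hdeg1 : ∀ w ∈ Q, ∑ L ∈ S.thr w, (lam L : ℤ) = 1 := by
    intro w hw
    have h1 := hd w
    simp only [if_pos hw] at h1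
    linarith
  have hdeg0 : ∀ w, w ∉ Q → ∑ L ∈ S.thr w, (lam L : ℤ) = 0 := by
    intro w hw
    have h1 := hd w
    simp only [if_neg hw] at h1
    linarith
  have hsub : ∀ L ∈ S.lines, lam L ≠ 0 → L ⊆ Q ∧ L.card = 3 := by
    intro L hL h1
    have h2 : L ⊆ Q := by
      intro w hw
      by_contra h3
      have h4 := LS.le_deg lam hL hw
      rw [hdeg0 w h3] at h4
      have : (0 : ℤ) ≤ lam L := Int.natCast_nonneg _
      exact h1 (by exact_mod_cast le_antisymm h4 this)
    refine ⟨h2, ?_⟩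
    obtain ⟨a, b, hab, rfl⟩ := LS.mem_lines.1 hL
    exact htr a b hab (fun h4 => hoQ (h4 ▸ h2 (S.left hab))) (fun h4 => hoQ (h4 ▸ h2 (S.right hab)))
  have hdisj : ∀ L ∈ S.lines, ∀ L' ∈ S.lines, lam L ≠ 0 → lam L' ≠ 0 → L ≠ L' →
      ∀ w ∈ L, w ∉ L' := by
    intro L hL L' hL' h1 h2 h3 w hw hw'
    have h4 := LS.add_le_deg lam hL hw hL' hw' h3
    rw [hdeg1 w ((hsub L hL h1).1 hw)] at h4
    have h5 : (1 : ℤ) ≤ lam L := by exact_mod_cast Nat.one_le_iff_ne_zero.2 h1
    have h6 : (1 : ℤ) ≤ lam L' := by exact_mod_cast Nat.one_le_iff_ne_zero.2 h2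
    linarith
  have hex : ∀ w ∈ Q, ∃ L ∈ S.lines, w ∈ L ∧ lam L ≠ 0 := by
    intro w hw
    apply LS.exists_of_deg
    rw [hdeg1 w hw]
    norm_num
  obtain ⟨L, hL, hxL, hL0⟩ := hex x (by simp [hQ])
  obtain ⟨M, hM, hyM, hM0⟩ := hex y (by simp [hQ])
  obtain ⟨hLQ, hLc⟩ := hsub L hL hL0
  obtain ⟨hMQ, hMc⟩ := hsub M hM hM0
  have hyL : y ∉ L := by
    intro h1
    have h2 : L = S.ln x y := (LS.eq_ln hL xy hxL h1).symm
    have h3 : L ⊆ {x, y} := by
      intro w hw
      have h4 := hLQ hw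
      simp only [hQ, mem_insert, mem_singleton] at h4 ⊢
      rcases h4 with h4 | h4 | h4 | h4 | h4 | h4
      · exact Or.inl h4
      · exact Or.inr h4
      · exfalso
        have h5 := LS.eq_ln hL xu hxL (h4 ▸ hw)
        rw [← h5, l1] at h1
        simp only [mem_insert, mem_singleton] at h1
        rcases h1 with h1 | h1 | h1
        · exact xy h1.symm
        · exact yu h1
        · exact yv h1
      · exfalso
        have h5 : S.ln x u = L := LS.line_unique (LS.ln_mem xu) hL xv (S.left xu)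
          (by rw [l1]; simp) hxL (h4 ▸ hw)
        rw [← h5, l1] at h1
        simp only [mem_insert, mem_singleton] at h1
        rcases h1 with h1 | h1 | h1
        · exact xy h1.symm
        · exact yu h1
        · exact yv h1
      · exfalso
        have h5 := LS.eq_ln hL xu' hxL (h4 ▸ hw)
        rw [← h5, l2] at h1
        simp only [mem_insert, mem_singleton] at h1
        rcases h1 with h1 | h1 | h1
        · exact xy h1.symm
        · exact yu' h1
        · exact yv' h1
      · exfalso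
        have h5 : S.ln x u' = L := LS.line_unique (LS.ln_mem xu') hL xv' (S.left xu')
          (by rw [l2]; simp) hxL (h4 ▸ hw)
        rw [← h5, l2] at h1
        simp only [mem_insert, mem_singleton] at h1
        rcases h1 with h1 | h1 | h1
        · exact xy h1.symm
        · exact yu' h1
        · exact yv' h1
    have h4 := card_le_card h3
    rw [hLc, card_pair xy] at h4
    omega
  have hLM : L ≠ M := fun h1 => hyL (h1 ▸ hyM)
  have hxM : x ∉ M := hdisj L hL M hM hL0 hM0 hLM x hxL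
  obtain ⟨w, hwL, hwx⟩ : ∃ w ∈ L, w ≠ x := by
    apply exists_mem_ne
    omega
  have hMcard : ∀ a b : V, M ⊆ {y, a, b} → a ∈ M ∧ b ∈ M := by
    intro a b h1
    have h2 : M = {y, a, b} := by
      apply eq_of_subset_of_card_le h1
      rw [hMc]
      exact card_le_three
    rw [h2]
    simp
  have hwQ := hLQ hwL
  simp only [hQ, mem_insert, mem_singleton] at hwQ
  have key : L = {x, u, v} ∨ L = {x, u', v'} := by
    rcases hwQ with h1 | h1 | h1 | h1 | h1 | h1
    · exact absurd h1 hwx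
    · exact absurd (h1 ▸ hwL) hyL
    · left; rw [← LS.eq_ln hL xu hxL (h1 ▸ hwL)]; exact l1
    · left
      rw [← l1]
      exact (LS.line_unique (LS.ln_mem xu) hL xv (S.left xu) (by rw [l1]; simp) hxL (h1 ▸ hwL)).symm
    · right; rw [← LS.eq_ln hL xu' hxL (h1 ▸ hwL)]; exact l2
    · right
      rw [← l2]
      exact (LS.line_unique (LS.ln_mem xu') hL xv' (S.left xu') (by rw [l2]; simp) hxL
        (h1 ▸ hwL)).symm
  rcases key with h1 | h1
  · have h2 : M ⊆ {y, u', v'} := by
      intro a ha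
      have h3 := hMQ ha
      have h4 : a ∉ L := fun h5 => hdisj L hL M hM hL0 hM0 hLM a h5 ha
      rw [h1] at h4
      simp only [hQ, mem_insert, mem_singleton, not_or] at h3 h4 ⊢
      clear * - h3 h4
      tauto
    obtain ⟨h3, h4⟩ := hMcard _ _ h2
    have h5 := LS.line_unique (LS.ln_mem xu') hM u'v' (S.right xu') (by rw [l2]; simp) h3 h4
    exact hxM (h5 ▸ S.left xu')
  · have h2 : M ⊆ {y, u, v} := by
      intro a ha
      have h3 := hMQ ha
      have h4 : a ∉ L := fun h5 => hdisj L hL M hM hL0 hM0 hLM a h5 ha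
      rw [h1] at h4
      simp only [hQ, mem_insert, mem_singleton, not_or] at h3 h4 ⊢
      clear * - h3 h4
      tauto
    obtain ⟨h3, h4⟩ := hMcard _ _ h2
    have h5 := LS.line_unique (LS.ln_mem xu) hM uv (S.right xu) (by rw [l1]; simp) h3 h4
    exact hxM (h5 ▸ S.left xu)

end Pool.Agent.helper25.PV
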