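import Pool.Agent.helper25.PV.Bridge
import Pool.Agent.helper9.HB49.Types

set_option autoImplicit false
set_option linter.unusedSectionVars false
set_option linter.unusedVariables false

/-!
# Project PV: paving matroids
-/

namespace Pool.Agent.helper25.PV

open Finset Pool.Agent.helper9.HB49

variable {α : Type*} [DecidableEq α] {M : Matroid α} [M.Finite] {r : ℕ}

/-- `M` has rank `r` and all its circuits have at least `r` elements -/
structure Pv (M : Matroid α) (r : ℕ) : Prop where
  rank : M.eRank = r
  pav : ∀ C, M.IsCircuit C → r ≤ C.ncard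

/-- sets of rank less than `r` -/
def sm (M : Matroid α) (r : ℕ) (D : Finset α) : Prop := rk M (D : Set α) < r

theorem Pv.indep (h : Pv M r) {D : Finset α} (hD : (D : Set α) ⊆ M.E) (hc : D.card < r) :
    M.Indep (D : Set α) := by
  by_contra h1
  have h2 : M.Dep (D : Set α) := ⟨h1, hD⟩
  obtain ⟨C, hCD, hC⟩ := h2.exists_isCircuit_subset
  have h3 := h.pav C hC
  have h4 := Set.ncard_le_ncard hCD D.finite_toSet
  rw [Set.ncard_coe_finset] at h4
  omega

theorem Pv.rk_le (h : Pv M r) (X : Set α) : rk M X ≤ r := by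
  have h1 := M.eRk_le_eRank X
  rw [← cast_rk, h.rank] at h1
  exact_mod_cast h1

theorem sm_mono {D D' : Finset α} (h : D ⊆ D') (h' : sm M r D') : sm M r D :=
  lt_of_le_of_lt (rk_mono (Finset.coe_subset.2 h)) h'

theorem Pv.sm_union (h : Pv M r) {Y Y' : Finset α} (hY : (Y : Set α) ⊆ M.E) (h1 : sm M r Y)
    (h2 : sm M r Y') (h3 : r ≤ (Y ∩ Y').card + 1) : sm M r (Y ∪ Y') := by
  have h4 := rk_submod (M := M) (Y : Set α) (Y' : Set α) ((Y ∩ Y' : Finset α) : Set α)
    ((Y ∪ Y' : Finset α) : Set α) (by rw [Finset.coe_inter]) (by rw [Finset.coe_union])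
  obtain ⟨Z, hZ, hZc⟩ := exists_subset_card_eq (s := Y ∩ Y') (n := r - 1) (by omega)
  have h5 : rk M (Z : Set α) ≤ rk M ((Y ∩ Y' : Finset α) : Set α) :=
    rk_mono (Finset.coe_subset.2 hZ)
  unfold sm at *
  have hr0 : 0 < r := by omega
  have h6 : M.Indep (Z : Set α) := h.indep
    ((Finset.coe_subset.2 (hZ.trans inter_subset_left)).trans hY) (by omega)
  rw [indep_iff_rk Z.finite_toSet, Set.ncard_coe_finset] at h6
  omega

theorem Pv.circuit_iff (h : Pv M r) (hr0 : 0 < r) (D : Finset α) : M.IsCircuit (D : Set α) ↔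
    (D : Set α) ⊆ M.E ∧ ((D.card = r ∧ sm M r D) ∨
      (D.card = r + 1 ∧ ∀ x ∈ D, ¬ sm M r (D.erase x))) := by
  constructor
  · intro hD
    have h1 := circuit_rk hD
    have h2 := h.pav _ hD
    have h3 := h.rk_le (D : Set α)
    rw [Set.ncard_coe_finset] at h1 h2
    refine ⟨hD.subset_ground, ?_⟩
    rcases Nat.lt_or_ge D.card (r + 1) with h4 | h4
    · left
      exact ⟨by omega, by unfold sm; omega⟩
    · right
      refine ⟨by omega, fun x hx => ?_⟩
      have h5 : M.Indep ((D.erase x : Finset α) : Set α) := by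
        rw [Finset.coe_erase]
        exact hD.sdiff_singleton_indep hx
      rw [indep_iff_rk (Finset.finite_toSet _), Set.ncard_coe_finset, card_erase_of_mem hx] at h5
      unfold sm
      omega
  · rintro ⟨hE, ⟨h1, h2⟩ | ⟨h1, h2⟩⟩
    · unfold sm at h2
      refine isCircuit_of hE D.finite_toSet (by rw [Set.ncard_coe_finset]; omega) fun e he => ?_
      have h3 : ((D : Set α) \ {e}) = ((D.erase e : Finset α) : Set α) := by
        rw [Finset.coe_erase]
      rw [h3]
      refine h.indep ?_ ?_
      · exact (Finset.coe_subset.2 (erase_subset _ _)).trans hE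
      · rw [card_erase_of_mem (mem_coe.1 he)]
        omega
    · have h3 := h.rk_le (D : Set α)
      refine isCircuit_of hE D.finite_toSet (by rw [Set.ncard_coe_finset]; omega) fun e he => ?_
      have h4 : ((D : Set α) \ {e}) = ((D.erase e : Finset α) : Set α) := by
        rw [Finset.coe_erase]
      rw [h4, indep_iff_rk (Finset.finite_toSet _), Set.ncard_coe_finset,
        card_erase_of_mem (mem_coe.1 he)]
      have h5 := h2 e (mem_coe.1 he)
      unfold sm at h5
      have h6 := h.rk_le ((D.erase e : Finset α) : Set α)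
      omega

/-- the complement in `X` of a set of points -/
def cpl {X : Finset α} (L : Finset X) (W : Finset α) : Finset α := W \ L.image Subtype.val

end Pool.Agent.helper25.PV
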