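import Pool.Agent.helper25.PV.Z

set_option autoImplicit false
set_option linter.unusedSectionVars false
set_option linter.unusedVariables false

/-!
# Project PV: the zero case; a Hilbert linear space with at least eight points and a three-point
line is a Steiner triple system with injective `e`
-/

namespace Pool.Agent.helper25.PV

open Finset

variable {V : Type*} [Fintype V] [DecidableEq V] {S : LS V}
variable {A : Type*} [AddCommGroup A] {e : V → A}

theorem LS.lam_zero {lam : Finset V → ℕ} {w : V} (h : ∑ L ∈ S.thr w, (lam L : ℤ) = 0)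
    {L : Finset V} (hL : L ∈ S.lines) (hw : w ∈ L) : lam L = 0 := by
  have h4 := LS.le_deg lam hL hw
  rw [h] at h4
  have : (0 : ℤ) ≤ lam L := Int.natCast_nonneg _
  exact_mod_cast le_antisymm h4 this

/-- sum of the classes for `m - χ_Q` -/
theorem sum_sub_Q (m : ℤ) (Q : Finset V) :
    ∑ w, (if w ∈ Q then m - 1 else m) • e w = m • (∑ w, e w) - ∑ w ∈ Q, e w := by
  have h1 : ∀ w ∈ univ, (if w ∈ Q then m - 1 else m) • e w =
      m • e w - if w ∈ Q then e w else 0 := by
    intro w _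
    by_cases hw : w ∈ Q
    · rw [if_pos hw, if_pos hw, sub_smul, one_smul]
    · rw [if_neg hw, if_neg hw, sub_zero]
  rw [sum_congr rfl h1, sum_sub_distrib, ← smul_sum, sum_ite_mem, univ_inter]

theorem sp1_half {lam : Finset V → ℕ} {z x x' y y' : V} {Q : Finset V}
    (hz3 : ∀ y, y ≠ z → (S.ln z y).card = 3)
    (ho : ∀ x y, x ≠ y → z ∉ S.ln x y → (S.ln x y).card = 2)
    (hQ : Q = {z, x, x', y, y'})
    (hdeg1 : ∀ w ∈ Q, ∑ L ∈ S.thr w, (lam L : ℤ) = 1)
    (hdeg0 : ∀ w, w ∉ Q → ∑ L ∈ S.thr w, (lam L : ℤ) = 0)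
    (hT : S.ln z x = {z, x, x'}) (hT' : S.ln z y = {z, y, y'}) (hxz : x ≠ z) (hyz : y ≠ z)
    (hyy' : y ≠ y') (hy'z : y' ≠ z) (hyx : y ≠ x) (hyx' : y ≠ x') (hl : lam (S.ln z x) ≠ 0) :
    False := by
  have hl1 : (1 : ℤ) ≤ lam (S.ln z x) := by exact_mod_cast Nat.one_le_iff_ne_zero.2 hl
  have hTl : S.ln z x ∈ S.lines := LS.ln_mem hxz.symm
  obtain ⟨L, hL, hyL, hL0⟩ := LS.exists_of_deg (lam := lam) (w := y) (by
    rw [hdeg1 y (by simp [hQ])]; norm_num)
  have hL1 : (1 : ℤ) ≤ lam L := by exact_mod_cast Nat.one_le_iff_ne_zero.2 hL0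
  have hne : S.ln z x ≠ L := by
    intro h1
    rw [← h1, hT] at hyL
    simp only [mem_insert, mem_singleton] at hyL
    rcases hyL with h2 | h2 | h2
    · exact hyz h2
    · exact hyx h2
    · exact hyx' h2
  have hoff : ∀ w ∈ S.ln z x, w ∉ L := by
    intro w hw hwL
    have h1 := LS.add_le_deg lam hTl hw hL hwL hne
    have h2 : w ∈ Q := by
      rw [hT] at hw
      rw [hQ]
      simp only [mem_insert, mem_singleton] at hw ⊢
      clear * - hw
      tauto
    rw [hdeg1 w h2] at h1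
    linarith
  obtain ⟨w, hw, hwy⟩ : ∃ w ∈ L, w ≠ y := by
    apply exists_mem_ne
    have := LS.two_le hL
    omega
  have hwQ : w ∈ Q := by
    by_contra h1
    exact hL0 (LS.lam_zero (hdeg0 w h1) hL hw)
  have hwT : w ∉ S.ln z x := fun h1 => hoff w h1 hw
  rw [hT] at hwT
  rw [hQ] at hwQ
  simp only [mem_insert, mem_singleton, not_or] at hwT hwQ
  have hwy' : w = y' := by
    clear * - hwT hwQ hwy
    tauto
  rw [hwy'] at hw
  have h1 : S.ln z y = L := LS.line_unique (LS.ln_mem hyz.symm) hL hyy' (S.right hyz.symm)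
    (by rw [hT']; simp) hyL hw
  exact hoff z (S.left hxz.symm) (by rw [← h1]; exact S.left hyz.symm)

theorem sp1_kill (h : HP S e) (hn : 8 ≤ Fintype.card V) {z : V} (hz : e z = 0)
    (hz3 : ∀ y, y ≠ z → (S.ln z y).card = 3)
    (ho : ∀ x y, x ≠ y → z ∉ S.ln x y → (S.ln x y).card = 2) {b : A}
    (hb : ∀ y, y ≠ z → e y = b) (h2 : b + b = ∑ y, e y) : False := by
  obtain ⟨x, hxz⟩ : ∃ x, x ≠ z := by
    by_contra h1
    push Not at h1
    have h3 : (univ : Finset V) ⊆ {z} := fun y _ => mem_singleton.2 (h1 y)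
    have h4 := card_le_card h3
    rw [card_univ, card_singleton] at h4
    omega
  set x' := S.th z x with hx'
  obtain ⟨hx'z, hx'x, hT⟩ := LS.th_spec hxz.symm (hz3 x hxz)
  rw [← hx'] at hx'z hx'x hT
  obtain ⟨y, hy⟩ : ∃ y, y ∉ ({z, x, x'} : Finset V) := by
    by_contra h1
    push Not at h1
    have h3 : (univ : Finset V) ⊆ {z, x, x'} := fun y _ => h1 y
    have h4 := card_le_card h3
    have h5 : ({z, x, x'} : Finset V).card ≤ 3 := card_le_three
    rw [card_univ] at h4
    omega
  simp only [mem_insert, mem_singleton, not_or] at hy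
  obtain ⟨hyz, hyx, hyx'⟩ : y ≠ z ∧ y ≠ x ∧ y ≠ x' := hy
  set y' := S.th z y with hy'
  obtain ⟨hy'z, hy'y, hT'⟩ := LS.th_spec hyz.symm (hz3 y hyz)
  rw [← hy'] at hy'z hy'y hT'
  have hTT : S.ln z x ≠ S.ln z y := by
    intro h1
    have h3 : y ∈ S.ln z x := by rw [h1]; exact S.right hyz.symm
    rw [hT] at h3
    simp only [mem_insert, mem_singleton] at h3
    clear * - h3 hyz hyx hyx'
    tauto
  have hy'x : y' ≠ x := by
    intro h1
    apply hTT
    apply LS.eq_ln (LS.ln_mem hyz.symm) hxz.symm (S.left hyz.symm)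
    rw [hT', h1]; simp
  have hy'x' : y' ≠ x' := by
    intro h1
    apply hTT
    exact LS.line_unique (LS.ln_mem hxz.symm) (LS.ln_mem hyz.symm) hx'z (by rw [hT]; simp)
      (S.left hxz.symm) (by rw [hT', h1]; simp) (S.left hyz.symm)
  have hzA : z ∉ S.ln x y := by
    intro h1
    have h3 := LS.eq_ln (LS.ln_mem hyx.symm) hxz.symm h1 (S.left hyx.symm)
    have h4 := LS.eq_ln (LS.ln_mem hyx.symm) hyz.symm h1 (S.right hyx.symm)
    exact hTT (h3.trans h4.symm)
  have hzB : z ∉ S.ln x' y' := by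
    intro h1
    have h3 := LS.line_unique (LS.ln_mem hy'x'.symm) (LS.ln_mem hxz.symm) hx'z
      (S.left hy'x'.symm) h1 (by rw [hT]; simp) (S.left hxz.symm)
    have h4 := LS.line_unique (LS.ln_mem hy'x'.symm) (LS.ln_mem hyz.symm) hy'z
      (S.right hy'x'.symm) h1 (by rw [hT']; simp) (S.left hyz.symm)
    exact hTT (h3.symm.trans h4)
  have lA : S.ln x y = {x, y} := LS.ln_eq_pair hyx.symm (ho x y hyx.symm hzA)
  have lB : S.ln x' y' = {x', y'} := LS.ln_eq_pair hy'x'.symm (ho x' y' hy'x'.symm hzB)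
  set Q : Finset V := {z, x, x', y, y'} with hQ
  have hQc : Q.card = 5 := by
    rw [hQ, card_insert_of_notMem (by simp [hxz.symm, hx'z.symm, hyz.symm, hy'z.symm]),
      card_insert_of_notMem (by simp [hx'x.symm, hyx.symm, hy'x.symm]),
      card_insert_of_notMem (by simp [hyx'.symm, hy'x'.symm]),
      card_insert_of_notMem (by simp [hy'y.symm]), card_singleton]
  have hcls : ∑ w, (if w ∈ Q then (2 : ℤ) - 1 else 2) • e w = 0 := by
    rw [sum_sub_Q, hQ, sum_insert (by simp [hxz.symm, hx'z.symm, hyz.symm, hy'z.symm]),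
      sum_insert (by simp [hx'x.symm, hyx.symm, hy'x.symm]),
      sum_insert (by simp [hyx'.symm, hy'x'.symm]), sum_pair hy'y.symm, hz, hb x hxz, hb x' hx'z,
      hb y hyz, hb y' hy'z, ← h2]
    rw [two_smul]
    abel
  have hcone : S.ConeP fun w => if w ∈ Q then (2 : ℤ) - 1 else 2 := by
    refine LS.ConeP.div (N := 2) (by norm_num) ?_
    have h1 := ((LS.ConeP.line (S := S) (LS.ln_mem hxz.symm)).add
      (LS.ConeP.line (S := S) (LS.ln_mem hyz.symm))).add
      ((LS.ConeP.line (S := S) (LS.ln_mem hyx.symm)).add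
        (LS.ConeP.line (S := S) (LS.ln_mem hy'x'.symm)))
    rw [hT, hT', lA, lB] at h1
    convert h1 using 2 with w
    clear h1
    simp only [hQ, mem_insert, mem_singleton]
    by_cases h1 : w = z
    · rw [h1]; simp [hxz.symm, hx'z.symm, hyz.symm, hy'z.symm]
    by_cases h2 : w = x
    · rw [h2]; simp [hxz, hx'x.symm, hyx.symm, hy'x.symm]
    by_cases h3 : w = x'
    · rw [h3]; simp [hx'z, hx'x, hyx'.symm, hy'x'.symm]
    by_cases h4 : w = y
    · rw [h4]; simp [hyz, hyx, hyx', hy'y.symm]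
    by_cases h5 : w = y'
    · rw [h5]; simp [hy'z, hy'x, hy'x', hy'y]
    simp [h1, h2, h3, h4, h5]
  obtain ⟨lam, hd⟩ := h.dec _ hcls hcone
  have ht := hd.total
  set s : ℤ := ∑ L ∈ S.lines, (lam L : ℤ) with hs
  have hg : ∑ w : V, (if w ∈ Q then (2 : ℤ) - 1 else 2) = 2 * Fintype.card V - 5 := by
    have h1 : ∀ w ∈ (univ : Finset V), (if w ∈ Q then (2 : ℤ) - 1 else 2) =
        2 - if w ∈ Q then 1 else 0 := by
      intro w _; split_ifs <;> norm_num
    rw [sum_congr rfl h1, sum_sub_distrib, sum_ite_mem, univ_inter, sum_const, sum_const, hQc,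
      card_univ]
    simp
    ring
  have hdz : ∑ L ∈ S.thr z, (lam L : ℤ) = s - 1 := by
    have h1 := hd z
    dsimp only at h1
    rw [if_pos (by simp [hQ])] at h1
    linarith
  have hcard : ∑ L ∈ S.lines, (lam L : ℤ) * L.card = 2 * s + ∑ L ∈ S.thr z, (lam L : ℤ) := by
    have h1 : ∀ L ∈ S.lines, (lam L : ℤ) * L.card = 2 * lam L + if z ∈ L then (lam L : ℤ) else 0 := by
      intro L hL
      by_cases h2 : z ∈ L
      · obtain ⟨w, hw, hwo⟩ : ∃ w ∈ L, w ≠ z := by
          apply exists_mem_ne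
          have := LS.two_le hL
          omega
        have h3 : L.card = 3 := by
          rw [← LS.eq_ln hL hwo.symm h2 hw]; exact hz3 w hwo
        rw [if_pos h2, h3]
        push_cast
        ring
      · obtain ⟨a, b, hab, rfl⟩ := LS.mem_lines.1 hL
        have h3 : (S.ln a b).card = 2 := ho a b hab h2
        rw [if_neg h2, h3]
        push_cast
        ring
    rw [sum_congr rfl h1, sum_add_distrib, ← mul_sum, ← sum_filter]
    rfl
  rw [hg, hcard, hdz] at ht
  have h5 : (8 : ℤ) ≤ Fintype.card V := by exact_mod_cast hn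
  have hs2 : s = 2 := by
    have : ((Fintype.card V : ℤ) - 3) * (s - 2) = 0 := by linarith
    rcases mul_eq_zero.1 this with h6 | h6
    · linarith
    · linarith
  have hdeg1 : ∀ w ∈ Q, ∑ L ∈ S.thr w, (lam L : ℤ) = 1 := by
    intro w hw
    have h1 := hd w
    dsimp only at h1
    rw [if_pos hw] at h1
    linarith
  have hdeg0 : ∀ w, w ∉ Q → ∑ L ∈ S.thr w, (lam L : ℤ) = 0 := by
    intro w hw
    have h1 := hd w
    dsimp only at h1
    rw [if_neg hw] at h1
    linarith
  obtain ⟨M, hM, hzM, hM0⟩ := LS.exists_of_deg (lam := lam) (w := z) (by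
    rw [hdeg1 z (by simp [hQ])]; norm_num)
  obtain ⟨w, hw, hwz⟩ : ∃ w ∈ M, w ≠ z := by
    apply exists_mem_ne
    have := LS.two_le hM
    omega
  have hwQ : w ∈ Q := by
    by_contra h1
    exact hM0 (LS.lam_zero (hdeg0 w h1) hM hw)
  have hMe := LS.eq_ln hM hwz.symm hzM hw
  have key : M = S.ln z x ∨ M = S.ln z y := by
    rw [hQ] at hwQ
    simp only [mem_insert, mem_singleton] at hwQ
    rcases hwQ with h1 | h1 | h1 | h1 | h1
    · exact absurd h1 hwz
    · left; rw [← hMe, h1]
    · left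
      exact LS.line_unique hM (LS.ln_mem hxz.symm) hwz hw hzM (by rw [hT, h1]; simp)
        (S.left hxz.symm)
    · right; rw [← hMe, h1]
    · right
      exact LS.line_unique hM (LS.ln_mem hyz.symm) hwz hw hzM (by rw [hT', h1]; simp)
        (S.left hyz.symm)
  rcases key with h1 | h1
  · exact sp1_half hz3 ho hQ hdeg1 hdeg0 hT hT' hxz hyz hy'y.symm hy'z hyx hyx' (h1 ▸ hM0)
  · refine sp1_half (x := y) (x' := y') (y := x) (y' := x') (Q := Q) hz3 ho ?_ hdeg1 hdeg0 hT' hT
      hyz hxz hx'x.symm hx'z hyx.symm hy'x.symm (h1 ▸ hM0)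
    rw [hQ]
    ext v
    simp only [mem_insert, mem_singleton]
    clear * -
    tauto

/-- zero case: a Steiner triple system -/
theorem HP.z_steiner (h : HP S e) (hn : 8 ≤ Fintype.card V) {z : V} (hz : e z = 0) :
    Function.Injective e ∧ ∀ x y, x ≠ y → (S.ln x y).card = 3 := by
  by_cases hx : ∃ x, x ≠ z ∧ e x + e x = ∑ y, e y
  · exfalso
    obtain ⟨x, hxz, h2⟩ := hx
    have hc := h.z_three hn hz hxz
    have hstar := h.z_star hn hz hxz
    have hne : x ≠ S.th z x := (LS.th_ne_right hxz.symm hc).symm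
    have hex : e (S.th z x) = e x := by rw [hstar, ← h2]; abel
    have hall : ∀ y, y ≠ z → e y = e x := by
      intro y hy
      by_contra hy2
      exact h.half hn hne hex h2 hy2 (h.z_ne hn hz hy) fun u u' h3 h4 h5 => h.z_two hn hz h3 h4 h5
    refine sp1_kill h hn hz (fun y hy => h.z_three hn hz hy) ?_ hall h2
    intro u v huv hzu
    rcases LS.card_cases (S := S) huv with h3 | h3
    · exact h3
    · exfalso
      have h4 := h.third_sum huv h3
      rw [hall u (fun h5 => hzu (h5 ▸ S.left huv)), hall v (fun h5 => hzu (h5 ▸ S.right huv)),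
        hall _ (fun h5 => hzu (h5 ▸ LS.th_mem huv h3)), ← h2] at h4
      apply h.z_ne hn hz hxz
      have h5 : e x = (e x + e x + e x) - (e x + e x) := by abel
      rw [h5, h4, sub_self]
  · push Not at hx
    have hinj : Function.Injective e := by
      intro x x' hxx
      by_contra hne
      by_cases h0 : e x = 0
      · exact hne (h.z_unique hn h0 (hxx ▸ h0))
      · exact hx x (fun h1 => h0 (by rw [h1]; exact hz)) (h.z_two hn hz hne hxx.symm h0)
    refine ⟨hinj, ?_⟩
    intro x y hxy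
    by_cases hxz : x = z
    · rw [hxz]; exact h.z_three hn hz (fun h1 => hxy (hxz.trans h1.symm))
    rcases LS.card_cases (S := S) hxy with h1 | h1
    · exfalso
      have h2 := (h.z_mem_O hn hz hxz (y := y)).1 (LS.mem_O.2 ⟨hxy.symm, h1⟩)
      apply h2.2.1
      apply hinj
      rw [h2.2.2, h.z_star hn hz hxz]
    · exact h1

/-- a Hilbert linear space with at least eight points and a three-point line is a Steiner triple
system and `e` is injective -/
theorem HP.steiner (h : HP S e) (hn : 8 ≤ Fintype.card V) {a b : V}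
    (hab : a ≠ b) (hc : (S.ln a b).card = 3) :
    Function.Injective e ∧ ∀ x y, x ≠ y → (S.ln x y).card = 3 := by
  by_cases h0 : ∃ z, e z = 0
  · obtain ⟨z, hz⟩ := h0
    exact h.z_steiner hn hz
  · push Not at h0
    exact h.nz_steiner hn h0 hab hc

end Pool.Agent.helper25.PV
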