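import Pool.Agent.helper25.PV.Cls

set_option autoImplicit false
set_option linter.unusedSectionVars false
set_option linter.unusedVariables false

/-!
# Project PV: the class analysis; a Hilbert linear space with a three-point line and at least
eight points is a Steiner triple system and its points have distinct images
-/

namespace Pool.Agent.helper25.PV

open Finset

variable {V : Type*} [Fintype V] [DecidableEq V] {S : LS V}
variable {A : Type*} [AddCommGroup A] {e : V → A}

theorem LS.th_inj {x x' y : V} (hx : x ≠ y) (hx' : x' ≠ y) (h1 : (S.ln x y).card = 3)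
    (h2 : (S.ln x' y).card = 3) (h : S.th x y = S.th x' y) : x = x' := by
  have h3 := LS.th_th' hx h1
  have h4 := LS.th_th' hx' h2
  rw [← h3, ← h4, h]

/-- the common part: two points `x, x'` with image `b`, `2 b = τ`, and a point `y` with image
`d ≠ b, 0` -/
theorem HP.half (h : HP S e) (hn : 8 ≤ Fintype.card V) {x x' y : V}
    (hne : x ≠ x') (he : e x' = e x) (h2 : e x + e x = ∑ y, e y) (hy : e y ≠ e x) (hy0 : e y ≠ 0)
    (hz : ∀ u u', u ≠ u' → e u' = e u → e u ≠ 0 → e u + e u = ∑ y, e y) : False := by
  set τ : A := ∑ y, e y with hτ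
  set b : A := e x with hb
  have hτ0 : τ ≠ 0 := h.tau_ne (by omega)
  have hxy : x ≠ y := fun h1 => hy (by rw [hb, h1])
  have hxy' : x' ≠ y := fun h1 => hy (by rw [← he, h1])
  have hs : b + e y ≠ τ := by
    rw [← h2]
    intro h1
    exact hy (add_left_cancel h1)
  have hc := h.card3 hxy (by rw [← hb]; exact hs)
  have hc' := h.card3 hxy' (by rw [he]; exact hs)
  set w := S.th x y with hw
  set w' := S.th x' y with hw'
  have hew : e w = b - e y := by rw [hw, h.third_eq hxy hc, ← hb, ← hτ, ← h2]; abel
  have hew' : e w' = b - e y := by rw [hw', h.third_eq hxy' hc', he, ← hτ, ← h2]; abel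
  have hww' : w ≠ w' := fun h1 => hne (LS.th_inj hxy hxy' hc hc' h1)
  have hw0 : e w ≠ 0 := by
    rw [hew]
    intro h1
    exact hy (sub_eq_zero.1 h1).symm
  have h3 := hz w w' hww' (by rw [hew', hew]) hw0
  rw [hew] at h3
  have hd : e y + e y = 0 := by
    have h4 : e y + e y = (b + b) - (b - e y + (b - e y)) := by abel
    rw [h4, h2, h3, sub_self]
  -- the point of class `e y` is unique
  have huniq : ∀ v, e v = e y → v = y := by
    intro v hv
    by_contra h4
    have h5 := hz y v (Ne.symm h4) hv hy0
    rw [hd] at h5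
    exact hτ0 h5.symm
  have hxw' : x ≠ w' := by
    intro h4
    have h5 : b = b - e y := by rw [← hew', ← h4]
    exact hy0 (by
      have h6 : e y = b - (b - e y) := by abel
      rw [h6, ← h5, sub_self])
  have hs' : b + e w' ≠ τ := by
    rw [hew']
    intro h4
    apply hy0
    have h5 : e y = τ - (b + (b - e y)) := by rw [← h2]; abel
    rw [h5, h4, sub_self]
  have hc3 := h.card3 hxw' (by rw [← hb]; exact hs')
  have hv : S.th x w' = y := by
    apply huniq
    rw [h.third_eq hxw' hc3, hew', ← hb, ← hτ, ← h2]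
    abel
  have h4 := LS.th_th hxw' hc3
  rw [hv] at h4
  exact hww' h4

/-- without zero points: all points have different images -/
theorem HP.nz_inj (h : HP S e) (hn : 8 ≤ Fintype.card V) (h0 : ∀ x, e x ≠ 0) {a b : V}
    (hab : a ≠ b) (hc : (S.ln a b).card = 3) : Function.Injective e := by
  intro x x' hxx
  by_contra hne
  have h2 := h.nz_two hn h0 hne hxx.symm
  have hall : ∀ y, e y = e x := by
    intro y
    by_contra hy
    exact h.half hn hne hxx.symm h2 hy (h0 y) fun u u' h3 h4 _ => h.nz_two hn h0 h3 h4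
  have h3 := h.third_sum hab hc
  rw [hall a, hall b, hall (S.th a b), ← h2] at h3
  apply h0 x
  have h4 : e x = (e x + e x + e x) - (e x + e x) := by abel
  rw [h4, h3, sub_self]

/-- the case of one ordinary neighbour everywhere -/
theorem HP.beta (h : HP S e) (hn : 8 ≤ Fintype.card V) (h0 : ∀ x, e x ≠ 0)
    (hinj : Function.Injective e) (hO : ∀ x, (S.O x).card = 1) : False := by
  set τ : A := ∑ y, e y with hτ
  have hτ0 : τ ≠ 0 := h.tau_ne (by omega)
  have hbar : ∀ x, ∃ x', e x' = τ - e x := by
    intro x
    obtain ⟨x', hx'⟩ := card_pos.1 (by rw [hO x]; norm_num : 0 < (S.O x).card)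
    have h1 := LS.mem_O.1 hx'
    have h2 := h.pair_eq h1.1.symm h1.2
    exact ⟨x', by rw [hτ, ← h2]; abel⟩
  have hadd : ∀ x y, x ≠ y → e x + e y ≠ τ → ∃ w, e w = e x + e y := by
    intro x y hxy hs
    have hc := h.card3 hxy hs
    obtain ⟨w, hw⟩ := hbar (S.th x y)
    refine ⟨w, ?_⟩
    rw [hw, h.third_eq hxy hc]
    abel
  have h2 : ∀ x, e x + e x ≠ 0 := by
    intro x h3
    obtain ⟨x', hx'⟩ := hbar x
    have h4 := h.two_f_ne hn x'
    rw [← hτ, hx', sub_sub_cancel] at h4
    exact h4 h3
  have hshift : ∀ x, ∃ v, e v = e x + τ := by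
    intro x
    obtain ⟨x', hx'⟩ := hbar x
    obtain ⟨y, hy⟩ : ∃ y, y ∉ ({x, x'} : Finset V) := by
      by_contra h3
      push Not at h3
      have h4 : (univ : Finset V) ⊆ {x, x'} := fun y _ => h3 y
      have h5 := card_le_card h4
      rw [card_univ] at h5
      have h6 : ({x, x'} : Finset V).card ≤ 2 := card_le_two
      omega
    simp only [mem_insert, mem_singleton, not_or] at hy
    have hs : e x + e y ≠ τ := by
      intro h3
      apply hy.2
      apply hinj
      rw [hx', ← h3]
      abel
    obtain ⟨y', hy'⟩ := hbar y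
    obtain ⟨w, hw⟩ := hadd x y (Ne.symm hy.1) hs
    by_cases h3 : w = y'
    · -- use `y'` in place of `y`
      have hyy' : e x + e y = τ - e y := by rw [← hw, ← hy', h3]
      have hs' : e x + e y' ≠ τ := by
        rw [hy']
        intro h4
        apply hy.1
        apply hinj
        have h5 : e y = τ - (e x + (τ - e y)) + e x := by abel
        rw [h5, h4]; abel
      have hxy' : x ≠ y' := by
        intro h4
        apply hs
        rw [h4, hy']; abel
      obtain ⟨w2, hw2⟩ := hadd x y' hxy' hs'
      have hne : w2 ≠ y := by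
        intro h4
        apply h2 x
        rw [h4, hy'] at hw2
        have h5 : e x + e x = (e x + (τ - e y)) - e y - ((τ - e y) - (e x + e y)) := by abel
        rw [h5, ← hw2, ← hyy']; abel
      obtain ⟨v, hv⟩ := hadd w2 y hne (by
        rw [hw2, hy']
        intro h4
        apply h0 x
        have h5 : e x = (e x + (τ - e y) + e y) - τ := by abel
        rw [h5, h4, sub_self])
      exact ⟨v, by rw [hv, hw2, hy']; abel⟩
    · obtain ⟨v, hv⟩ := hadd w y' h3 (by
        rw [hw, hy']
        intro h4
        apply h0 x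
        have h5 : e x = (e x + e y + (τ - e y)) - τ := by abel
        rw [h5, h4, sub_self])
      exact ⟨v, by rw [hv, hw, hy']; abel⟩
  obtain ⟨x⟩ : Nonempty V := by
    apply Fintype.card_pos_iff.1
    omega
  obtain ⟨v, hv⟩ := hshift x
  obtain ⟨v', hv'⟩ := hbar v
  have hneg : e v' = - e x := by rw [hv', hv]; abel
  have hxv' : x ≠ v' := by
    intro h3
    apply h2 x
    rw [← h3] at hneg
    nth_rewrite 2 [hneg]
    abel
  obtain ⟨w, hw⟩ := hadd x v' hxv' (by
    rw [hneg, add_neg_cancel]
    exact hτ0.symm)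
  apply h0 w
  rw [hw, hneg, add_neg_cancel]

/-- without zero points: a Steiner triple system -/
theorem HP.nz_steiner (h : HP S e) (hn : 8 ≤ Fintype.card V) (h0 : ∀ x, e x ≠ 0) {a b : V}
    (hab : a ≠ b) (hc : (S.ln a b).card = 3) :
    Function.Injective e ∧ ∀ x y, x ≠ y → (S.ln x y).card = 3 := by
  have hinj := h.nz_inj hn h0 hab hc
  refine ⟨hinj, ?_⟩
  have hle : ∀ x, (S.O x).card ≤ 1 := by
    intro x
    rw [card_le_one]
    intro y hy y' hy'
    have h1 := (h.mem_O_iff h0).1 hy
    have h2 := (h.mem_O_iff h0).1 hy'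
    apply hinj
    exact add_left_cancel (h1.2.trans h2.2.symm)
  rcases Nat.mod_two_eq_zero_or_one (Fintype.card V) with hpar | hpar
  · exfalso
    apply h.beta hn h0 hinj
    intro x
    have h1 := LS.parity (S := S) x
    have h2 := hle x
    omega
  · intro x y hxy
    rcases LS.card_cases (S := S) hxy with h1 | h1
    · exfalso
      have h2 : y ∈ S.O x := LS.mem_O.2 ⟨hxy.symm, h1⟩
      have h3 := LS.parity (S := S) x
      have h4 := hle x
      have h5 := card_pos.2 ⟨y, h2⟩
      omega
    · exact h1

end Pool.Agent.helper25.PV
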