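import Pool.Agent.helper25.PV.Cla

set_option autoImplicit false
set_option linter.unusedSectionVars false
set_option linter.unusedVariables false

/-!
# Project PV: sufficiency
-/

namespace Pool.Agent.helper25.PV

open Set Pool.Agent.helper9.HB49

variable {α : Type*}

/-- uniform matroids up to coloops and series classes -/
theorem phi_hilbert {M : Matroid α} [M.Finite] (F : Finset α) (s : ℕ) (φ : α → α)
    (hφ : ∀ e ∈ F, φ e = e)
    (hC : ∀ C, M.IsCircuit C ↔ ∃ T : Finset α, T ⊆ F ∧ T.card = s + 1 ∧ C = {e | φ e ∈ T}) :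
    CircuitsHilbert M := by
  classical
  rw [hilbert_iff]
  intro p hp hc
  have h0 : ∀ e, 0 ≤ p e := fun e => by
    have := cone_nonneg hc e
    exact_mod_cast this
  have hcF : ∀ C, M.IsCircuit C → (C ∩ F).ncard = s + 1 := by
    intro C h
    obtain ⟨T, hT, hTc, rfl⟩ := (hC C).1 h
    have h1 : {e | φ e ∈ T} ∩ (F : Set α) = (T : Set α) := by
      ext e
      simp only [mem_inter_iff, mem_setOf_eq, Finset.mem_coe]
      constructor
      · rintro ⟨h1, h2⟩
        rwa [hφ e h2] at h1
      · intro h1
        exact ⟨by rw [hφ e (hT h1)]; exact h1, hT h1⟩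
    rw [h1, Set.ncard_coe_finset, hTc]
  have h1 : ∀ v ∈ Cone M, ∀ e, ((s : ℚ) + 1) * v e ≤ ∑ f ∈ F, v f := by
    intro v hv e
    induction hv using Submodule.span_induction with
    | mem v hv =>
      obtain ⟨C, h, rfl⟩ := hv
      rw [sum_chi, hcF C h]
      push_cast
      have := chi_le_one C e
      have h2 : (0 : ℚ) ≤ (s : ℚ) + 1 := by positivity
      nlinarith
    | zero => simp
    | add v w _ _ h1 h2 =>
      simp only [Pi.add_apply, Finset.sum_add_distrib]
      linarith
    | smul q v _ h1 =>
      have : ∑ f ∈ F, (q • v) f = (q : ℚ) * ∑ f ∈ F, v f := by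
        rw [Finset.mul_sum]
        exact Finset.sum_congr rfl fun f _ => by simp [NNRat.smul_def]
      rw [this, Pi.smul_apply, NNRat.smul_def]
      have h2 : (0 : ℚ) ≤ (q : ℚ) := q.2
      nlinarith [mul_le_mul_of_nonneg_left h1 h2]
  have h2 : ∀ z ∈ Lat M, ((s : ℤ) + 1) ∣ ∑ f ∈ F, z f := by
    intro z hz
    induction hz using AddSubgroup.closure_induction with
    | mem v hv =>
      obtain ⟨C, h, rfl⟩ := hv
      rw [sum_chi, hcF C h]
      push_cast
      exact dvd_rfl
    | zero => simp
    | add v w _ _ h1 h2 =>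
      simp only [Pi.add_apply, Finset.sum_add_distrib]
      exact dvd_add h1 h2
    | neg v _ h1 =>
      simp only [Pi.neg_apply, Finset.sum_neg_distrib]
      exact (dvd_neg).2 h1
  have h3 : ∀ z ∈ Lat M, ∀ e, z e = if φ e ∈ F then z (φ e) else 0 := by
    intro z hz
    induction hz using AddSubgroup.closure_induction with
    | mem v hv =>
      obtain ⟨C, h, rfl⟩ := hv
      obtain ⟨T, hT, hTc, rfl⟩ := (hC C).1 h
      intro e
      by_cases h4 : φ e ∈ F
      · rw [if_pos h4, chi_apply, chi_apply]
        simp only [mem_setOf_eq]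
        rw [hφ _ h4]
      · rw [if_neg h4]
        exact chi_apply_notMem fun h5 => h4 (hT h5)
    | zero => intro e; simp
    | add v w _ _ h1 h2 =>
      intro e
      rw [Pi.add_apply, h1 e, h2 e]
      split_ifs <;> simp
    | neg v _ h1 =>
      intro e
      rw [Pi.neg_apply, h1 e]
      split_ifs <;> simp
  obtain ⟨N, hN⟩ := h2 p hp
  have hN0 : 0 ≤ N := by
    have : 0 ≤ ∑ f ∈ F, p f := Finset.sum_nonneg fun f _ => h0 f
    rw [hN] at this
    by_contra hcon
    push Not at hcon
    nlinarith
  obtain ⟨N, rfl⟩ := Int.eq_ofNat_of_zero_le hN0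
  have hle : ∀ e, p e ≤ N := by
    intro e
    have := h1 _ hc e
    have h3 : ((s : ℤ) + 1) * p e ≤ ∑ f ∈ F, p f := by exact_mod_cast this
    rw [hN] at h3
    by_contra hcon
    push Not at hcon
    have : (0 : ℤ) < (s : ℤ) + 1 := by positivity
    nlinarith
  obtain ⟨T, P, hT, -, hz⟩ := decomp F s N 0 (fun e => if e ∈ F then (p e).toNat else 0)
    (fun e he => by
      by_contra h
      simp [h] at he)
    (by
      have : ((∑ e ∈ F, (if e ∈ F then (p e).toNat else 0) : ℕ) : ℤ) =
          ((s + 1) * N + s * 0 : ℕ) := by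
        rw [Finset.sum_congr rfl fun e he => if_pos he]
        push_cast
        rw [Finset.sum_congr rfl fun e _ => Int.toNat_of_nonneg (h0 e)]
        rw [hN]
        ring
      exact_mod_cast this)
    (fun e => by
      split_ifs with h
      · have := hle e
        omega
      · exact Nat.zero_le _)
  have : p = fun e => ∑ i, chi ℤ {e | φ e ∈ T i} e := by
    funext e
    rw [h3 p hp e]
    by_cases h4 : φ e ∈ F
    · rw [if_pos h4]
      have h5 := hz (φ e)
      rw [if_pos h4, Int.toNat_of_nonneg (h0 _)] at h5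
      rw [h5]
      simp only [Finset.univ_eq_empty, Finset.sum_empty, add_zero]
      refine Finset.sum_congr rfl fun i _ => ?_
      rw [chi_apply, chi_apply]
      simp
    · rw [if_neg h4]
      symm
      refine Finset.sum_eq_zero fun i _ => chi_apply_notMem fun h5 => h4 ((hT i).1 h5)
  rw [this]
  exact intCone_of_sum _ fun i => (hC _).2 ⟨T i, (hT i).1, (hT i).2, rfl⟩

theorem TU.hilbert {M : Matroid α} [M.Finite] {r : ℕ} (h : TU M r) : CircuitsHilbert M :=
  uniform_hilbert r h

theorem TC.hilbert {M : Matroid α} [M.Finite] {r : ℕ} (hr : 0 < r) (h : TC M r) :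
    CircuitsHilbert M := by
  classical
  obtain ⟨e, he, h⟩ := h
  have hEf : M.E.Finite := M.ground_finite
  refine phi_hilbert (hEf.toFinset.erase e) (r - 1) id (fun _ _ => rfl) fun C => ?_
  rw [h]
  constructor
  · rintro ⟨h1, h2⟩
    have hCf : C.Finite := hEf.subset (h1.trans sdiff_subset)
    refine ⟨hCf.toFinset, ?_, ?_, ?_⟩
    · intro x hx
      have := h1 (hCf.mem_toFinset.1 hx)
      rw [Finset.mem_erase, Finite.mem_toFinset]
      exact ⟨this.2, this.1⟩
    · rw [← Set.ncard_eq_toFinset_card _ hCf, h2]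
      omega
    · ext x
      simp
  · rintro ⟨T, hT, hTc, rfl⟩
    have h1 : {x | id x ∈ T} = (T : Set α) := by ext x; simp
    rw [h1, Set.ncard_coe_finset]
    refine ⟨fun x hx => ?_, by omega⟩
    have := hT hx
    rw [Finset.mem_erase, Finite.mem_toFinset] at this
    exact ⟨this.2, this.1⟩

theorem TS.hilbert {M : Matroid α} [M.Finite] {r : ℕ} (hr : 0 < r) (h : TS M r) :
    CircuitsHilbert M := by
  classical
  obtain ⟨y, hy, z, hz, hyz, h⟩ := h
  have hEf : M.E.Finite := M.ground_finite
  set F := hEf.toFinset.erase z with hF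
  have hFm : ∀ x, x ∈ F ↔ x ≠ z ∧ x ∈ M.E := by
    intro x
    rw [hF, Finset.mem_erase, Finite.mem_toFinset]
  refine phi_hilbert F (r - 1) (fun x => if x = z then y else x) ?_ fun C => ?_
  · intro e he
    rw [if_neg ((hFm e).1 he).1]
  have hset : ∀ T : Finset α, T ⊆ F → {e | (if e = z then y else e) ∈ T} =
      if y ∈ T then insert z (T : Set α) else (T : Set α) := by
    intro T hT
    ext x
    rw [mem_setOf_eq]
    by_cases hx : x = z
    · rw [if_pos hx, hx]
      by_cases hyT : y ∈ T
      · rw [if_pos hyT]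
        simp [hyT]
      · rw [if_neg hyT]
        simp only [hyT, Finset.mem_coe, false_iff]
        intro h1
        exact ((hFm z).1 (hT h1)).1 rfl
    · rw [if_neg hx]
      split_ifs <;> simp [hx]
  rw [h]
  constructor
  · rintro (⟨h1, h2⟩ | ⟨h1, h2, h3, h4⟩)
    · have hCf : C.Finite := hEf.subset (h1.trans sdiff_subset)
      have hsub : hCf.toFinset ⊆ F := by
        intro x hx
        have := h1 (hCf.mem_toFinset.1 hx)
        rw [hFm]
        have h5 := this.2
        rw [mem_insert_iff, mem_singleton_iff, not_or] at h5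
        exact ⟨h5.2, this.1⟩
      refine ⟨hCf.toFinset, hsub, ?_, ?_⟩
      · rw [← Set.ncard_eq_toFinset_card _ hCf, h2]
        omega
      · rw [hset _ hsub, if_neg]
        · simp
        · rw [Finite.mem_toFinset]
          intro h3
          have := (h1 h3).2
          simp at this
    · have hCf : C.Finite := hEf.subset h1
      have hsub : hCf.toFinset.erase z ⊆ F := by
        intro x hx
        rw [Finset.mem_erase, Finite.mem_toFinset] at hx
        rw [hFm]
        exact ⟨hx.1, h1 hx.2⟩
      refine ⟨hCf.toFinset.erase z, hsub, ?_, ?_⟩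
      · rw [Finset.card_erase_of_mem (by simpa using h3), ← Set.ncard_eq_toFinset_card _ hCf, h4]
        omega
      · rw [hset _ hsub, if_pos]
        · ext x
          by_cases hx : x = z
          · simp [hx, h3]
          · simp [hx]
        · rw [Finset.mem_erase, Finite.mem_toFinset]
          exact ⟨hyz, h2⟩
  · rintro ⟨T, hT, hTc, rfl⟩
    rw [hset T hT]
    by_cases hyT : y ∈ T
    · right
      rw [if_pos hyT]
      have hzT : z ∉ T := fun h1 => ((hFm z).1 (hT h1)).1 rfl
      refine ⟨?_, mem_insert_of_mem _ hyT, mem_insert _ _, ?_⟩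
      · intro x hx
        rcases hx with rfl | hx
        · exact hz
        · exact ((hFm x).1 (hT hx)).2
      · rw [ncard_insert_of_notMem (by simpa using hzT), Set.ncard_coe_finset]
        omega
    · left
      rw [if_neg hyT, Set.ncard_coe_finset]
      refine ⟨fun x hx => ?_, by omega⟩
      have h1 := (hFm x).1 (hT hx)
      refine ⟨h1.2, ?_⟩
      rw [mem_insert_iff, mem_singleton_iff, not_or]
      exact ⟨fun h2 => hyT (h2 ▸ hx), h1.1⟩

end Pool.Agent.helper25.PV
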