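import Pool.Agent.helper25.PV.Steiner

set_option autoImplicit false
set_option linter.unusedSectionVars false
set_option linter.unusedVariables false

/-!
# Project PV: the case of a point with image zero
-/

namespace Pool.Agent.helper25.PV

open Finset

variable {V : Type*} [Fintype V] [DecidableEq V] {S : LS V}
variable {A : Type*} [AddCommGroup A] {e : V → A}

/-- only one point has image zero -/
theorem HP.z_unique (h : HP S e) (hn : 8 ≤ Fintype.card V) {z z' : V} (hz : e z = 0)
    (hz' : e z' = 0) : z = z' := by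
  by_contra hne
  rcases LS.card_cases (S := S) hne with h1 | h1
  · have h2 := h.pair_eq hne h1
    rw [hz, hz', add_zero] at h2
    exact h.tau_ne (by omega) h2.symm
  · obtain ⟨w, hw, -⟩ := h.common hn hne h1 (hz.trans hz'.symm)
    have h2 := LS.mem_O.1 hw
    have h3 := h.pair_eq h2.1.symm h2.2
    rw [hz, zero_add] at h3
    exact h.e_ne_tau hn w h3

/-- all lines through a point with image zero have three points -/
theorem HP.z_three (h : HP S e) (hn : 8 ≤ Fintype.card V) {z : V} (hz : e z = 0) {x : V}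
    (hx : x ≠ z) : (S.ln z x).card = 3 := by
  rcases LS.card_cases (S := S) hx.symm with h1 | h1
  · have h3 := h.pair_eq hx.symm h1
    rw [hz, zero_add] at h3
    exact absurd h3 (h.e_ne_tau hn x)
  · exact h1

theorem HP.z_star (h : HP S e) (hn : 8 ≤ Fintype.card V) {z : V} (hz : e z = 0) {x : V}
    (hx : x ≠ z) : e (S.th z x) = (∑ y, e y) - e x := by
  rw [h.third_eq hx.symm (h.z_three hn hz hx), hz, sub_zero]

theorem HP.z_ne (h : HP S e) (hn : 8 ≤ Fintype.card V) {z : V} (hz : e z = 0) {x : V}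
    (hx : x ≠ z) : e x ≠ 0 := fun h1 => hx (h.z_unique hn h1 hz)

theorem HP.z_odd_card (h : HP S e) (hn : 8 ≤ Fintype.card V) {z : V} (hz : e z = 0) :
    Fintype.card V % 2 = 1 := by
  have h1 : (S.O z).card = 0 := by
    rw [card_eq_zero, eq_empty_iff_forall_notMem]
    intro y hy
    have h2 := LS.mem_O.1 hy
    rw [h.z_three hn hz h2.1] at h2
    omega
  have h2 := LS.parity (S := S) z
  omega

/-- the ordinary neighbours -/
theorem HP.z_mem_O (h : HP S e) (hn : 8 ≤ Fintype.card V) {z : V} (hz : e z = 0) {x : V}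
    (hx : x ≠ z) {y : V} :
    y ∈ S.O x ↔ y ≠ x ∧ y ≠ S.th z x ∧ e y = (∑ y, e y) - e x := by
  rw [LS.mem_O]
  constructor
  · rintro ⟨h1, h2⟩
    refine ⟨h1, ?_, ?_⟩
    · rintro rfl
      rw [LS.ln_th' hx.symm (h.z_three hn hz hx), h.z_three hn hz hx] at h2
      omega
    · rw [← h.pair_eq h1.symm h2]; abel
  · rintro ⟨h1, h2, h3⟩
    refine ⟨h1, ?_⟩
    rcases LS.card_cases (S := S) h1.symm with h4 | h4
    · exact h4
    · exfalso
      have h5 : e (S.th x y) = 0 := by
        rw [h.third_eq h1.symm h4, h3]; abel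
      have h6 := h.z_unique hn h5 hz
      apply h2
      have h7 := LS.th_th h1.symm h4
      rw [h6, LS.th_symm hx.symm (h.z_three hn hz hx)] at h7
      exact h7.symm

/-- the classes `b` with `2 b ≠ τ` have odd size -/
theorem HP.z_odd (h : HP S e) (hn : 8 ≤ Fintype.card V) {z : V} (hz : e z = 0) {x : V}
    (hx : x ≠ z) (h2 : e x + e x ≠ ∑ y, e y) : ¬ Even (Cl e (e x)).card := by
  set x' := S.th z x with hx'
  have hc := h.z_three hn hz hx
  have hx'z : x' ≠ z := LS.th_ne_left hx.symm hc
  have hx'x : x' ≠ x := LS.th_ne_right hx.symm hc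
  have hex' : e x' = (∑ y, e y) - e x := h.z_star hn hz hx
  have hth : S.th z x' = x := LS.th_th hx.symm hc
  have hO : S.O x' = (Cl e (e x)).erase x := by
    ext y
    rw [h.z_mem_O hn hz hx'z, hth, hex', sub_sub_cancel, mem_erase, mem_Cl]
    constructor
    · rintro ⟨-, h3, h4⟩
      exact ⟨h3, h4⟩
    · rintro ⟨h3, h4⟩
      refine ⟨?_, h3, h4⟩
      rintro rfl
      apply h2
      rw [← h4]
      nth_rewrite 2 [h4]
      rw [hex']
      abel
  have h3 := LS.parity (S := S) x'
  have h4 := h.z_odd_card hn hz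
  have hm : x ∈ Cl e (e x) := mem_Cl.2 rfl
  have h5 : 1 ≤ (Cl e (e x)).card := card_pos.2 ⟨x, hm⟩
  rw [hO, card_erase_of_mem hm] at h3
  rw [Nat.even_iff]
  omega

theorem HP.z_a (h : HP S e) (hn : 8 ≤ Fintype.card V) {z : V} (hz : e z = 0) {x x' : V}
    (hx : x ≠ z) (hne : x ≠ x') (he : e x' = e x) (h2 : e x + e x ≠ ∑ y, e y)
    (h3 : e x + e x + e x ≠ ∑ y, e y) : False := by
  have hc : (S.ln x x').card = 3 := h.card3 hne (by rw [he]; exact h2)
  have hw := h.third_eq hne hc
  rw [he] at hw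
  apply h.z_odd hn hz hx h2
  apply h.match (w := S.th x x')
  · rw [hw]
    intro h4
    apply h3
    have h5 : e x + e x + e x = (e x + e x) + (∑ y, e y - e x - e x) := by rw [h4]
    rw [h5]; abel
  · rw [hw]
    intro h4
    apply h.z_ne hn hz hx
    have h5 : e x = ∑ y, e y - (∑ y, e y - e x - e x + e x) := by abel
    rw [h5, h4, sub_self]
  · rw [hw]; abel

theorem HP.z_two (h : HP S e) (hn : 8 ≤ Fintype.card V) {z : V} (hz : e z = 0) {x x' : V}
    (hne : x ≠ x') (he : e x' = e x) (hx0 : e x ≠ 0) : e x + e x = ∑ y, e y := by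
  by_contra h2
  have hx : x ≠ z := fun h1 => hx0 (by rw [h1]; exact hz)
  have hx' : x' ≠ z := fun h1 => hx0 (by rw [← he, h1]; exact hz)
  by_cases h3 : e x + e x + e x = ∑ y, e y
  · -- pass to the class `2 b`
    have hc := h.z_three hn hz hx
    have hc' := h.z_three hn hz hx'
    have e1 := h.z_star hn hz hx
    have e2 := h.z_star hn hz hx'
    rw [he] at e2
    have hne2 : S.th z x ≠ S.th z x' := by
      intro h4
      apply hne
      rw [← LS.th_th hx.symm hc, ← LS.th_th hx'.symm hc', h4]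
    have hτ0 := h.tau_ne (by omega)
    refine h.z_a hn hz (LS.th_ne_left hx.symm hc) hne2 (e2.trans e1.symm) ?_ ?_
    · rw [e1]
      intro h4
      apply h2
      have h5 : e x + e x = (∑ y, e y + ∑ y, e y) - (∑ y, e y - e x + (∑ y, e y - e x)) := by abel
      rw [h5, h4]; abel
    · rw [e1]
      intro h4
      apply hτ0
      have h5 : ∑ y, e y = (∑ y, e y - e x + (∑ y, e y - e x) + (∑ y, e y - e x)) - ∑ y, e y
          + ((e x + e x + e x) - ∑ y, e y) := by abel
      rw [h5, h4, h3]; abel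
  · exact h.z_a hn hz hx hne he h2 h3

end Pool.Agent.helper25.PV
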